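import Pool.Agent.H38.DO.Steps

/-! The first pair consists of consecutive numbers. -/

open Finset

namespace Pool.Agent.H38.DO

open Pool.Agent.H38.DP

/-- the setting with a first pair of consecutive numbers -/
structure ACtx (M N τ y : ℕ) (gb : ℕ → ℕ) (E X : ℕ → Prop) (W : Finset ℕ → Prop) : Prop
    extends Ctx M N τ gb E X W where
  hy : 5 ≤ y
  hNy : N = 2 * y + 1
  hτ : τ ≤ 3
  Xy : ¬ X y
  Xy1 : ¬ X (y + 1)
  gy : 1 < gb (y + 1)
  hns : 3 * y + 2 < N + M

namespace ACtx

variable {M N τ y : ℕ} {gb : ℕ → ℕ} {E X : ℕ → Prop} {W : Finset ℕ → Prop}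
  (h : ACtx M N τ y gb E X W)
include h

lemma XN' : ¬ X N := fun hx => by have := h.XN N hx; omega

lemma trans {n : ℕ} (hn : n < 2 * N) :
    cnt (NB W gb E (y + 1) y) n = cnt (NR W M N (y + 1) y) n :=
  h.toCtx.transfer ⟨by have := h.hy; have := h.hτ; omega, h.Xy1⟩
    ⟨by have := h.hy; have := h.hτ; omega, h.Xy⟩ (by omega) (by have := h.hNy; omega)
    (by have := h.gy; omega) hn

lemma NR_cases {S : Finset ℕ} (hS : NR W M N (y + 1) y S) (hn : ∑ e ∈ S, e < N + 2 * M) :
    ({N, y} : Finset ℕ) ⊆ S ∨ ({N, y + 1} : Finset ℕ) ⊆ S ∨ ({N + M} : Finset ℕ) ⊆ S := by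
  obtain ⟨hW, ⟨e, he, hKe⟩, hN⟩ := hS
  have h1 := le_sum_of_mem he
  have hM := h.hM
  rcases Ctx.Kc_two (by omega) hKe (by omega) with rfl | rfl
  · rcases hN he with h2 | h2
    · right; left
      intro z hz
      rw [mem_insert, mem_singleton] at hz
      rcases hz with rfl | rfl
      · exact he
      · exact h2
    · left
      intro z hz
      rw [mem_insert, mem_singleton] at hz
      rcases hz with rfl | rfl
      · exact he
      · exact h2
  · right; right
    exact singleton_subset_iff.2 he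

lemma sNy : ∑ e ∈ ({N, y} : Finset ℕ), e = 3 * y + 1 := by
  have := h.hNy
  rw [sum_pair' (by omega)]
  omega

lemma sNy1 : ∑ e ∈ ({N, y + 1} : Finset ℕ), e = 3 * y + 2 := by
  have := h.hNy
  have := h.hy
  rw [sum_pair' (by omega)]
  omega

/-- nothing below `3 y + 1` -/
lemma NB_ge {S : Finset ℕ} (hS : NB W gb E (y + 1) y S) : 3 * y + 1 ≤ ∑ e ∈ S, e := by
  by_contra hlt
  push Not at hlt
  have hNy := h.hNy
  have hns := h.hns
  have h1 : 0 < cnt (NB W gb E (y + 1) y) (∑ e ∈ S, e) := cnt_pos_iff.2 ⟨S, hS, rfl⟩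
  rw [h.trans (by omega)] at h1
  obtain ⟨T, hT, hs⟩ := cnt_pos_iff.1 h1
  rcases h.NR_cases hT (by omega) with h2 | h2 | h2
  · have := sum_le_sum_of_subset (f := fun e => e) h2
    rw [h.sNy] at this
    omega
  · have := sum_le_sum_of_subset (f := fun e => e) h2
    rw [h.sNy1] at this
    omega
  · have := sum_le_sum_of_subset (f := fun e => e) h2
    rw [sum_singleton] at this
    omega

lemma NR_ub1 {s : ℕ} (hs : 1 ≤ s) (hn : 3 * y + 1 + s < N + M) :
    cnt (NR W M N (y + 1) y) (3 * y + 1 + s) ≤ cnt W s + cnt W (s - 1) := by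
  have hM := h.hM
  have := UB (W := W) (P := NR W M N (y + 1) y) (3 * y + 1 + s)
    [({N, y}, s), ({N, y + 1}, s - 1)] h.Wsub (fun S hS => hS.1) ?_ ?_
  · simpa using this
  · intro p hp
    simp only [List.mem_cons, List.not_mem_nil, or_false] at hp
    rcases hp with rfl | rfl
    · simp only [h.sNy]
    · simp only [h.sNy1]
      omega
  · intro S hS hsum
    rcases h.NR_cases hS (by omega) with h2 | h2 | h2
    · exact ⟨_, List.mem_cons_self, h2⟩
    · exact ⟨({N, y + 1}, s - 1), by simp, h2⟩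
    · have := sum_le_sum_of_subset (f := fun e => e) h2
      rw [sum_singleton] at this
      omega

lemma NR_zero : cnt (NR W M N (y + 1) y) (3 * y + 1) = 1 := by
  have hM := h.hM
  have hns := h.hns
  have hy := h.hy
  have hτ := h.hτ
  have hNy := h.hNy
  apply le_antisymm
  · have := UB (W := W) (P := NR W M N (y + 1) y) (3 * y + 1)
      [({N, y}, 0)] h.Wsub (fun S hS => hS.1) ?_ ?_
    · simpa [h.toCtx.q_zero] using this
    · intro p hp
      simp only [List.mem_cons, List.not_mem_nil, or_false] at hp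
      subst hp
      simp only [h.sNy]
    · intro S hS hsum
      rcases h.NR_cases hS (by omega) with h2 | h2 | h2
      · exact ⟨_, List.mem_cons_self, h2⟩
      · have := sum_le_sum_of_subset (f := fun e => e) h2
        rw [h.sNy1] at this
        omega
      · have := sum_le_sum_of_subset (f := fun e => e) h2
        rw [sum_singleton] at this
        omega
  · rw [Nat.one_le_iff_ne_zero, ← Nat.pos_iff_ne_zero]
    refine cnt_pos_iff.2 ⟨{N, y} ∪ ∅, ?_, by rw [union_empty, h.sNy]⟩
    refine h.toCtx.NR_of ?_ ⟨N, by simp, Ctx.Kc_self⟩ h.W0 (fun _ => Or.inr (by simp))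
      (by simp; omega)
    intro j hj
    rw [mem_insert, mem_singleton] at hj
    rcases hj with rfl | rfl
    · exact ⟨by omega, h.XN'⟩
    · exact ⟨by omega, h.Xy⟩

/-- the families counted by `NR` -/
lemma NR_mem1 {s : ℕ} (hs : s < y) : ∀ Q, W Q → ∑ e ∈ Q, e = s →
    NR W M N (y + 1) y ({N, y} ∪ Q) := by
  intro Q hQ hQs
  have hy := h.hy
  have hτ := h.hτ
  have hNy := h.hNy
  refine h.toCtx.NR_of ?_ ⟨N, by simp, Ctx.Kc_self⟩ hQ (fun _ => Or.inr (by simp)) (by omega)
  intro j hj
  rw [mem_insert, mem_singleton] at hj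
  rcases hj with rfl | rfl
  · exact ⟨by omega, h.XN'⟩
  · exact ⟨by omega, h.Xy⟩

lemma NR_mem2 {s : ℕ} (hs : s < y) : ∀ Q, W Q → ∑ e ∈ Q, e = s →
    NR W M N (y + 1) y ({N, y + 1} ∪ Q) := by
  intro Q hQ hQs
  have hy := h.hy
  have hτ := h.hτ
  have hNy := h.hNy
  refine h.toCtx.NR_of ?_ ⟨N, by simp, Ctx.Kc_self⟩ hQ (fun _ => Or.inl (by simp)) (by omega)
  intro j hj
  rw [mem_insert, mem_singleton] at hj
  rcases hj with rfl | rfl
  · exact ⟨by omega, h.XN'⟩
  · exact ⟨by omega, h.Xy1⟩

lemma NR_mem3 {s : ℕ} (hs : s < y) : ∀ Q, W Q → ∑ e ∈ Q, e = s →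
    NR W M N (y + 1) y ({N + M} ∪ Q) := by
  intro Q hQ hQs
  have hy := h.hy
  have hτ := h.hτ
  have hNy := h.hNy
  have hM := h.hM
  refine h.toCtx.NR_of ?_ ⟨N + M, by simp, Ctx.Kc_M⟩ hQ (fun h1 => ?_) (by omega)
  · intro j hj
    rw [mem_singleton] at hj
    subst hj
    exact ⟨by omega, fun hx => by have := h.XN _ hx; omega⟩
  · rw [mem_singleton] at h1
    omega

lemma NR_lb1 {s : ℕ} (hs : 1 ≤ s) (hsy : s < y) :
    cnt W s + cnt W (s - 1) ≤ cnt (NR W M N (y + 1) y) (3 * y + 1 + s) := by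
  have hNy := h.hNy
  have := LB (W := W) (P := NR W M N (y + 1) y) (3 * y + 1 + s) s
    [({N, y}, s), ({N, y + 1}, s - 1)] (by simp; omega) ?_
  · simpa using this
  · intro p hp
    simp only [List.mem_cons, List.not_mem_nil, or_false] at hp
    rcases hp with rfl | rfl
    · refine ⟨by simp only [h.sNy], le_rfl, ?_, h.NR_mem1 hsy⟩
      intro j hj
      simp only [mem_insert, mem_singleton] at hj
      omega
    · refine ⟨by simp only [h.sNy1]; omega, by simp, ?_, h.NR_mem2 (by omega)⟩
      intro j hj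
      simp only [mem_insert, mem_singleton] at hj
      omega

lemma NR_lb2 {s t : ℕ} (hs : 1 ≤ s) (hsy : s < y)
    (hst : 3 * y + 1 + s = N + M + t) :
    cnt W s + cnt W (s - 1) + cnt W t ≤ cnt (NR W M N (y + 1) y) (3 * y + 1 + s) := by
  have hNy := h.hNy
  have hns := h.hns
  have := LB (W := W) (P := NR W M N (y + 1) y) (3 * y + 1 + s) s
    [({N, y}, s), ({N, y + 1}, s - 1), ({N + M}, t)] (by simp; omega) ?_
  · simpa [add_assoc] using this
  · intro p hp
    simp only [List.mem_cons, List.not_mem_nil, or_false] at hp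
    rcases hp with rfl | rfl | rfl
    · refine ⟨by simp only [h.sNy], le_rfl, ?_, h.NR_mem1 hsy⟩
      intro j hj
      simp only [mem_insert, mem_singleton] at hj
      omega
    · refine ⟨by simp only [h.sNy1]; omega, by simp, ?_, h.NR_mem2 (by omega)⟩
      intro j hj
      simp only [mem_insert, mem_singleton] at hj
      omega
    · refine ⟨by simp only [sum_singleton]; omega, by simp only; omega, ?_,
        h.NR_mem3 (by simp only; omega)⟩
      intro j hj
      simp only [mem_singleton] at hj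
      omega

lemma NR_ub2 {s t : ℕ} (hs : 1 ≤ s) (hst : 3 * y + 1 + s = N + M + t)
    (hn : 3 * y + 1 + s < N + 2 * M) :
    cnt (NR W M N (y + 1) y) (3 * y + 1 + s) ≤ cnt W s + cnt W (s - 1) + cnt W t := by
  have := UB (W := W) (P := NR W M N (y + 1) y) (3 * y + 1 + s)
    [({N, y}, s), ({N, y + 1}, s - 1), ({N + M}, t)] h.Wsub (fun S hS => hS.1) ?_ ?_
  · simpa [add_assoc] using this
  · intro p hp
    simp only [List.mem_cons, List.not_mem_nil, or_false] at hp
    rcases hp with rfl | rfl | rfl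
    · simp only [h.sNy]
    · simp only [h.sNy1]
      omega
    · simp only [sum_singleton]
      omega
  · intro S hS hsum
    rcases h.NR_cases hS (by omega) with h2 | h2 | h2
    · exact ⟨_, List.mem_cons_self, h2⟩
    · exact ⟨({N, y + 1}, s - 1), by simp, h2⟩
    · exact ⟨({N + M}, t), by simp, h2⟩

/-- the last count, with the third family -/
lemma NR_ubx {t : ℕ} (hst : 4 * y + 1 = N + M + t) (hn : 4 * y + 1 < N + 2 * M) :
    cnt (NR W M N (y + 1) y) (4 * y + 1) + 1 ≤ cnt W y + (cnt W (y - 1) + cnt W t) := by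
  have hy := h.hy
  have := UBx (W := W) (P := NR W M N (y + 1) y) (4 * y + 1)
    ({N, y}, y) [({N, y + 1}, y - 1), ({N + M}, t)] h.Wsub (fun S hS => hS.1) ?_ ?_ {y}
    (h.W1 y (by omega) h.Xy) (by simp) (by simp)
  · simpa using this
  · intro p hp
    simp only [List.mem_cons, List.not_mem_nil, or_false] at hp
    rcases hp with rfl | rfl | rfl
    · simp only [h.sNy]
      omega
    · simp only [h.sNy1]
      omega
    · simp only [sum_singleton]
      omega
  · intro S hS hsum
    rcases h.NR_cases hS (by omega) with h2 | h2 | h2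
    · exact ⟨_, List.mem_cons_self, h2⟩
    · exact ⟨({N, y + 1}, y - 1), by simp, h2⟩
    · exact ⟨({N + M}, t), by simp, h2⟩

/-- the last count, without the third family -/
lemma NR_ubx' (hn : 4 * y + 1 < N + M) :
    cnt (NR W M N (y + 1) y) (4 * y + 1) + 1 ≤ cnt W y + cnt W (y - 1) := by
  have hy := h.hy
  have hM := h.hM
  have := UBx (W := W) (P := NR W M N (y + 1) y) (4 * y + 1)
    ({N, y}, y) [({N, y + 1}, y - 1)] h.Wsub (fun S hS => hS.1) ?_ ?_ {y}
    (h.W1 y (by omega) h.Xy) (by simp) (by simp)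
  · simpa using this
  · intro p hp
    simp only [List.mem_cons, List.not_mem_nil, or_false] at hp
    rcases hp with rfl | rfl
    · simp only [h.sNy]
      omega
    · simp only [h.sNy1]
      omega
  · intro S hS hsum
    rcases h.NR_cases hS (by omega) with h2 | h2 | h2
    · exact ⟨_, List.mem_cons_self, h2⟩
    · exact ⟨({N, y + 1}, y - 1), by simp, h2⟩
    · have := sum_le_sum_of_subset (f := fun e => e) h2
      rw [sum_singleton] at this
      omega

end ACtx

end Pool.Agent.H38.DO
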