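import Pool.Agent.H38.DO.Alpha

/-! The first pair consists of consecutive numbers: the next two items. -/

open Finset

namespace Pool.Agent.H38.DO

open Pool.Agent.H38.DP

/-- the next two items -/
structure AJ (y : ℕ) (W : Finset ℕ → Prop) (gb : ℕ → ℕ) (E : ℕ → Prop)
    (J1 J2 : Finset ℕ) : Prop where
  i1 : It W gb E (y + 1) y J1
  i2 : It W gb E (y + 1) y J2
  s1 : ∑ e ∈ J1, e = 3 * y + 1
  s2 : ∑ e ∈ J2, e = 3 * y + 2
  u1 : ∀ J, It W gb E (y + 1) y J → ∑ e ∈ J, e = 3 * y + 1 → J = J1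
  u2 : ∀ J, It W gb E (y + 1) y J → ∑ e ∈ J, e = 3 * y + 2 → J = J2

namespace ACtx

variable {M N τ y : ℕ} {gb : ℕ → ℕ} {E X : ℕ → Prop} {W : Finset ℕ → Prop}
  (h : ACtx M N τ y gb E X W)
include h

lemma It_fam {J : Finset ℕ} (hJ : It W gb E (y + 1) y J) (hb : ∀ j ∈ J, 3 < j) {t : ℕ}
    (ht : t < y) : ∀ Q, W Q → ∑ e ∈ Q, e = t → NB W gb E (y + 1) y (J ∪ Q) := by
  intro Q hQ hQt
  have hτ := h.hτ
  exact h.toCtx.NB_of (fun j hj => ⟨by have := hb j hj; omega, (h.Wpos J hJ.2.1 j hj).2⟩)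
    (item_bad hJ.1 (subset_refl J)) hQ hJ.2.2 (by omega) (by omega)

lemma It_fam' {J : Finset ℕ} (hJ : It W gb E (y + 1) y J) (hb : ∀ j ∈ J, y + 2 ≤ j) :
    ∀ Q, W Q → ∑ e ∈ Q, e = y → NB W gb E (y + 1) y (J ∪ Q) := by
  intro Q hQ hQt
  have hτ := h.hτ
  have hy := h.hy
  exact h.toCtx.NB_of' (fun j hj => ⟨by have := hb j hj; omega, (h.Wpos J hJ.2.1 j hj).2⟩)
    (item_bad hJ.1 (subset_refl J)) hQ (fun hx => by have := hb _ hx; omega) (by omega)

lemma J1_exists : ∃ J1, It W gb E (y + 1) y J1 ∧ ∑ e ∈ J1, e = 3 * y + 1 ∧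
    ∀ J, It W gb E (y + 1) y J → ∑ e ∈ J, e = 3 * y + 1 → J = J1 := by
  have hNy := h.hNy
  have h1 := h.trans (n := 3 * y + 1) (by omega)
  rw [h.NR_zero, cnt_eq, card_eq_one] at h1
  obtain ⟨S, hS⟩ := h1
  have h2 : S ∈ fam (NB W gb E (y + 1) y) (3 * y + 1) := by rw [hS]; exact mem_singleton_self S
  obtain ⟨h3, h4⟩ := mem_fam.1 h2
  obtain ⟨J, hJS, hJ⟩ := h.toCtx.exists_It h3
  have h5 := h.NB_ge hJ.NB
  have h6 : J = S := eq_of_subset_sum hJS (fun x hx => (h.Wpos S h3.1 x hx).1) (by omega)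
  subst h6
  refine ⟨J, hJ, h4, fun J' hJ' hs => ?_⟩
  have h7 : J' ∈ fam (NB W gb E (y + 1) y) (3 * y + 1) := mem_fam.2 ⟨hJ'.NB, hs⟩
  rw [hS] at h7
  exact mem_singleton.1 h7

/-- the first two items, if all elements of the items are at least 4 -/
lemma AJ_exists (hbig : ∀ J, It W gb E (y + 1) y J → ∑ e ∈ J, e ≤ 3 * y + 2 → ∀ j ∈ J, 3 < j) :
    ∃ J1 J2, AJ y W gb E J1 J2 := by
  have hNy := h.hNy
  have hy := h.hy
  have hns := h.hns
  obtain ⟨J1, i1, s1, u1⟩ := h.J1_exists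
  have b1 := hbig J1 i1 (by omega)
  have hub := h.NR_ub1 (s := 1) le_rfl (by omega)
  have hlb := h.NR_lb1 (s := 1) le_rfl (by omega)
  have htr := h.trans (n := 3 * y + 1 + 1) (by omega)
  have hq0 := h.toCtx.q_zero
  simp only [Nat.sub_self] at hub hlb
  obtain ⟨J2, i2, s2, _⟩ := h.toCtx.new_item (x0 := y + 1) (y0 := y) (n := 3 * y + 1 + 1)
    [(J1, 1)] (fun J hJ hlt => ⟨(J1, 1), by simp, by
      have h5 := h.NB_ge hJ.NB
      rw [u1 J hJ (by omega)]⟩)
    (by simp [s1]) (by simp only [List.map_cons, List.map_nil, List.sum_cons, List.sum_nil]; omega)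
  have b2 := hbig J2 i2 (by omega)
  refine ⟨J1, J2, i1, i2, s1, s2, u1, fun J hJ hs => ?_⟩
  have key := h.toCtx.no_more (x0 := y + 1) (y0 := y) (n := 3 * y + 1 + 1) (t := 1)
    [(J1, 1), (J2, 0)] (by simp) ?_ (by
      simp only [List.map_cons, List.map_nil, List.sum_cons, List.sum_nil]; omega) hJ.NB hs
  · obtain ⟨p, hp, hpJ⟩ := key
    simp only [List.mem_cons, List.not_mem_nil, or_false] at hp
    rcases hp with rfl | rfl
    · have := item_sub i1.1 hJ.1 hpJ
      rw [this] at s1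
      omega
    · exact (item_sub i2.1 hJ.1 hpJ).symm
  · intro p hp
    simp only [List.mem_cons, List.not_mem_nil, or_false] at hp
    rcases hp with rfl | rfl
    · exact ⟨by simp only [s1], le_rfl, fun j hj => by have := b1 j hj; omega,
        h.It_fam i1 b1 (by omega)⟩
    · exact ⟨by simp only [s2], by simp, fun j hj => by have := b2 j hj; omega,
        h.It_fam i2 b2 (by simp; omega)⟩

/-- no further items before `N + M` -/
lemma sat {J1 J2 : Finset ℕ} (hA : AJ y W gb E J1 J2) {s : ℕ} (hs : 2 ≤ s)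
    (hsM : 3 * y + 1 + s < N + M) (hsy : s < y) (b1 : ∀ j ∈ J1, 3 < j ∧ s < j)
    (b2 : ∀ j ∈ J2, 3 < j ∧ s < j) {S : Finset ℕ} (hS : NB W gb E (y + 1) y S)
    (hSs : ∑ e ∈ S, e = 3 * y + 1 + s) : J1 ⊆ S ∨ J2 ⊆ S := by
  have hNy := h.hNy
  have hub := h.NR_ub1 (s := s) (by omega) hsM
  have htr := h.trans (n := 3 * y + 1 + s) (by omega)
  have key := h.toCtx.no_more (x0 := y + 1) (y0 := y) (n := 3 * y + 1 + s) (t := s)
    [(J1, s), (J2, s - 1)] (by simp; omega) ?_ (by
      simp only [List.map_cons, List.map_nil, List.sum_cons, List.sum_nil]; omega) hS hSs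
  · obtain ⟨p, hp, hpJ⟩ := key
    simp only [List.mem_cons, List.not_mem_nil, or_false] at hp
    rcases hp with rfl | rfl
    · exact Or.inl hpJ
    · exact Or.inr hpJ
  · intro p hp
    simp only [List.mem_cons, List.not_mem_nil, or_false] at hp
    rcases hp with rfl | rfl
    · exact ⟨by simp only [hA.s1], le_rfl, fun j hj => (b1 j hj).2,
        h.It_fam hA.i1 (fun j hj => (b1 j hj).1) hsy⟩
    · exact ⟨by simp only [hA.s2]; omega, by simp, fun j hj => (b2 j hj).2,
        h.It_fam hA.i2 (fun j hj => (b2 j hj).1) (by simp only; omega)⟩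

lemma sat_It {J1 J2 : Finset ℕ} (hA : AJ y W gb E J1 J2) {s : ℕ} (hs : 2 ≤ s)
    (hsM : 3 * y + 1 + s < N + M) (hsy : s < y) (b1 : ∀ j ∈ J1, 3 < j ∧ s < j)
    (b2 : ∀ j ∈ J2, 3 < j ∧ s < j) {J : Finset ℕ} (hJ : It W gb E (y + 1) y J) :
    ∑ e ∈ J, e ≠ 3 * y + 1 + s := by
  intro hs'
  rcases h.sat hA hs hsM hsy b1 b2 hJ.NB hs' with h1 | h1
  · have := item_sub hA.i1.1 hJ.1 h1
    have h2 := hA.s1
    rw [this] at h2
    omega
  · have := item_sub hA.i2.1 hJ.1 h1
    have h2 := hA.s2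
    rw [this] at h2
    omega

/-- a long pair gives an item with larger sum -/
lemma longer {x z k : ℕ} (hJ : It W gb E (y + 1) y {x, z}) (hzx : z + k < x) (hk : 0 < k)
    (hz3 : 3 < z) (hzX : ∀ e, X e → e < z) (hsum : x + z + k ≤ 3 * y + 3)
    (hsum' : 3 * y + 1 ≤ x + z) : It W gb E (y + 1) y {x, z + k} := by
  have hNy := h.hNy
  have hy := h.hy
  have hτ := h.hτ
  obtain ⟨h1, h2, h3⟩ := hJ
  have hXk : ¬ X (z + k) := fun hx => by have := hzX _ hx; omega
  have hEx : E x ∧ x < z + gb x := by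
    rcases h1 with ⟨e, he, heq⟩ | ⟨x', y', hyx', hx', hy', hlt', heq⟩
    · exfalso
      have m1 : x ∈ ({e} : Finset ℕ) := by rw [← heq]; simp
      have m2 : z ∈ ({e} : Finset ℕ) := by rw [← heq]; simp
      rw [mem_singleton] at m1 m2
      omega
    · have m1 : x ∈ ({x', y'} : Finset ℕ) := by rw [← heq]; simp
      have m2 : z ∈ ({x', y'} : Finset ℕ) := by rw [← heq]; simp
      rw [mem_insert, mem_singleton] at m1 m2
      have h4 : x = x' ∧ z = y' := by omega
      rw [h4.1, h4.2]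
      exact ⟨hx', hlt'⟩
  have hxX := (h.Wpos _ h2 x (by simp)).2
  refine ⟨Or.inr ⟨x, z + k, by omega, hEx.1, h.toCtx.E_lt (by omega) hXk (by omega),
    by omega, rfl⟩, ?_, ?_⟩
  · exact h.neu x (by omega) hxX _ (h.W1 _ (by omega) hXk)
  · rintro ⟨m1, m2⟩
    rw [mem_insert, mem_singleton] at m1 m2
    omega

/-- the elements of the two items are large -/
lemma AJ_big {J1 J2 : Finset ℕ} (hA : AJ y W gb E J1 J2) (hs3 : 3 * y + 3 < N + M)
    (hbig : ∀ J, It W gb E (y + 1) y J → ∑ e ∈ J, e ≤ 3 * y + 2 →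
      ∀ j ∈ J, 3 < j ∧ ∀ e, X e → e < j) :
    (∀ j ∈ J1, y + 2 ≤ j) ∧ ∀ j ∈ J2, y + 2 ≤ j := by
  have hy := h.hy
  have b1 := hbig J1 hA.i1 (by have := hA.s1; omega)
  have b2 := hbig J2 hA.i2 (by have := hA.s2; omega)
  have hno : ∀ J, It W gb E (y + 1) y J → ∑ e ∈ J, e ≠ 3 * y + 1 + 2 := fun J hJ =>
    h.sat_It hA le_rfl (by omega) (by omega) (fun j hj => ⟨(b1 j hj).1, by
      have := (b1 j hj).1; omega⟩) (fun j hj => ⟨(b2 j hj).1, by have := (b2 j hj).1; omega⟩) hJ
  have i1 := hA.i1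
  have s1 := hA.s1
  have i2 := hA.i2
  have s2 := hA.s2
  constructor
  · rcases i1.1 with ⟨e, he, rfl⟩ | ⟨x, z, hzx, hx, hz, hlt, rfl⟩
    · intro j hj
      rw [mem_singleton] at hj
      rw [sum_singleton] at s1
      omega
    · rw [sum_pair' hzx] at s1
      have hz3 := b1 z (by simp)
      have : x ≤ z + 2 := by
        by_contra hcon
        have h1 := h.longer (k := 2) i1 (by omega) (by omega) hz3.1 hz3.2 (by omega) (by omega)
        apply hno _ h1
        rw [sum_pair' (by omega)]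
        omega
      intro j hj
      rw [mem_insert, mem_singleton] at hj
      omega
  · rcases i2.1 with ⟨e, he, rfl⟩ | ⟨x, z, hzx, hx, hz, hlt, rfl⟩
    · intro j hj
      rw [mem_singleton] at hj
      rw [sum_singleton] at s2
      omega
    · rw [sum_pair' hzx] at s2
      have hz3 := b2 z (by simp)
      have : x ≤ z + 1 := by
        by_contra hcon
        have h1 := h.longer (k := 1) i2 (by omega) (by omega) hz3.1 hz3.2 (by omega) (by omega)
        apply hno _ h1
        rw [sum_pair' (by omega)]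
        omega
      intro j hj
      rw [mem_insert, mem_singleton] at hj
      omega

/-- the final contradiction with a third item -/
lemma final3 {J1 J2 J3 : Finset ℕ} (hA : AJ y W gb E J1 J2) (b1 : ∀ j ∈ J1, y + 2 ≤ j)
    (b2 : ∀ j ∈ J2, y + 1 ≤ j) (i3 : It W gb E (y + 1) y J3) (s3 : ∑ e ∈ J3, e = N + M)
    (b3 : ∀ j ∈ J3, y + 1 ≤ j) {t : ℕ} (ht : 4 * y + 1 = N + M + t) : False := by
  have hNy := h.hNy
  have hy := h.hy
  have hns := h.hns
  have hM := h.hM
  have hub := h.NR_ubx ht (by omega)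
  have htr := h.trans (n := 4 * y + 1) (by omega)
  have hlb := LB (W := W) (P := NB W gb E (y + 1) y) (4 * y + 1) y
    [(J1, y), (J2, y - 1), (J3, t)] (by simp; omega) ?_
  · simp only [List.map_cons, List.map_nil, List.sum_cons, List.sum_nil] at hlb
    omega
  · intro p hp
    simp only [List.mem_cons, List.not_mem_nil, or_false] at hp
    rcases hp with rfl | rfl | rfl
    · exact ⟨by simp only [hA.s1]; omega, le_rfl, fun j hj => by have := b1 j hj; omega,
        h.It_fam' hA.i1 b1⟩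
    · exact ⟨by simp only [hA.s2]; omega, by simp, fun j hj => by have := b2 j hj; omega,
        h.It_fam hA.i2 (fun j hj => by have := b2 j hj; omega) (by simp only; omega)⟩
    · exact ⟨by simp only [s3]; omega, by simp only; omega,
        fun j hj => by have := b3 j hj; omega,
        h.It_fam i3 (fun j hj => by have := b3 j hj; omega) (by simp only; omega)⟩

/-- the final contradiction without a third item -/
lemma final2 {J1 J2 : Finset ℕ} (hA : AJ y W gb E J1 J2) (b1 : ∀ j ∈ J1, y + 2 ≤ j)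
    (b2 : ∀ j ∈ J2, y + 1 ≤ j) (hn : 4 * y + 1 < N + M) : False := by
  have hNy := h.hNy
  have hy := h.hy
  have hub := h.NR_ubx' hn
  have htr := h.trans (n := 4 * y + 1) (by omega)
  have hlb := LB (W := W) (P := NB W gb E (y + 1) y) (4 * y + 1) y
    [(J1, y), (J2, y - 1)] (by simp; omega) ?_
  · simp only [List.map_cons, List.map_nil, List.sum_cons, List.sum_nil] at hlb
    omega
  · intro p hp
    simp only [List.mem_cons, List.not_mem_nil, or_false] at hp
    rcases hp with rfl | rfl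
    · exact ⟨by simp only [hA.s1]; omega, le_rfl, fun j hj => by have := b1 j hj; omega,
        h.It_fam' hA.i1 b1⟩
    · exact ⟨by simp only [hA.s2]; omega, by simp, fun j hj => by have := b2 j hj; omega,
        h.It_fam hA.i2 (fun j hj => by have := b2 j hj; omega) (by simp only; omega)⟩

end ACtx

end Pool.Agent.H38.DO
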