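import Pool.Agent.H38.DO.Alpha2

/-! The first pair consists of consecutive numbers: the case `N = M + c`. -/

open Finset

namespace Pool.Agent.H38.DO

open Pool.Agent.H38.DP

namespace ACtx

variable {M N τ y : ℕ} {gb : ℕ → ℕ} {E X : ℕ → Prop} {W : Finset ℕ → Prop}
  (h : ACtx M N τ y gb E X W)
include h

/-- small sets are good -/
lemma good' {S : Finset ℕ} (hW : W S) (hs : ∑ e ∈ S, e < 3 * y + 1)
    (hxy : ¬ (y + 1 ∈ S ∧ y ∈ S)) : Adm gb E S := by
  by_contra hna
  have := h.NB_ge (S := S) ⟨hW, hna, hxy⟩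
  omega

/-- small pairs are allowed -/
lemma pair_ok {x z : ℕ} (hzx : z < x) (hx : τ < x) (hz : 0 < z) (hxX : ¬ X x) (hzX : ¬ X z)
    (hs : x + z < 3 * y + 1) (hxz : ¬ (x = y + 1 ∧ z = y)) : z + gb x ≤ x := by
  have hW : W {x, z} := h.neu x hx hxX _ (h.W1 z hz hzX)
  have h1 := h.good' hW (by rw [sum_pair' hzx]; exact hs) (by
    rintro ⟨m1, m2⟩
    rw [mem_insert, mem_singleton] at m1 m2
    omega)
  exact h1.2 x (by simp) z (by simp) hzx

omit h in
lemma gb_mod (hper : ∀ x, gb (x + M) = gb x) {x u : ℕ} (hxu : x % M = u % M) : gb x = gb u := by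
  have hp : Function.Periodic gb M := hper
  rw [← hp.map_mod_nat x, ← hp.map_mod_nat u, hxu]

omit h in
/-- a representative in a given window -/
lemma rep (hM : 0 < M) (x k : ℕ) : ∃ u, k ≤ u ∧ u < k + M ∧ x % M = u % M := by
  refine ⟨k + (x + M * k - k) % M, by omega, ?_, ?_⟩
  · have := Nat.mod_lt (x + M * k - k) hM
    omega
  · have hk : k ≤ M * k := Nat.le_mul_of_pos_left k hM
    conv_rhs => rw [Nat.add_mod, Nat.mod_mod, ← Nat.add_mod]
    rw [show k + (x + M * k - k) = x + M * k by omega, Nat.add_mul_mod_self_left]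

/-- the counting at `2 N` -/
lemma final2N {J1 J2 : Finset ℕ} (hA : AJ y W gb E J1 J2) (b1 : ∀ j ∈ J1, y + 2 ≤ j)
    (b2 : ∀ j ∈ J2, y + 2 ≤ j) (hNM : N + M = 4 * y + 1) (hX1 : X 1) : False := by
  have hNy := h.hNy
  have hy := h.hy
  have hM := h.hM
  have hτ := h.hτ
  -- the required sets
  have h1 : cnt (fun S => W S ∧ ∃ e ∈ S, Kc M N e) (4 * y + 2) + 1 ≤ cnt W (2 * y + 1) := by
    have := UBx (W := W) (P := fun S => W S ∧ ∃ e ∈ S, Kc M N e) (4 * y + 2)
      ({N}, 2 * y + 1) [] h.Wsub (fun S hS => hS.1) ?_ ?_ {N}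
      (h.W1 N (by omega) h.XN') (by simp [hNy]) (by simp)
    · simpa using this
    · intro p hp
      simp only [List.mem_cons, List.not_mem_nil, or_false] at hp
      subst hp
      simp only [sum_singleton]
      omega
    · rintro S ⟨hW, e, he, hKe⟩ hsum
      refine ⟨_, List.mem_cons_self, singleton_subset_iff.2 ?_⟩
      have h2 := le_sum_of_mem he
      rcases Ctx.Kc_two (by omega) hKe (by omega) with rfl | rfl
      · exact he
      · exfalso
        have h3 := sum_erase_add (f := fun e => e) _ he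
        have h4 : ∑ x ∈ S.erase (N + M), x = 1 := by omega
        have h5 : ∀ z ∈ S.erase (N + M), z = 1 := by
          intro z hz
          have h6 := le_sum_of_mem hz
          have h7 := (h.Wpos S hW z (mem_of_mem_erase hz)).1
          omega
        rcases (S.erase (N + M)).eq_empty_or_nonempty with h6 | ⟨z, hz⟩
        · rw [h6] at h4
          simp at h4
        · have h7 := h5 z hz
          subst h7
          exact (h.Wpos S hW 1 (mem_of_mem_erase hz)).2 hX1
  -- the bad sets
  have h2 := cnt_split (fun S => W S ∧ ¬ Adm gb E S) (fun S => y + 1 ∈ S ∧ y ∈ S) (4 * y + 2)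
  have h3 : cnt (fun S => (W S ∧ ¬ Adm gb E S) ∧ ¬ (y + 1 ∈ S ∧ y ∈ S)) (4 * y + 2) =
      cnt (NB W gb E (y + 1) y) (4 * y + 2) := cnt_congr' fun S _ => by unfold NB; tauto
  have h4 : cnt (fun S => W S ∧ y + 1 ∉ S ∧ y ∉ S) (2 * y + 1) ≤
      cnt (fun S => (W S ∧ ¬ Adm gb E S) ∧ y + 1 ∈ S ∧ y ∈ S) (4 * y + 2) := by
    rw [cnt_eq, cnt_eq]
    apply card_le_card_of_injOn (fun P => insert (y + 1) (insert y P))
    · intro P hP
      obtain ⟨⟨hW, m1, m2⟩, hs⟩ := mem_fam.1 (mem_coe.1 hP)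
      rw [mem_coe, mem_fam]
      have m3 : y + 1 ∉ insert y P := by
        rw [mem_insert]
        rintro (m4 | m4)
        · omega
        · exact m1 m4
      refine ⟨⟨⟨h.neu _ (by omega) h.Xy1 _ (h.neu _ (by omega) h.Xy _ hW), ?_⟩,
        mem_insert_self _ _, mem_insert_of_mem (mem_insert_self _ _)⟩, ?_⟩
      · exact pair_bad (x := y + 1) (y := y) (by omega) (by have := h.gy; omega)
          (mem_insert_self _ _) (mem_insert_of_mem (mem_insert_self _ _))
      · rw [sum_insert m3, sum_insert m2, hs]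
        omega
    · intro P hP P' hP' heq
      obtain ⟨⟨_, m1, m2⟩, _⟩ := mem_fam.1 (mem_coe.1 hP)
      obtain ⟨⟨_, m1', m2'⟩, _⟩ := mem_fam.1 (mem_coe.1 hP')
      have e1 : (insert (y + 1) (insert y P)).erase (y + 1) = insert y P :=
        erase_insert (by rw [mem_insert]; rintro (m4 | m4); · omega
                         · exact m1 m4)
      have e2 : (insert (y + 1) (insert y P')).erase (y + 1) = insert y P' :=
        erase_insert (by rw [mem_insert]; rintro (m4 | m4); · omega
                         · exact m1' m4)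
      have e3 : insert (y + 1) (insert y P) = insert (y + 1) (insert y P') := heq
      rw [e3, e2] at e1
      calc P = (insert y P).erase y := (erase_insert m2).symm
        _ = (insert y P').erase y := by rw [e1]
        _ = P' := erase_insert m2'
  -- all sets of sum `2 y + 1`
  have h5 := cnt_split W (fun S => y ∈ S) (2 * y + 1)
  have h6 := cnt_split (fun S => W S ∧ ¬ y ∈ S) (fun S => y + 1 ∈ S) (2 * y + 1)
  have h7 := cnt_split (fun S => W S ∧ y + 1 ∈ S) (fun S => y ∈ S) (2 * y + 1)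
  have h8 : cnt (fun S => W S ∧ y ∈ S) (2 * y + 1) ≤ cnt W (y + 1) := by
    have := UB (W := W) (P := fun S => W S ∧ y ∈ S) (2 * y + 1) [({y}, y + 1)] h.Wsub
      (fun S hS => hS.1) (by simp; omega)
      (fun S hS _ => ⟨_, List.mem_cons_self, singleton_subset_iff.2 hS.2⟩)
    simpa using this
  have h9 : cnt (fun S => W S ∧ y + 1 ∈ S) (2 * y + 1) ≤ cnt W y := by
    have := UB (W := W) (P := fun S => W S ∧ y + 1 ∈ S) (2 * y + 1) [({y + 1}, y)] h.Wsub
      (fun S hS => hS.1) (by simp; omega)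
      (fun S hS _ => ⟨_, List.mem_cons_self, singleton_subset_iff.2 hS.2⟩)
    simpa using this
  have h10 : 0 < cnt (fun S => (W S ∧ y + 1 ∈ S) ∧ y ∈ S) (2 * y + 1) := by
    refine cnt_pos_iff.2 ⟨{y + 1, y}, ⟨⟨h.neu _ (by omega) h.Xy1 _ (h.W1 _ (by omega) h.Xy),
      by simp⟩, by simp⟩, ?_⟩
    rw [sum_pair' (by omega)]
    omega
  have h11 : cnt (fun S => (W S ∧ ¬ y ∈ S) ∧ y + 1 ∈ S) (2 * y + 1) =
      cnt (fun S => (W S ∧ y + 1 ∈ S) ∧ ¬ y ∈ S) (2 * y + 1) :=
    cnt_congr' fun S _ => by tauto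
  have h12 : cnt (fun S => (W S ∧ ¬ y ∈ S) ∧ ¬ y + 1 ∈ S) (2 * y + 1) =
      cnt (fun S => W S ∧ y + 1 ∉ S ∧ y ∉ S) (2 * y + 1) :=
    cnt_congr' fun S _ => by tauto
  -- the new bad sets
  have h13 := LB (W := W) (P := NB W gb E (y + 1) y) (4 * y + 2) (y + 1)
    [(J1, y + 1), (J2, y)] (by simp) ?_
  · simp only [List.map_cons, List.map_nil, List.sum_cons, List.sum_nil] at h13
    have h14 := h.EQ (4 * y + 2)
    omega
  · have key : ∀ J, It W gb E (y + 1) y J → (∀ j ∈ J, y + 2 ≤ j) → ∀ Q, W Q →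
        ∑ e ∈ Q, e ≤ y + 1 → NB W gb E (y + 1) y (J ∪ Q) := by
      intro J hJ hb Q hQ hQs
      refine ⟨h.toCtx.W_union (fun j hj => ⟨by have := hb j hj; omega,
        (h.Wpos J hJ.2.1 j hj).2⟩) hQ, item_bad hJ.1 subset_union_left, ?_⟩
      rintro ⟨m1, m2⟩
      have m3 : y + 1 ∈ Q := by
        rcases mem_union.1 m1 with m | m
        · have := hb _ m; omega
        · exact m
      have m4 : y ∈ Q := by
        rcases mem_union.1 m2 with m | m
        · have := hb _ m; omega
        · exact m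
      have m5 : ({y + 1, y} : Finset ℕ) ⊆ Q := by
        intro z hz
        rw [mem_insert, mem_singleton] at hz
        rcases hz with rfl | rfl
        · exact m3
        · exact m4
      have m6 := sum_le_sum_of_subset (f := fun e => e) m5
      rw [sum_pair' (by omega)] at m6
      omega
    intro p hp
    simp only [List.mem_cons, List.not_mem_nil, or_false] at hp
    rcases hp with rfl | rfl
    · exact ⟨by simp only [hA.s1]; omega, le_rfl, fun j hj => by have := b1 j hj; omega,
        fun Q hQ hQs => key J1 hA.i1 b1 Q hQ hQs.le⟩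
    · exact ⟨by simp only [hA.s2]; omega, by simp, fun j hj => by have := b2 j hj; omega,
        fun Q hQ hQs => key J2 hA.i2 b2 Q hQ (by simp only at hQs; omega)⟩

end ACtx

end Pool.Agent.H38.DO
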