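import Pool.Agent.H38.DO.Alpha3

/-! The first pair consists of consecutive numbers: the case `N = M + c`, conclusion. -/

open Finset

namespace Pool.Agent.H38.DO

open Pool.Agent.H38.DP

namespace ACtx

variable {M N y : ℕ} {gb : ℕ → ℕ} {E X : ℕ → Prop} {W : Finset ℕ → Prop}
  (h : ACtx M N 0 y gb E X W) (c : ℕ) (hX : ∀ e, X e ↔ e = c) (hc1 : 1 ≤ c) (hcy : c + 1 ≤ y)
  (hNM : N = M + c)
include h hX hc1 hcy hNM

lemma a1_gb {x : ℕ} (hx : x % M ≠ N % M) : gb x ≤ M := by
  have hNy := h.hNy
  have hy := h.hy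
  have hM := h.hM
  obtain ⟨z0, hz0, hz0'⟩ : ∃ z0, (z0 = 1 ∨ z0 = 2) ∧ z0 ≠ c := by
    by_cases hc : c = 1
    · exact ⟨2, Or.inr rfl, by omega⟩
    · exact ⟨1, Or.inl rfl, by omega⟩
  obtain ⟨u, hu1, hu2, hu3⟩ := rep (M := M) (by omega) x (z0 + 1)
  have huc : u ≠ c := by
    rintro rfl
    apply hx
    rw [hu3, hNM, Nat.add_mod_left]
  have := h.pair_ok (x := u) (z := z0) (by omega) (by omega) (by omega)
    (fun hh => huc ((hX u).1 hh)) (fun hh => hz0' ((hX z0).1 hh)) (by omega) (by omega)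
  rw [gb_mod h.per hu3]
  omega

lemma a1_K {x : ℕ} (hx : x % M = N % M) (h0 : 0 < x) (hXx : ¬ X x) : N ≤ x := by
  by_contra hlt
  push Not at hlt
  have hNy := h.hNy
  have hM := h.hM
  have h3 : M ∣ N - x := (Nat.modEq_iff_dvd' hlt.le).1 hx
  obtain ⟨k, hk⟩ := h3
  apply hXx
  rw [hX]
  rcases k with _ | _ | k
  · rw [mul_zero] at hk; omega
  · rw [zero_add, mul_one] at hk; omega
  · have : M * 2 ≤ M * (k + 1 + 1) := Nat.mul_le_mul_left _ (by omega)
    omega

lemma a1_big : ∀ J, It W gb E (y + 1) y J → ∑ e ∈ J, e ≤ 3 * y + 2 →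
    ∀ j ∈ J, 3 < j ∧ ∀ e, X e → e < j := by
  have hNy := h.hNy
  have hy := h.hy
  have hM := h.hM
  intro J hJ hs j hj
  have hge := h.NB_ge hJ.NB
  have hXj : ∀ e, X e → e ≤ c := fun e he => ((hX e).1 he).le
  suffices h1 : 3 < j ∧ c < j from ⟨h1.1, fun e he => lt_of_le_of_lt (hXj e he) h1.2⟩
  rcases hJ.1 with ⟨e, he, rfl⟩ | ⟨x, z, hzx, hx, hz, hlt, rfl⟩
  · rw [mem_singleton] at hj
    rw [sum_singleton] at hge
    omega
  · rw [sum_pair' hzx] at hge hs
    have hWx := h.Wpos _ hJ.2.1 x (by simp)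
    have hz3 : 3 < z ∧ c < z := by
      by_cases hxm : x % M = N % M
      · have h1 := h.a1_K c hX hc1 hcy hNM hxm hWx.1 hWx.2
        have h2 : x = N := Ctx.Kc_one (M := M) (by omega) ⟨h1, hxm⟩ (by omega)
        omega
      · have h1 := h.a1_gb c hX hc1 hcy hNM hxm
        omega
    rw [mem_insert, mem_singleton] at hj
    omega

/-- a third item with sum `N + M` -/
lemma a1_J3 {J1 J2 : Finset ℕ} (hA : AJ y W gb E J1 J2) {s : ℕ} (hs : 2 ≤ s) (hsy : s < y)
    (hsM : 3 * y + 1 + s = N + M) (b1 : ∀ j ∈ J1, y + 1 ≤ j) (b2 : ∀ j ∈ J2, y + 1 ≤ j) :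
    ∃ J3, It W gb E (y + 1) y J3 ∧ ∑ e ∈ J3, e = N + M := by
  have hNy := h.hNy
  have hy := h.hy
  have hM := h.hM
  have hlb := h.NR_lb2 (s := s) (t := 0) (by omega) hsy (by omega)
  have htr := h.trans (n := 3 * y + 1 + s) (by omega)
  have hq0 := h.toCtx.q_zero
  obtain ⟨J3, i3, s3, _⟩ := h.toCtx.new_item (x0 := y + 1) (y0 := y) (n := 3 * y + 1 + s)
    [(J1, s), (J2, s - 1)] (fun J hJ hlt => by
      have h5 := h.NB_ge hJ.NB
      by_cases h6 : ∑ e ∈ J, e = 3 * y + 1
      · exact ⟨(J1, s), by simp, by rw [hA.u1 J hJ h6]⟩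
      · by_cases h7 : ∑ e ∈ J, e = 3 * y + 2
        · exact ⟨(J2, s - 1), by simp, by rw [hA.u2 J hJ h7]⟩
        · exfalso
          obtain ⟨s', hs'⟩ : ∃ s', ∑ e ∈ J, e = 3 * y + 1 + s' :=
            ⟨∑ e ∈ J, e - (3 * y + 1), by omega⟩
          exact h.sat_It hA (s := s') (by omega) (by omega) (by omega)
            (fun j hj => by have := b1 j hj; omega) (fun j hj => by have := b2 j hj; omega)
            hJ hs')
    (by simp [hA.s1, hA.s2]; omega)
    (by simp only [List.map_cons, List.map_nil, List.sum_cons, List.sum_nil]; omega)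
  exact ⟨J3, i3, by omega⟩

lemma a1_b3 {J3 : Finset ℕ} (i3 : It W gb E (y + 1) y J3) (s3 : ∑ e ∈ J3, e = N + M) :
    ∀ j ∈ J3, y + 1 ≤ j := by
  have hNy := h.hNy
  have hy := h.hy
  have hM := h.hM
  intro j hj
  rcases i3.1 with ⟨e, he, rfl⟩ | ⟨x, z, hzx, hx, hz, hlt, rfl⟩
  · rw [mem_singleton] at hj
    rw [sum_singleton] at s3
    omega
  · rw [sum_pair' hzx] at s3
    have hWx := h.Wpos _ i3.2.1 x (by simp)
    have hWz := h.Wpos _ i3.2.1 z (by simp)
    have hz3 : y + 1 ≤ z := by
      by_cases hxm : x % M = N % M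
      · have h1 := h.a1_K c hX hc1 hcy hNM hxm hWx.1 hWx.2
        have h2 : x = N := Ctx.Kc_one (M := M) (by omega) ⟨h1, hxm⟩ (by omega)
        omega
      · have h1 := h.a1_gb c hX hc1 hcy hNM hxm
        omega
    rw [mem_insert, mem_singleton] at hj
    omega

/-- the case of a small class `c` -/
lemma a1_small (hcy2 : c + 2 ≤ y) : False := by
  have hNy := h.hNy
  have hy := h.hy
  have hM := h.hM
  have hbig := h.a1_big c hX hc1 hcy hNM
  obtain ⟨J1, J2, hA⟩ := h.AJ_exists (fun J hJ hs j hj => (hbig J hJ hs j hj).1)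
  obtain ⟨b1, b2⟩ := h.AJ_big hA (by omega) hbig
  by_cases hc : c = 1
  · exact h.final2N hA b1 b2 (by omega) ((hX 1).2 hc.symm)
  · obtain ⟨J3, i3, s3⟩ := h.a1_J3 c hX hc1 hcy hNM hA (s := y + 1 - c) (by omega) (by omega)
      (by omega) (fun j hj => by have := b1 j hj; omega)
      (fun j hj => by have := b2 j hj; omega)
    exact h.final3 hA b1 (fun j hj => by have := b2 j hj; omega) i3 s3
      (h.a1_b3 c hX hc1 hcy hNM i3 s3) (t := c - 1) (by omega)

/-- gaps are at most 3 if `M = c + 3` -/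
lemma a1_gb3 (hcy2 : c + 1 = y) {x : ℕ} (hx : x % M ≠ N % M) : gb x ≤ 3 := by
  have hNy := h.hNy
  have hy := h.hy
  have hM := h.hM
  obtain ⟨u, hu1, hu2, hu3⟩ := rep (M := M) (by omega) x 4
  have huc : u ≠ c := by
    rintro rfl
    apply hx
    rw [hu3, hNM, Nat.add_mod_left]
  have hXu : ¬ X u := fun hh => huc ((hX u).1 hh)
  rw [gb_mod h.per hu3]
  have key : ∀ z, z < u → u ≤ z + 3 → z ≠ c → ¬ (u = y + 1 ∧ z = y) → gb u ≤ 3 := by
    intro z h1 h2 h3 h4
    have := h.pair_ok (x := u) (z := z) h1 (by omega) (by omega) hXu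
      (fun hh => h3 ((hX z).1 hh)) (by omega) h4
    omega
  by_cases h1 : u = y + 1
  · exact key (y - 2) (by omega) (by omega) (by omega) (by omega)
  · by_cases h2 : u = y
    · exact key (y - 2) (by omega) (by omega) (by omega) (by omega)
    · exact key (u - 1) (by omega) (by omega) (by omega) (by omega)

/-- the case `M = c + 3` -/
lemma a1_large (hcy2 : c + 1 = y) : False := by
  have hNy := h.hNy
  have hy := h.hy
  have hM := h.hM
  have hbig := h.a1_big c hX hc1 hcy hNM
  obtain ⟨J1, J2, hA⟩ := h.AJ_exists (fun J hJ hs j hj => (hbig J hJ hs j hj).1)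
  have hNX := h.XN'
  -- the pair `{N, y}` is excluded
  have hno : ¬ It W gb E (y + 1) y {N, y} := by
    intro hN
    have hgN : N < y + gb N := by
      rcases hN.1 with ⟨e, he, heq⟩ | ⟨x', y', hyx', hx', hy', hlt', heq⟩
      · exfalso
        have m1 : N ∈ ({e} : Finset ℕ) := by rw [← heq]; simp
        have m2 : y ∈ ({e} : Finset ℕ) := by rw [← heq]; simp
        rw [mem_singleton] at m1 m2
        omega
      · have m1 : N ∈ ({x', y'} : Finset ℕ) := by rw [← heq]; simp
        have m2 : y ∈ ({x', y'} : Finset ℕ) := by rw [← heq]; simp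
        rw [mem_insert, mem_singleton] at m1 m2
        have h4 : N = x' ∧ y = y' := by omega
        rw [h4.1, h4.2]
        exact hlt'
    have hub := h.NR_ub2 (s := 3) (t := 1) (by omega) (by omega) (by omega)
    have htr := h.trans (n := 3 * y + 1 + 3) (by omega)
    have hq0 := h.toCtx.q_zero
    have fam1 : ∀ k, k ≤ 3 → ∀ Q, W Q → ∑ e ∈ Q, e = 3 - k →
        NB W gb E (y + 1) y ({N, y + k} ∪ Q) := by
      intro k hk Q hQ hQs
      refine h.toCtx.NB_of ?_ (pair_bad (x := N) (y := y + k) (by omega) (by omega)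
        (by simp) (by simp)) hQ ?_ (by omega) (by omega)
      · intro j hj
        rw [mem_insert, mem_singleton] at hj
        rcases hj with rfl | rfl
        · exact ⟨by omega, hNX⟩
        · exact ⟨by omega, fun hh => by have := (hX _).1 hh; omega⟩
      · rintro ⟨m1, m2⟩
        rw [mem_insert, mem_singleton] at m1 m2
        omega
    have hlb := LB (W := W) (P := NB W gb E (y + 1) y) (3 * y + 1 + 3) 3
      [({N, y + 0}, 3), ({N, y + 1}, 2), ({N, y + 2}, 1), ({N, y + 3}, 0)] (by simp) ?_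
    · simp only [List.map_cons, List.map_nil, List.sum_cons, List.sum_nil] at hlb
      simp only [show (3 : ℕ) - 1 = 2 from rfl] at hub
      omega
    · intro p hp
      simp only [List.mem_cons, List.not_mem_nil, or_false] at hp
      rcases hp with rfl | rfl | rfl | rfl
      · refine ⟨by simp only; rw [sum_pair' (by omega)]; omega, le_rfl, fun j hj => ?_,
          fam1 0 (by omega)⟩
        simp only [mem_insert, mem_singleton] at hj
        omega
      · refine ⟨by simp only; rw [sum_pair' (by omega)]; omega, by simp, fun j hj => ?_,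
          fam1 1 (by omega)⟩
        simp only [mem_insert, mem_singleton] at hj
        omega
      · refine ⟨by simp only; rw [sum_pair' (by omega)]; omega, by simp, fun j hj => ?_,
          fam1 2 (by omega)⟩
        simp only [mem_insert, mem_singleton] at hj
        omega
      · refine ⟨by simp only; rw [sum_pair' (by omega)]; omega, by simp, fun j hj => ?_,
          fam1 3 (by omega)⟩
        simp only [mem_insert, mem_singleton] at hj
        omega
  -- positions of the items
  have hpos : ∀ J, It W gb E (y + 1) y J → 3 * y + 1 ≤ ∑ e ∈ J, e → ∑ e ∈ J, e ≤ 3 * y + 3 →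
      (∑ e ∈ J, e = 3 * y + 1 → ∀ j ∈ J, y + 2 ≤ j) ∧
      (3 * y + 2 ≤ ∑ e ∈ J, e → ∀ j ∈ J, y + 1 ≤ j) := by
    intro J hJ h1 h2
    rcases hJ.1 with ⟨e, he, rfl⟩ | ⟨x, z, hzx, hx, hz, hlt, rfl⟩
    · rw [sum_singleton] at *
      constructor
      · intro h3 j hj
        rw [mem_singleton] at hj
        omega
      · intro h3 j hj
        rw [mem_singleton] at hj
        omega
    · rw [sum_pair' hzx] at *
      have hWx := h.Wpos _ hJ.2.1 x (by simp)
      by_cases hxm : x % M = N % M
      · have h3 := h.a1_K c hX hc1 hcy hNM hxm hWx.1 hWx.2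
        have h4 : x = N := by
          rcases Ctx.Kc_two (M := M) (by omega) ⟨h3, hxm⟩ (by omega) with h5 | h5
          · exact h5
          · have := h.Wpos _ hJ.2.1 z (by simp)
            omega
        subst h4
        constructor
        · intro h5 j hj
          exfalso
          apply hno
          have : z = y := by omega
          rw [this] at hJ
          exact hJ
        · intro h5 j hj
          rw [mem_insert, mem_singleton] at hj
          omega
      · have h3 := h.a1_gb3 c hX hc1 hcy hNM hcy2 hxm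
        constructor
        · intro h5 j hj
          rw [mem_insert, mem_singleton] at hj
          omega
        · intro h5 j hj
          rw [mem_insert, mem_singleton] at hj
          omega
  have b1 := (hpos J1 hA.i1 (by have := hA.s1; omega) (by have := hA.s1; omega)).1 hA.s1
  have b2 := (hpos J2 hA.i2 (by have := hA.s2; omega) (by have := hA.s2; omega)).2
    (by have := hA.s2; omega)
  obtain ⟨J3, i3, s3⟩ := h.a1_J3 c hX hc1 hcy hNM hA (s := 2) (by omega) (by omega)
    (by omega) (fun j hj => by have := b1 j hj; omega) b2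
  have b3 := (hpos J3 i3 (by omega) (by omega)).2 (by omega)
  exact h.final3 hA b1 b2 i3 s3 b3 (t := c - 1) (by omega)

theorem alpha1 : False := by
  rcases Nat.lt_or_ge (c + 1) y with h1 | h1
  · exact h.a1_small c hX hc1 hcy hNM (by omega)
  · exact h.a1_large c hX hc1 hcy hNM (by omega)

end ACtx

end Pool.Agent.H38.DO
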