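import Pool.Agent.H38.DO.AlphaZ

/-! The case `N = c`, first pair of consecutive numbers, the pair `(3 y - 1, 2)`. -/

open Finset

namespace Pool.Agent.H38.DO

open Pool.Agent.H38.DP

/-- lower bound by families and further sets -/
lemma LBG {W P : Finset ℕ → Prop} (n τ : ℕ) (L : List (Finset ℕ × ℕ))
    (hd : L.Pairwise (fun p p' => p.2 ≠ p'.2))
    (h : ∀ p ∈ L, ∑ e ∈ p.1, e + p.2 = n ∧ p.2 ≤ τ ∧ (∀ j ∈ p.1, τ < j) ∧
      ∀ Q, W Q → ∑ e ∈ Q, e = p.2 → P (p.1 ∪ Q))
    (G : Finset (Finset ℕ)) (hG : ∀ S ∈ G, P S ∧ ∑ e ∈ S, e = n ∧ ∀ p ∈ L, ¬ p.1 ⊆ S) :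
    (L.map (fun p => cnt W p.2)).sum + G.card ≤ cnt P n := by
  classical
  obtain ⟨F, hF1, hF2, hF3⟩ := LBaux n τ L hd h
  have hdisj : Disjoint F G := by
    rw [disjoint_left]
    intro S hS hS'
    obtain ⟨p, hp, h1, _⟩ := hF3 S hS
    exact (hG S hS').2.2 p hp h1
  rw [← hF2, cnt_eq, ← card_union_of_disjoint hdisj]
  apply card_le_card
  intro T hT
  rcases mem_union.1 hT with hT | hT
  · exact hF1 hT
  · exact mem_fam.2 ⟨(hG T hT).1, (hG T hT).2.1⟩

/-- the numbers of partitions into distinct parts -/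
lemma D_val {M N : ℕ} {gb : ℕ → ℕ} {E X : ℕ → Prop} {W : Finset ℕ → Prop}
    (h : Ctx M N 0 gb E X W) (hX : ∀ e, ¬ X e) {k : ℕ} (hk : k ≤ 15) :
    cnt W k = (tab (fun _ => true) 15 15).getD k 0 := by
  rw [tab_getD _ _ _ _ hk, cT_eq_cnt _ _ _ _ hk]
  apply cnt_congr'
  intro S _
  constructor
  · intro h1
    exact ⟨fun e he => ⟨(h.Wpos S h1 e he).1, rfl⟩, fun x _ y _ hxy => hxy⟩
  · intro h1
    exact h.W_of hX (fun e he => (h1.1 e he).1)

lemma tab_vals : (tab (fun _ => true) 15 15) =
    [1, 1, 1, 2, 2, 3, 4, 5, 6, 8, 10, 12, 15, 18, 22, 27] := by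
  decide +kernel

namespace ACtx

variable {M N y : ℕ} {gb : ℕ → ℕ} {E X : ℕ → Prop} {W : Finset ℕ → Prop}
  (h : ACtx M N 0 y gb E X W) (hX : ∀ e, ¬ X e) (hb : 3 * y - 2 ≤ gb (3 * y - 1))
include h hX hb

/-- the modulus is large -/
lemma vM : 3 * y - 2 ≤ M := by
  by_contra hcon
  have hy := h.hy
  have hM := h.hM
  obtain ⟨u, hu1, hu2, hu3⟩ := rep (M := M) (by omega) (3 * y - 1) 2
  have := h.pair_ok (x := u) (z := 1) (by omega) (by omega) (by omega) (hX u) (hX 1)
    (by omega) (by omega)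
  rw [gb_mod h.per hu3] at hb
  omega

variable (hy14 : 14 ≤ y)
include hy14

lemma v1 {t : ℕ} (ht2 : 2 ≤ t) (ht : t ≤ 15) : ∀ Q, W Q → ∑ e ∈ Q, e = t →
    NB W gb E (y + 1) y ({3 * y - 1} ∪ Q) := by
  intro Q hQ hQt
  obtain ⟨z, hz, hz2⟩ : ∃ z ∈ Q, 2 ≤ z := by
    by_contra hcon
    push Not at hcon
    have h1 : Q ⊆ {1} := by
      intro x hx
      rw [mem_singleton]
      have := hcon x hx
      have := (h.Wpos Q hQ x hx).1
      omega
    have h2 := sum_le_sum_of_subset (f := fun e => e) h1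
    rw [sum_singleton] at h2
    omega
  have hzt := le_sum_of_mem hz
  refine h.nb_pair hX (x := 3 * y - 1) (z := z) ?_ (by simp) (mem_union_right _ hz) (by omega)
    (by omega) ?_
  · intro e he
    rcases mem_union.1 he with he | he
    · rw [mem_singleton] at he
      omega
    · exact (h.Wpos Q hQ e he).1
  · rintro ⟨m1, m2⟩
    rw [mem_union, mem_singleton] at m1 m2
    have m3 : y + 1 ∈ Q := by
      rcases m1 with m1 | m1
      · omega
      · exact m1
    have := le_sum_of_mem m3
    have m4 : y ∈ Q := by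
      rcases m2 with m2 | m2
      · omega
      · exact m2
    have m5 : ({y + 1, y} : Finset ℕ) ⊆ Q := by
      intro t ht
      rw [mem_insert, mem_singleton] at ht
      rcases ht with rfl | rfl
      · exact m3
      · exact m4
    have m6 := sum_le_sum_of_subset (f := fun e => e) m5
    rw [sum_pair' (by omega)] at m6
    omega

/-- the number of new sets -/
lemma vub {s : ℕ} (hs1 : 1 ≤ s) (hs : s ≤ 13) :
    cnt (NB W gb E (y + 1) y) (3 * y + 1 + s) = cnt W s + cnt W (s - 1) := by
  have hM := h.vM hX hb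
  have hNy := h.hNy
  have h1 := h.NR_ub1 (s := s) hs1 (by omega)
  have h2 := h.NR_lb1 (s := s) hs1 (by omega)
  have h3 := h.trans (n := 3 * y + 1 + s) (by omega)
  omega

lemma vnum : cnt W 0 = 1 ∧ cnt W 1 = 1 ∧ cnt W 2 = 1 ∧ cnt W 3 = 2 ∧ cnt W 4 = 2 ∧
    cnt W 5 = 3 ∧ cnt W 6 = 4 ∧ cnt W 7 = 5 ∧ cnt W 8 = 6 ∧ cnt W 9 = 8 ∧ cnt W 10 = 10 ∧
    cnt W 11 = 12 ∧ cnt W 12 = 15 ∧ cnt W 13 = 18 ∧ cnt W 14 = 22 ∧ cnt W 15 = 27 := by
  have key : ∀ k, k ≤ 15 → cnt W k =
      [1, 1, 1, 2, 2, 3, 4, 5, 6, 8, 10, 12, 15, 18, 22, 27].getD k 0 := by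
    intro k hk
    rw [← tab_vals]
    exact D_val h.toCtx hX hk
  refine ⟨?_, ?_, ?_, ?_, ?_, ?_, ?_, ?_, ?_, ?_, ?_, ?_, ?_, ?_, ?_, ?_⟩ <;>
    exact key _ (by norm_num)

/-- the first new sets -/
lemma vsat1 {s : ℕ} (hs : s ≤ 5) {S : Finset ℕ} (hS : NB W gb E (y + 1) y S)
    (hsum : ∑ e ∈ S, e = 3 * y + 1 + s) : 3 * y - 1 ∈ S := by
  have hNy := h.hNy
  obtain ⟨d0, d1, d2, d3, d4, d5, d6, d7, d8, -⟩ := h.vnum hX hb hy14
  have key := h.toCtx.no_more (x0 := y + 1) (y0 := y) (n := 3 * y + 1 + s) (t := s + 2)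
    [({3 * y - 1}, s + 2)] (by simp) ?_ ?_ hS hsum
  · obtain ⟨p, hp, hpS⟩ := key
    simp only [List.mem_cons, List.not_mem_nil, or_false] at hp
    subst hp
    exact singleton_subset_iff.1 hpS
  · intro p hp
    simp only [List.mem_cons, List.not_mem_nil, or_false] at hp
    subst hp
    refine ⟨by simp only [sum_singleton]; omega, le_rfl, fun j hj => ?_,
      h.v1 hX hb hy14 (by simp only; omega) (by simp only; omega)⟩
    simp only [mem_singleton] at hj
    omega
  · simp only [List.map_cons, List.map_nil, List.sum_cons, List.sum_nil]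
    rcases Nat.eq_zero_or_pos s with rfl | h0
    · have h1 := h.trans (n := 3 * y + 1) (by omega)
      have h2 := h.NR_zero
      simp only [add_zero, zero_add]
      omega
    · have h1 := h.vub hX hb hy14 h0 (by omega)
      rw [h1]
      have h2 : s = 1 ∨ s = 2 ∨ s = 3 ∨ s = 4 ∨ s = 5 := by omega
      rcases h2 with rfl | rfl | rfl | rfl | rfl <;> simp only [Nat.reduceAdd, Nat.reduceSub] <;>
        omega

/-- the shape of a new item -/
lemma vshape {J : Finset ℕ} {s : ℕ} (hs : s = 6 ∨ s = 10) (L : ℕ → List (Finset ℕ × ℕ))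
    (hJ : It W gb E (y + 1) y J) (hsum : ∑ e ∈ J, e = 3 * y + 1 + s)
    (hd : ∀ k, 1 ≤ k → k ≤ 2 → (L k).Pairwise (fun p p' => p.2 ≠ p'.2))
    (hL : ∀ k, 1 ≤ k → k ≤ 2 → ∀ p ∈ L k, ∑ e ∈ p.1, e + p.2 = 3 * y + 1 + (s + k) ∧
      p.2 ≤ 15 ∧ (∀ j ∈ p.1, 15 < j) ∧
      ∀ Q, W Q → ∑ e ∈ Q, e = p.2 → NB W gb E (y + 1) y (p.1 ∪ Q))
    (hc1 : cnt W (s + 1) + cnt W s ≤ ((L 1).map (fun p => cnt W p.2)).sum + 1)
    (hc2 : cnt W (s + 2) + cnt W (s + 1) ≤ ((L 2).map (fun p => cnt W p.2)).sum + 1)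
    (hn1 : ∀ p ∈ L 1, ¬ p.1 ⊆ J)
    (hn2 : ∀ x z, J = {x, z} → z < x → E x → ∀ p ∈ L 1, ¬ p.1 ⊆ {x, z + 1})
    (hn3 : ∀ x, J = {x, 1} → ∀ p ∈ L 2, ¬ p.1 ⊆ {x, 3} ∧ ¬ p.1 ⊆ {x, 2, 1}) :
    ∀ j ∈ J, 15 < j := by
  classical
  have hy := h.hy
  rcases item_form hJ.1 with ⟨h1, h2⟩ | ⟨x, z, hzx, hEx, hEz, hlt, hJe, hs'⟩
  · rw [hsum] at h1
    intro j hj
    rw [h1, mem_singleton] at hj
    omega
  · have hz := (h.Wpos J hJ.2.1 z (by rw [hJe]; simp)).1
    have hpos : ∀ e ∈ J, 0 < e := fun e he => (h.Wpos J hJ.2.1 e he).1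
    by_cases h3 : x = z + 1
    · intro j hj
      rw [hJe, mem_insert, mem_singleton] at hj
      omega
    · exfalso
      by_cases h4 : z = 1
      · subst h4
        have h5 := h.vub hX hb hy14 (s := s + 2) (by omega) (by omega)
        have h6 := LBG (W := W) (P := NB W gb E (y + 1) y) (3 * y + 1 + (s + 2)) 15 (L 2)
          (hd 2 (by norm_num) le_rfl) (hL 2 (by norm_num) le_rfl) {{x, 3}, {x, 2, 1}} ?_
        · rw [card_pair (ne_of 3 (by simp) (by simp only [mem_insert, mem_singleton]; omega))]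
            at h6
          simp only [Nat.add_succ_sub_one] at h5
          omega
        · intro S hS
          rw [mem_insert, mem_singleton] at hS
          rcases hS with rfl | rfl
          · refine ⟨h.nb_pair hX (x := x) (z := 3) ?_ (by simp) (by simp) (by omega)
              (by omega) ?_, ?_, fun p hp => (hn3 x hJe p hp).1⟩
            · intro e he
              rw [mem_insert, mem_singleton] at he
              omega
            · simp only [mem_insert, mem_singleton]
              omega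
            · rw [sum_pair' (by omega)]
              omega
          · refine ⟨h.nb_pair hX (x := x) (z := 2) ?_ (by simp) (by simp) (by omega)
              (by omega) ?_, ?_, fun p hp => (hn3 x hJe p hp).2⟩
            · intro e he
              simp only [mem_insert, mem_singleton] at he
              omega
            · simp only [mem_insert, mem_singleton]
              omega
            · rw [sum_insert (by simp only [mem_insert, mem_singleton]; omega),
                sum_pair' (by norm_num)]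
              omega
      · have h5 := h.vub hX hb hy14 (s := s + 1) (by omega) (by omega)
        have m1 : (1 : ℕ) ∉ J := by rw [hJe, mem_insert, mem_singleton]; omega
        have h6 := LBG (W := W) (P := NB W gb E (y + 1) y) (3 * y + 1 + (s + 1)) 15 (L 1)
          (hd 1 le_rfl (by norm_num)) (hL 1 le_rfl (by norm_num))
          {insert 1 J, {x, z + 1}} ?_
        · rw [card_pair (ne_of 1 (by simp) (by simp only [mem_insert, mem_singleton]; omega))]
            at h6
          simp only [Nat.add_sub_cancel] at h5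
          omega
        · intro S hS
          rw [mem_insert, mem_singleton] at hS
          rcases hS with rfl | rfl
          · refine ⟨h.nb_item hX hJ (subset_insert _ _) ?_ ?_, ?_, fun p hp hpS => ?_⟩
            · intro e he
              rcases mem_insert.1 he with rfl | he
              · norm_num
              · exact hpos e he
            · rw [mem_insert, mem_insert]
              rintro ⟨hh | hh, hh' | hh'⟩ <;> first | omega | exact hJ.2.2 ⟨hh, hh'⟩
            · rw [sum_insert m1, hsum]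
              omega
            · apply hn1 p hp
              intro t ht
              rcases mem_insert.1 (hpS ht) with rfl | h8
              · have := (hL 1 le_rfl (by norm_num) p hp).2.2.1 1 ht
                omega
              · exact h8
          · refine ⟨h.nb_pair hX (x := x) (z := z + 1) ?_ (by simp) (by simp) (by omega)
              (by omega) ?_, ?_, hn2 x z hJe hzx hEx⟩
            · intro e he
              rw [mem_insert, mem_singleton] at he
              omega
            · simp only [mem_insert, mem_singleton]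
              omega
            · rw [sum_pair' (by omega)]
              omega

end ACtx

end Pool.Agent.H38.DO
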