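import Pool.Agent.H38.DO.AlphaV

/-! The case `N = c`, first pair of consecutive numbers, the pair `(3 y - 1, 2)`:
conclusion for `y ≥ 14`. -/

open Finset

namespace Pool.Agent.H38.DO

open Pool.Agent.H38.DP

namespace ACtx

variable {M N y : ℕ} {gb : ℕ → ℕ} {E X : ℕ → Prop} {W : Finset ℕ → Prop}
  (h : ACtx M N 0 y gb E X W) (hX : ∀ e, ¬ X e) (hb : 3 * y - 2 ≤ gb (3 * y - 1))
  (hy14 : 14 ≤ y)
include h hX hb hy14

theorem alphaV : False := by
  classical
  have hNy := h.hNy
  obtain ⟨d0, d1, d2, d3, d4, d5, d6, d7, d8, d9, d10, d11, d12, d13, d14, d15⟩ :=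
    h.vnum hX hb hy14
  -- first item
  have n6 := h.vub hX hb hy14 (s := 6) (by norm_num) (by norm_num)
  simp only [Nat.reduceSub] at n6
  obtain ⟨J1, i1, s1, k1⟩ := h.toCtx.new_item (x0 := y + 1) (y0 := y) (n := 3 * y + 1 + 6)
    [({3 * y - 1}, 8)] (fun J hJ hlt => by
      have hge := h.NB_ge hJ.NB
      obtain ⟨s', hs'⟩ : ∃ s', ∑ e ∈ J, e = 3 * y + 1 + s' :=
        ⟨∑ e ∈ J, e - (3 * y + 1), by omega⟩
      exact ⟨({3 * y - 1}, 8), by simp, singleton_subset_iff.2
        (h.vsat1 hX hb hy14 (s := s') (by omega) hJ.NB hs')⟩)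
    (by simp; omega)
    (by simp only [List.map_cons, List.map_nil, List.sum_cons, List.sum_nil]; omega)
  have x1J : 3 * y - 1 ∉ J1 := fun hx => k1 ({3 * y - 1}, 8) (by simp)
    (singleton_subset_iff.2 hx)
  have b1 : ∀ j ∈ J1, 15 < j := by
    refine h.vshape hX hb hy14 (s := 6) (Or.inl rfl) (fun k => [({3 * y - 1}, 8 + k)]) i1 s1
      (fun k _ _ => by simp) (fun k hk1 hk2 p hp => ?_) ?_ ?_ (fun p hp hpJ => ?_)
      (fun x z hJe hzx hEx p hp hpJ => ?_) (fun x hJe p hp => ⟨fun hpJ => ?_, fun hpJ => ?_⟩)
    · simp only [List.mem_cons, List.not_mem_nil, or_false] at hp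
      subst hp
      refine ⟨by simp only [sum_singleton]; omega, by simp only; omega, fun j hj => ?_,
        h.v1 hX hb hy14 (by simp only; omega) (by simp only; omega)⟩
      simp only [mem_singleton] at hj
      omega
    · simp only [List.map_cons, List.map_nil, List.sum_cons, List.sum_nil, Nat.reduceAdd]
      omega
    · simp only [List.map_cons, List.map_nil, List.sum_cons, List.sum_nil, Nat.reduceAdd]
      omega
    · simp only [List.mem_cons, List.not_mem_nil, or_false] at hp
      subst hp
      exact x1J (singleton_subset_iff.1 hpJ)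
    · simp only [List.mem_cons, List.not_mem_nil, or_false] at hp
      subst hp
      have h1 := singleton_subset_iff.1 hpJ
      rw [hJe] at s1 x1J
      rw [sum_pair' hzx] at s1
      rw [mem_insert, mem_singleton] at h1 x1J
      omega
    · simp only [List.mem_cons, List.not_mem_nil, or_false] at hp
      subst hp
      have h1 := singleton_subset_iff.1 hpJ
      rw [hJe] at x1J
      rw [mem_insert, mem_singleton] at h1 x1J
      omega
    · simp only [List.mem_cons, List.not_mem_nil, or_false] at hp
      subst hp
      have h1 := singleton_subset_iff.1 hpJ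
      rw [hJe] at x1J
      simp only [mem_insert, mem_singleton] at h1 x1J
      omega
  have f1 : ∀ t, t < y → ∀ Q, W Q → ∑ e ∈ Q, e = t → NB W gb E (y + 1) y (J1 ∪ Q) :=
    fun t ht => h.It_fam i1 (fun j hj => by have := b1 j hj; omega) ht
  -- the sets in the next range
  have sat2 : ∀ s, 6 ≤ s → s ≤ 9 → ∀ S, NB W gb E (y + 1) y S → ∑ e ∈ S, e = 3 * y + 1 + s →
      3 * y - 1 ∈ S ∨ J1 ⊆ S := by
    intro s hs1 hs2 S hS hsum
    have key := h.toCtx.no_more (x0 := y + 1) (y0 := y) (n := 3 * y + 1 + s) (t := 15)
      [({3 * y - 1}, s + 2), (J1, s - 6)] (by simp; omega) ?_ ?_ hS hsum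
    · obtain ⟨p, hp, hpS⟩ := key
      simp only [List.mem_cons, List.not_mem_nil, or_false] at hp
      rcases hp with rfl | rfl
      · exact Or.inl (singleton_subset_iff.1 hpS)
      · exact Or.inr hpS
    · intro p hp
      simp only [List.mem_cons, List.not_mem_nil, or_false] at hp
      rcases hp with rfl | rfl
      · refine ⟨by simp only [sum_singleton]; omega, by simp only; omega, fun j hj => ?_,
          h.v1 hX hb hy14 (by simp only; omega) (by simp only; omega)⟩
        simp only [mem_singleton] at hj
        omega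
      · exact ⟨by simp only [s1]; omega, by simp only; omega, b1,
          f1 _ (by simp only; omega)⟩
    · simp only [List.map_cons, List.map_nil, List.sum_cons, List.sum_nil]
      have h1 := h.vub hX hb hy14 (s := s) (by omega) (by omega)
      rw [h1]
      have h2 : s = 6 ∨ s = 7 ∨ s = 8 ∨ s = 9 := by omega
      rcases h2 with rfl | rfl | rfl | rfl <;> simp only [Nat.reduceAdd, Nat.reduceSub] <;>
        omega
  -- second item
  have n10 := h.vub hX hb hy14 (s := 10) (by norm_num) (by norm_num)
  simp only [Nat.reduceSub] at n10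
  obtain ⟨J2, i2, s2, k2⟩ := h.toCtx.new_item (x0 := y + 1) (y0 := y) (n := 3 * y + 1 + 10)
    [({3 * y - 1}, 12), (J1, 4)] (fun J hJ hlt => by
      have hge := h.NB_ge hJ.NB
      obtain ⟨s', hs'⟩ : ∃ s', ∑ e ∈ J, e = 3 * y + 1 + s' :=
        ⟨∑ e ∈ J, e - (3 * y + 1), by omega⟩
      rcases Nat.lt_or_ge s' 6 with h1 | h1
      · exact ⟨({3 * y - 1}, 12), by simp, singleton_subset_iff.2
          (h.vsat1 hX hb hy14 (s := s') (by omega) hJ.NB hs')⟩
      · rcases sat2 s' h1 (by omega) J hJ.NB hs' with h2 | h2
        · exact ⟨({3 * y - 1}, 12), by simp, singleton_subset_iff.2 h2⟩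
        · exact ⟨(J1, 4), by simp, h2⟩)
    (by simp [s1]; omega)
    (by simp only [List.map_cons, List.map_nil, List.sum_cons, List.sum_nil]; omega)
  have x2J : 3 * y - 1 ∉ J2 := fun hx => k2 ({3 * y - 1}, 12) (by simp)
    (singleton_subset_iff.2 hx)
  have k2' : ¬ J1 ⊆ J2 := k2 (J1, 4) (by simp)
  have b2 : ∀ j ∈ J2, 15 < j := by
    refine h.vshape hX hb hy14 (s := 10) (Or.inr rfl)
      (fun k => [({3 * y - 1}, 12 + k), (J1, 4 + k)]) i2 s2
      (fun k _ _ => by simp) (fun k hk1 hk2 p hp => ?_) ?_ ?_ (fun p hp hpJ => ?_)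
      (fun x z hJe hzx hEx p hp hpJ => ?_) (fun x hJe p hp => ⟨fun hpJ => ?_, fun hpJ => ?_⟩)
    · simp only [List.mem_cons, List.not_mem_nil, or_false] at hp
      rcases hp with rfl | rfl
      · refine ⟨by simp only [sum_singleton]; omega, by simp only; omega, fun j hj => ?_,
          h.v1 hX hb hy14 (by simp only; omega) (by simp only; omega)⟩
        simp only [mem_singleton] at hj
        omega
      · exact ⟨by simp only [s1]; omega, by simp only; omega, b1,
          f1 _ (by simp only; omega)⟩
    · simp only [List.map_cons, List.map_nil, List.sum_cons, List.sum_nil, Nat.reduceAdd]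
      omega
    · simp only [List.map_cons, List.map_nil, List.sum_cons, List.sum_nil, Nat.reduceAdd]
      omega
    · simp only [List.mem_cons, List.not_mem_nil, or_false] at hp
      rcases hp with rfl | rfl
      · exact x2J (singleton_subset_iff.1 hpJ)
      · exact k2' hpJ
    · rw [hJe] at s2 x2J
      rw [sum_pair' hzx] at s2
      simp only [List.mem_cons, List.not_mem_nil, or_false] at hp
      rcases hp with rfl | rfl
      · have h1 := singleton_subset_iff.1 hpJ
        rw [mem_insert, mem_singleton] at h1 x2J
        omega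
      · simp only at hpJ
        rcases item_form i1.1 with ⟨h1, h2⟩ | ⟨a, c, hca, _, _, _, h1, h2⟩
        · rw [s1] at h1 h2
          have h3 := hpJ (show 3 * y + 1 + 6 ∈ J1 by rw [h1]; simp)
          rw [mem_insert, mem_singleton] at h3
          rcases h3 with h3 | h3
          · rw [h3] at h2
            exact h2 hEx
          · omega
        · have h3 := hpJ (show a ∈ J1 by rw [h1]; simp)
          have h4 := hpJ (show c ∈ J1 by rw [h1]; simp)
          rw [mem_insert, mem_singleton] at h3 h4
          omega
    · have hx1 : 1 < x := by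
        have h5 : x ≠ 1 := by
          rintro rfl
          rw [hJe] at s2
          simp at s2
        have := (h.Wpos J2 i2.2.1 x (by rw [hJe]; simp)).1
        omega
      have s2' := s2
      rw [hJe] at s2' x2J
      rw [sum_pair' hx1] at s2'
      simp only [List.mem_cons, List.not_mem_nil, or_false] at hp
      rcases hp with rfl | rfl
      · have h1 := singleton_subset_iff.1 hpJ
        rw [mem_insert, mem_singleton] at h1 x2J
        omega
      · simp only at hpJ
        rcases item_form i1.1 with ⟨h1, h2⟩ | ⟨a, c, hca, _, _, _, h1, h2⟩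
        · rw [s1] at h1 h2
          have h3 := hpJ (show 3 * y + 1 + 6 ∈ J1 by rw [h1]; simp)
          rw [mem_insert, mem_singleton] at h3
          omega
        · have h3 := hpJ (show a ∈ J1 by rw [h1]; simp)
          have h4 := hpJ (show c ∈ J1 by rw [h1]; simp)
          have h5 := b1 a (by rw [h1]; simp)
          have h6 := b1 c (by rw [h1]; simp)
          rw [mem_insert, mem_singleton] at h3 h4
          omega
    · have hx1 : 1 < x := by
        have h5 : x ≠ 1 := by
          rintro rfl
          rw [hJe] at s2
          simp at s2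
        have := (h.Wpos J2 i2.2.1 x (by rw [hJe]; simp)).1
        omega
      have s2' := s2
      rw [hJe] at s2' x2J
      rw [sum_pair' hx1] at s2'
      simp only [List.mem_cons, List.not_mem_nil, or_false] at hp
      rcases hp with rfl | rfl
      · have h1 := singleton_subset_iff.1 hpJ
        simp only [mem_insert, mem_singleton] at h1 x2J
        omega
      · simp only at hpJ
        rcases item_form i1.1 with ⟨h1, h2⟩ | ⟨a, c, hca, _, _, _, h1, h2⟩
        · rw [s1] at h1 h2
          have h3 := hpJ (show 3 * y + 1 + 6 ∈ J1 by rw [h1]; simp)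
          simp only [mem_insert, mem_singleton] at h3
          omega
        · have h3 := hpJ (show a ∈ J1 by rw [h1]; simp)
          have h4 := hpJ (show c ∈ J1 by rw [h1]; simp)
          have h5 := b1 a (by rw [h1]; simp)
          have h6 := b1 c (by rw [h1]; simp)
          simp only [mem_insert, mem_singleton] at h3 h4
          omega
  -- the contradiction
  have n13 := h.vub hX hb hy14 (s := 13) (by norm_num) (by norm_num)
  simp only [Nat.reduceSub] at n13
  have hlb := LB (W := W) (P := NB W gb E (y + 1) y) (3 * y + 1 + 13) 15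
    [({3 * y - 1}, 15), (J1, 7), (J2, 3)] (by simp) ?_
  · simp only [List.map_cons, List.map_nil, List.sum_cons, List.sum_nil] at hlb
    omega
  · intro p hp
    simp only [List.mem_cons, List.not_mem_nil, or_false] at hp
    rcases hp with rfl | rfl | rfl
    · refine ⟨by simp only [sum_singleton]; omega, by simp, fun j hj => ?_,
        h.v1 hX hb hy14 (by simp only; omega) (by simp only; omega)⟩
      simp only [mem_singleton] at hj
      omega
    · exact ⟨by simp only [s1], by simp, b1, f1 _ (by simp only; omega)⟩
    · exact ⟨by simp only [s2], by simp, b2,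
        h.It_fam i2 (fun j hj => by have := b2 j hj; omega) (by simp only; omega)⟩

end ACtx

end Pool.Agent.H38.DO
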