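import Pool.Agent.H38.DO.NonPer

/-! The case `N = c`, first pair of consecutive numbers. -/

open Finset

namespace Pool.Agent.H38.DO

open Pool.Agent.H38.DP

lemma three {P : Finset ℕ → Prop} {n : ℕ} {S1 S2 S3 : Finset ℕ} (h1 : P S1) (h2 : P S2)
    (h3 : P S3) (t1 : ∑ e ∈ S1, e = n) (t2 : ∑ e ∈ S2, e = n) (t3 : ∑ e ∈ S3, e = n)
    (d12 : S1 ≠ S2) (d13 : S1 ≠ S3) (d23 : S2 ≠ S3) : 3 ≤ cnt P n := by
  classical
  rw [cnt_eq, ← card_eq_three.2 ⟨S1, S2, S3, d12, d13, d23, rfl⟩]
  apply card_le_card
  intro T hT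
  rw [mem_insert, mem_insert, mem_singleton] at hT
  rcases hT with rfl | rfl | rfl
  · exact mem_fam.2 ⟨h1, t1⟩
  · exact mem_fam.2 ⟨h2, t2⟩
  · exact mem_fam.2 ⟨h3, t3⟩

lemma four {P : Finset ℕ → Prop} {n : ℕ} {S1 S2 S3 S4 : Finset ℕ} (h1 : P S1) (h2 : P S2)
    (h3 : P S3) (h4 : P S4) (t1 : ∑ e ∈ S1, e = n) (t2 : ∑ e ∈ S2, e = n)
    (t3 : ∑ e ∈ S3, e = n) (t4 : ∑ e ∈ S4, e = n)
    (d12 : S1 ≠ S2) (d13 : S1 ≠ S3) (d14 : S1 ≠ S4) (d23 : S2 ≠ S3) (d24 : S2 ≠ S4)
    (d34 : S3 ≠ S4) : 4 ≤ cnt P n := by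
  classical
  have hc : ({S1, S2, S3, S4} : Finset (Finset ℕ)).card = 4 := by
    rw [card_insert_of_notMem, card_eq_three.2 ⟨S2, S3, S4, d23, d24, d34, rfl⟩]
    rw [mem_insert, mem_insert, mem_singleton]
    rintro (h | h | h)
    · exact d12 h
    · exact d13 h
    · exact d14 h
  rw [cnt_eq, ← hc]
  apply card_le_card
  intro T hT
  rw [mem_insert, mem_insert, mem_insert, mem_singleton] at hT
  rcases hT with rfl | rfl | rfl | rfl
  · exact mem_fam.2 ⟨h1, t1⟩
  · exact mem_fam.2 ⟨h2, t2⟩
  · exact mem_fam.2 ⟨h3, t3⟩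
  · exact mem_fam.2 ⟨h4, t4⟩

lemma ne_of {S T : Finset ℕ} (x : ℕ) (h1 : x ∈ S) (h2 : x ∉ T) : S ≠ T :=
  fun h => h2 (h ▸ h1)

namespace ACtx

variable {M N y : ℕ} {gb : ℕ → ℕ} {E X : ℕ → Prop} {W : Finset ℕ → Prop}
  (h : ACtx M N 0 y gb E X W) (hX : ∀ e, ¬ X e)
include h hX

lemma nb_pair {S : Finset ℕ} (hpos : ∀ e ∈ S, 0 < e) {x z : ℕ} (hx : x ∈ S) (hz : z ∈ S)
    (hzx : z < x) (hbad : x < z + gb x) (hn : ¬ (y + 1 ∈ S ∧ y ∈ S)) :
    NB W gb E (y + 1) y S :=
  ⟨h.toCtx.W_of hX hpos, pair_bad hzx hbad hx hz, hn⟩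

lemma nb_item {J S : Finset ℕ} (hJ : It W gb E (y + 1) y J) (hJS : J ⊆ S)
    (hpos : ∀ e ∈ S, 0 < e) (hn : ¬ (y + 1 ∈ S ∧ y ∈ S)) : NB W gb E (y + 1) y S :=
  ⟨h.toCtx.W_of hX hpos, item_bad hJ.1 hJS, hn⟩

/-- sets of sum three -/
lemma q_three : cnt W 3 = 2 := by
  classical
  rw [cnt_eq, card_eq_two]
  refine ⟨{3}, {2, 1}, by decide, ?_⟩
  ext S
  rw [mem_fam, mem_insert, mem_singleton]
  constructor
  · rintro ⟨h1, h2⟩
    by_cases h3 : 3 ∈ S
    · left
      symm
      apply eq_of_subset_sum (singleton_subset_iff.2 h3) (fun x hx => (h.Wpos S h1 x hx).1)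
      rw [sum_singleton, h2]
    · right
      have h7 : S ⊆ {2, 1} := by
        intro x hx
        have h8 := le_sum_of_mem hx
        have h9 := h.Wpos S h1 x hx
        have h10 : x ≠ 3 := fun h11 => h3 (h11 ▸ hx)
        rw [mem_insert, mem_singleton]
        omega
      apply eq_of_subset_sum h7 (by simp)
      rw [h2, sum_pair' (by norm_num)]
  · rintro (rfl | rfl)
    · exact ⟨h.toCtx.W_of hX (by simp), by simp⟩
    · exact ⟨h.toCtx.W_of hX (by simp), by simp⟩

/-- at most two new sets of sum `3 y + 3` -/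
lemma ub2 (hNM : 4 * y + 1 < N + M) : cnt (NB W gb E (y + 1) y) (3 * y + 3) ≤ 2 := by
  have hy := h.hy
  have hNy := h.hNy
  have h1 := h.NR_ub1 (s := 2) (by omega) (by omega)
  have h2 := h.trans (n := 3 * y + 1 + 2) (by omega)
  have h3 := h.toCtx.q_one (hX 1)
  have h4 := h.toCtx.q_two (hX 2)
  simp only [show (2 : ℕ) - 1 = 1 from rfl, show 3 * y + 1 + 2 = 3 * y + 3 by ring] at h1 h2
  omega

lemma ub3 (hNM : 4 * y + 1 < N + M) : cnt (NB W gb E (y + 1) y) (3 * y + 4) ≤ 3 := by
  have hy := h.hy
  have hNy := h.hNy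
  have h1 := h.NR_ub1 (s := 3) (by omega) (by omega)
  have h2 := h.trans (n := 3 * y + 1 + 3) (by omega)
  have h3 := h.q_three hX
  have h4 := h.toCtx.q_two (hX 2)
  simp only [show (3 : ℕ) - 1 = 2 from rfl, show 3 * y + 1 + 3 = 3 * y + 4 by ring] at h1 h2
  omega

/-- the first item does not contain `1` -/
lemma zA1 (hNM : 4 * y + 1 < N + M) (hbad : 3 * y < 1 + gb (3 * y))
    (u1 : ∀ J, It W gb E (y + 1) y J → ∑ e ∈ J, e = 3 * y + 1 → J = {3 * y, 1}) : False := by
  classical
  have hy := h.hy
  have hNy := h.hNy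
  have hq0 := h.toCtx.q_zero
  have hq1 := h.toCtx.q_one (hX 1)
  have hub := h.ub2 hX hNM
  have hlb := h.NR_lb1 (s := 1) le_rfl (by omega)
  have htr := h.trans (n := 3 * y + 1 + 1) (by omega)
  simp only [Nat.sub_self] at hlb
  obtain ⟨S, hS, hne⟩ := exists_mem_ne (s := fam (NB W gb E (y + 1) y) (3 * y + 1 + 1))
    (by rw [← cnt_eq]; omega) ({3 * y, 2} : Finset ℕ)
  obtain ⟨hNB, hsum⟩ := mem_fam.1 hS
  obtain ⟨J, hJS, hJ⟩ := h.toCtx.exists_It hNB
  have hge := h.NB_ge hJ.NB
  have hpos : ∀ e ∈ S, 0 < e := fun e he => (h.Wpos S hNB.1 e he).1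
  have hle := sum_le_sum_of_subset (f := fun e => e) hJS
  have hJs : ∑ e ∈ J, e = 3 * y + 2 := by
    by_contra hcon
    have h1 := u1 J hJ (by omega)
    have h2 := sum_sdiff (f := fun e => e) hJS
    have h3 : ∑ e ∈ S \ J, e = 1 := by omega
    have h4 : S \ J = ∅ := by
      rw [eq_empty_iff_forall_notMem]
      intro t ht
      have h5 := le_sum_of_mem ht
      have h6 := hpos t (mem_sdiff.1 ht).1
      have h7 := (mem_sdiff.1 ht).2
      rw [h1, mem_insert, mem_singleton] at h7
      omega
    rw [h4] at h3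
    simp at h3
  have hJe : J = S := eq_of_subset_sum hJS hpos (by omega)
  subst hJe
  obtain ⟨T, hT, hTs, hTn⟩ : ∃ T, NB W gb E (y + 1) y T ∧ ∑ e ∈ T, e = 3 * y + 3 ∧
      3 * y ∉ T := by
    rcases item_form hJ.1 with ⟨h1, h2⟩ | ⟨x, z, hzx, hEx, hEz, hlt, hJe, hs'⟩
    · rw [hJs] at h1
      have h3 : (1 : ℕ) ∉ J := by rw [h1, mem_singleton]; omega
      refine ⟨insert 1 J, h.nb_item hX hJ (subset_insert _ _) ?_ ?_, ?_, ?_⟩
      · intro e he
        rcases mem_insert.1 he with rfl | he
        · norm_num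
        · exact hpos e he
      · rw [h1, mem_insert, mem_insert, mem_singleton, mem_singleton]
        omega
      · rw [sum_insert h3, hJs]
        omega
      · rw [h1, mem_insert, mem_singleton]
        omega
    · have hz := hpos z (by rw [hJe]; simp)
      have hx3 : x ≠ 3 * y := by
        intro h4
        apply hne
        rw [hJe, h4, show z = 2 by omega]
      rcases Nat.lt_or_ge z 2 with h4 | h4
      · have h5 : z = 1 := by omega
        subst h5
        refine ⟨{x, 2}, h.nb_pair hX (x := x) (z := 2) ?_ (by simp) (by simp) (by omega)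
          (by omega) ?_, ?_, ?_⟩
        · intro e he
          rw [mem_insert, mem_singleton] at he
          omega
        · rw [mem_insert, mem_insert, mem_singleton, mem_singleton]
          omega
        · rw [sum_pair' (by omega)]
          omega
        · rw [mem_insert, mem_singleton]
          omega
      · have h3 : (1 : ℕ) ∉ J := by rw [hJe, mem_insert, mem_singleton]; omega
        refine ⟨insert 1 J, h.nb_item hX hJ (subset_insert _ _) ?_ ?_, ?_, ?_⟩
        · intro e he
          rcases mem_insert.1 he with rfl | he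
          · norm_num
          · exact hpos e he
        · rw [hJe]
          simp only [mem_insert, mem_singleton]
          omega
        · rw [sum_insert h3, hJs]
          omega
        · rw [hJe]
          simp only [mem_insert, mem_singleton]
          omega
  have key := three (P := NB W gb E (y + 1) y) (n := 3 * y + 3) (S1 := {3 * y, 3})
    (S2 := {3 * y, 2, 1}) (S3 := T)
    (h.nb_pair hX (x := 3 * y) (z := 3) (by simp; omega) (by simp) (by simp) (by omega)
      (by omega) (by simp only [mem_insert, mem_singleton]; omega))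
    (h.nb_pair hX (x := 3 * y) (z := 2) (by simp; omega) (by simp) (by simp) (by omega)
      (by omega) (by simp only [mem_insert, mem_singleton]; omega))
    hT (by rw [sum_pair' (by omega)])
    (by rw [sum_insert (by simp only [mem_insert, mem_singleton]; omega),
          sum_pair' (by norm_num)]) hTs
    (ne_of 3 (by simp) (by simp only [mem_insert, mem_singleton]; omega))
    (ne_of (3 * y) (by simp) hTn) (ne_of (3 * y) (by simp) hTn)
  omega

/-- the first item does not contain `3` -/
lemma zA3 (hNM : 4 * y + 1 < N + M) (hbad : 3 * y - 2 < 3 + gb (3 * y - 2)) : False := by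
  have hy := h.hy
  have hNy := h.hNy
  have hub := h.ub2 hX hNM
  have key := three (P := NB W gb E (y + 1) y) (n := 3 * y + 3) (S1 := {3 * y - 2, 5})
    (S2 := {3 * y - 2, 4, 1}) (S3 := {3 * y - 2, 3, 2})
    (h.nb_pair hX (x := 3 * y - 2) (z := 5) (by simp; omega) (by simp) (by simp) (by omega)
      (by omega) (by simp only [mem_insert, mem_singleton]; omega))
    (h.nb_pair hX (x := 3 * y - 2) (z := 4) (by simp; omega) (by simp) (by simp) (by omega)
      (by omega) (by simp only [mem_insert, mem_singleton]; omega))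
    (h.nb_pair hX (x := 3 * y - 2) (z := 3) (by simp; omega) (by simp) (by simp) (by omega)
      (by omega) (by simp only [mem_insert, mem_singleton]; omega))
    (by rw [sum_pair' (by omega)]; omega)
    (by rw [sum_insert (by simp only [mem_insert, mem_singleton]; omega),
          sum_pair' (by norm_num)]; omega)
    (by rw [sum_insert (by simp only [mem_insert, mem_singleton]; omega),
          sum_pair' (by norm_num)]; omega)
    (ne_of 5 (by simp) (by simp only [mem_insert, mem_singleton]; omega))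
    (ne_of 5 (by simp) (by simp only [mem_insert, mem_singleton]; omega))
    (ne_of 4 (by simp) (by simp only [mem_insert, mem_singleton]; omega))
  omega

/-- the second item does not contain `1` -/
lemma zB1 (hNM : 4 * y + 1 < N + M) (hbad : 3 * y + 1 < 1 + gb (3 * y + 1)) {J1 : Finset ℕ}
    (i1 : It W gb E (y + 1) y J1) (s1 : ∑ e ∈ J1, e = 3 * y + 1) (b1 : ∀ j ∈ J1, 3 < j)
    (n1 : 3 * y + 1 ∉ J1) : False := by
  classical
  have hy := h.hy
  have hNy := h.hNy
  have hub := h.ub3 hX hNM
  have m3 : 3 ∉ J1 := fun hh => by have := b1 3 hh; omega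
  have m2 : 2 ∉ J1 := fun hh => by have := b1 2 hh; omega
  have m1 : 1 ∉ J1 := fun hh => by have := b1 1 hh; omega
  have m21 : 2 ∉ insert 1 J1 := by rw [mem_insert]; rintro (hh | hh); · omega
                                   · exact m2 hh
  have hpos : ∀ e ∈ J1, 0 < e := fun e he => by have := b1 e he; omega
  have key := four (P := NB W gb E (y + 1) y) (n := 3 * y + 4) (S1 := {3 * y + 1, 3})
    (S2 := {3 * y + 1, 2, 1}) (S3 := insert 3 J1) (S4 := insert 2 (insert 1 J1))
    (h.nb_pair hX (x := 3 * y + 1) (z := 3) (by simp) (by simp) (by simp) (by omega)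
      (by omega) (by simp only [mem_insert, mem_singleton]; omega))
    (h.nb_pair hX (x := 3 * y + 1) (z := 2) (by simp) (by simp) (by simp) (by omega)
      (by omega) (by simp only [mem_insert, mem_singleton]; omega))
    (h.nb_item hX i1 (subset_insert _ _) (fun e he => by
      rcases mem_insert.1 he with rfl | he
      · norm_num
      · exact hpos e he) (by
      rw [mem_insert, mem_insert]
      rintro ⟨hh | hh, hh' | hh'⟩ <;> first | omega | exact i1.2.2 ⟨hh, hh'⟩))
    (h.nb_item hX i1 ((subset_insert _ _).trans (subset_insert _ _)) (fun e he => by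
      rcases mem_insert.1 he with rfl | he
      · norm_num
      · rcases mem_insert.1 he with rfl | he
        · norm_num
        · exact hpos e he) (by
      simp only [mem_insert]
      rintro ⟨hh | hh | hh, hh' | hh' | hh'⟩ <;> first | omega | exact i1.2.2 ⟨hh, hh'⟩))
    (by rw [sum_pair' (by omega)])
    (by rw [sum_insert (by simp only [mem_insert, mem_singleton]; omega),
          sum_pair' (by norm_num)])
    (by rw [sum_insert m3, s1]; omega) (by rw [sum_insert m21, sum_insert m1, s1]; omega)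
    (ne_of 3 (by simp) (by simp only [mem_insert, mem_singleton]; omega))
    (ne_of (3 * y + 1) (by simp) (by
      rw [mem_insert]; rintro (hh | hh)
      · omega
      · exact n1 hh))
    (ne_of (3 * y + 1) (by simp) (by
      simp only [mem_insert]; rintro (hh | hh | hh)
      · omega
      · omega
      · exact n1 hh))
    (ne_of (3 * y + 1) (by simp) (by
      rw [mem_insert]; rintro (hh | hh)
      · omega
      · exact n1 hh))
    (ne_of (3 * y + 1) (by simp) (by
      simp only [mem_insert]; rintro (hh | hh | hh)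
      · omega
      · omega
      · exact n1 hh))
    (ne_of 3 (by simp) (by
      simp only [mem_insert]; rintro (hh | hh | hh)
      · omega
      · omega
      · exact m3 hh))
  omega

/-- the second item does not contain `2` or `3` -/
lemma zB23 (hNM : 4 * y + 1 < N + M) {x z : ℕ} (hz2 : 2 ≤ z) (hz3 : z ≤ 3)
    (hxz : x + z = 3 * y + 2) (hbad : x < z + gb x) {J1 : Finset ℕ}
    (i1 : It W gb E (y + 1) y J1) (s1 : ∑ e ∈ J1, e = 3 * y + 1) (b1 : ∀ j ∈ J1, 3 < j)
    (n1 : x ∉ J1) : False := by
  classical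
  have hy := h.hy
  have hNy := h.hNy
  have hub := h.ub2 hX hNM
  have m2 : 2 ∉ J1 := fun hh => by have := b1 2 hh; omega
  have hpos : ∀ e ∈ J1, 0 < e := fun e he => by have := b1 e he; omega
  have key := three (P := NB W gb E (y + 1) y) (n := 3 * y + 3) (S1 := {x, z + 1})
    (S2 := {x, z, 1}) (S3 := insert 2 J1)
    (h.nb_pair hX (x := x) (z := z + 1) (by simp; omega) (by simp) (by simp) (by omega)
      (by omega) (by simp only [mem_insert, mem_singleton]; omega))
    (h.nb_pair hX (x := x) (z := z) (by simp; omega) (by simp) (by simp) (by omega)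
      (by omega) (by simp only [mem_insert, mem_singleton]; omega))
    (h.nb_item hX i1 (subset_insert _ _) (fun e he => by
      rcases mem_insert.1 he with rfl | he
      · norm_num
      · exact hpos e he) (by
      rw [mem_insert, mem_insert]
      rintro ⟨hh | hh, hh' | hh'⟩ <;> first | omega | exact i1.2.2 ⟨hh, hh'⟩))
    (by rw [sum_pair' (by omega)]; omega)
    (by rw [sum_insert (by simp only [mem_insert, mem_singleton]; omega),
          sum_pair' (by omega)]; omega)
    (by rw [sum_insert m2, s1]; omega)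
    (ne_of (z + 1) (by simp) (by simp only [mem_insert, mem_singleton]; omega))
    (ne_of x (by simp) (by
      rw [mem_insert]; rintro (hh | hh)
      · omega
      · exact n1 hh))
    (ne_of x (by simp) (by
      rw [mem_insert]; rintro (hh | hh)
      · omega
      · exact n1 hh))
  omega

/-- the main case -/
theorem alphaZ (hNM : 4 * y + 1 < N + M)
    (hiv : ¬ It W gb E (y + 1) y {3 * y - 1, 2}) : False := by
  have hy := h.hy
  have hNy := h.hNy
  obtain ⟨J1, i1, s1, u1⟩ := h.J1_exists
  have b1 : ∀ j ∈ J1, 3 < j := by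
    rcases item_form i1.1 with ⟨h1, h2⟩ | ⟨x, z, hzx, hEx, hEz, hlt, hJe, hs'⟩
    · rw [s1] at h1
      rw [h1]
      intro j hj
      rw [mem_singleton] at hj
      omega
    · have hz := (h.Wpos J1 i1.2.1 z (by rw [hJe]; simp)).1
      have hz4 : 3 < z := by
        by_contra hcon
        have h4 : z = 1 ∨ z = 2 ∨ z = 3 := by omega
        rcases h4 with rfl | rfl | rfl
        · have h5 : x = 3 * y := by omega
          subst h5
          exact h.zA1 hX hNM hlt (fun J hJ hs => by rw [u1 J hJ hs, hJe])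
        · have h5 : x = 3 * y - 1 := by omega
          subst h5
          rw [← hJe] at hiv
          exact hiv i1
        · have h5 : x = 3 * y - 2 := by omega
          subst h5
          exact h.zA3 hX hNM hlt
      intro j hj
      rw [hJe, mem_insert, mem_singleton] at hj
      omega
  have n1 : ∀ x, 3 * y - 1 ≤ x → (x = 3 * y + 1 → E x) → x ∉ J1 := by
    intro x hx hEx hxJ
    rcases item_form i1.1 with ⟨h1, h2⟩ | ⟨x', z, hzx, hEx', hEz, hlt, hJe, hs'⟩
    · rw [s1] at h1 h2
      rw [h1, mem_singleton] at hxJ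
      rw [← hxJ] at h2
      exact h2 (hEx hxJ)
    · have hz := b1 z (by rw [hJe]; simp)
      rw [hJe, mem_insert, mem_singleton] at hxJ
      omega
  have hbig : ∀ J, It W gb E (y + 1) y J → ∑ e ∈ J, e ≤ 3 * y + 2 →
      ∀ j ∈ J, 3 < j ∧ ∀ e, X e → e < j := by
    intro J hJ hs
    have hge := h.NB_ge hJ.NB
    suffices hh : ∀ j ∈ J, 3 < j from fun j hj => ⟨hh j hj, fun e he => absurd he (hX e)⟩
    by_cases hs1 : ∑ e ∈ J, e = 3 * y + 1
    · rw [u1 J hJ hs1]
      exact b1
    · have hs2 : ∑ e ∈ J, e = 3 * y + 2 := by omega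
      rcases item_form hJ.1 with ⟨h1, h2⟩ | ⟨x, z, hzx, hEx, hEz, hlt, hJe, hs'⟩
      · rw [hs2] at h1
        rw [h1]
        intro j hj
        rw [mem_singleton] at hj
        omega
      · have hz := (h.Wpos J hJ.2.1 z (by rw [hJe]; simp)).1
        have hz4 : 3 < z := by
          by_contra hcon
          by_cases h4 : z = 1
          · subst h4
            have h5 : x = 3 * y + 1 := by omega
            subst h5
            exact h.zB1 hX hNM hlt i1 s1 b1 (n1 _ (by omega) (fun _ => hEx))
          · exact h.zB23 hX hNM (x := x) (z := z) (by omega) (by omega) (by omega) hlt i1 s1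
              b1 (n1 _ (by omega) (fun _ => hEx))
        intro j hj
        rw [hJe, mem_insert, mem_singleton] at hj
        omega
  obtain ⟨J1', J2, hA⟩ := h.AJ_exists (fun J hJ hs j hj => (hbig J hJ hs j hj).1)
  obtain ⟨c1, c2⟩ := h.AJ_big hA (by omega) hbig
  exact h.final2 hA c1 (fun j hj => by have := c2 j hj; omega) hNM

end ACtx

end Pool.Agent.H38.DO
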