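import Pool.Agent.H38.DO.Alpha4

/-! The setting given by a solution with one missing class. -/

open Finset

namespace Pool.Agent.H38.DO

open Pool.Agent.H38.DP

lemma cast_eq_iff {M : ℕ} (x y : ℕ) : ((x : ZMod M) = (y : ZMod M)) ↔ x % M = y % M :=
  ZMod.natCast_eq_natCast_iff' x y M

/-- the basic setting -/
theorem mkCtx {M : ℕ} (hM : 11 ≤ M) {R : Finset (ZMod M)} {b : ZMod M → ℕ} {C : Finset ℕ}
    (h : IsSolution M R b C) (c : ℕ) (hR : ∀ j, j ∈ R ↔ j ≠ (c : ZMod M)) :
    ∃ (N : ℕ) (X : ℕ → Prop) (W : Finset ℕ → Prop), 0 < N ∧ N % M = c % M ∧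
      (∀ e, X e ↔ 0 < e ∧ e % M = c % M ∧ e < N) ∧ (∀ S, W S ↔ ∀ e ∈ S, 0 < e ∧ ¬ X e) ∧
      Ctx M N 0 (fun x => b (x : ZMod M)) (fun e => e ∉ C) X W := by
  classical
  have hex : ∃ e, 0 < e ∧ e % M = c % M ∧ e ∉ C := by
    obtain ⟨e, he1, _, he2⟩ := exists_class (show 0 < M by omega) (c : ZMod M) (C.sup id + 1)
    refine ⟨e, by omega, (cast_eq_iff e c).1 he2, fun hC => ?_⟩
    have : e ≤ C.sup id := le_sup (f := id) hC
    omega
  obtain ⟨hN0, hNc, hNC⟩ := Nat.find_spec hex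
  set N := Nat.find hex with hN
  have hmin : ∀ e, 0 < e → e % M = c % M → e < N → e ∈ C := by
    intro e h1 h2 h3
    by_contra h4
    exact Nat.find_min hex h3 ⟨h1, h2, h4⟩
  refine ⟨N, fun e => 0 < e ∧ e % M = c % M ∧ e < N,
    fun S => ∀ e ∈ S, 0 < e ∧ ¬ (0 < e ∧ e % M = c % M ∧ e < N), hN0, hNc, fun e => Iff.rfl,
    fun S => Iff.rfl, ?_⟩
  refine { hM := hM, per := ?_, gpos := ?_, Wsub := ?_, Wpos := ?_, neu := ?_, W0 := ?_,
           W1 := ?_, XN := ?_, hN := hN0, EN := hNC, EQ := ?_ }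
  · intro x
    simp
  · intro x
    exact h.1 _
  · intro S T hST hT e he
    exact hT e (hST he)
  · intro S hS e he
    exact hS e he
  · intro e he hX S hS z hz
    rcases mem_insert.1 hz with rfl | hz
    · exact ⟨he, hX⟩
    · exact hS z hz
  · intro e he
    simp at he
  · intro e he hX z hz
    rw [mem_singleton] at hz
    subst hz
    exact ⟨he, hX⟩
  · intro e he
    exact he.2.2
  · intro n
    set W : Finset ℕ → Prop :=
      fun S => ∀ e ∈ S, 0 < e ∧ ¬ (0 < e ∧ e % M = c % M ∧ e < N) with hW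
    have e1 := cnt_split W (fun S => ∃ e ∈ S, Kc M N e) n
    have e2 := cnt_split W (fun S => Adm (fun x => b (x : ZMod M)) (fun e => e ∉ C) S) n
    have e3 : cnt (fun S => W S ∧ ¬ ∃ e ∈ S, Kc M N e) n = cnt (admA R) n := by
      apply cnt_congr'
      intro S _
      constructor
      · rintro ⟨h1, h2⟩ e he
        refine ⟨(h1 e he).1, (hR _).2 fun h3 => ?_⟩
        have h4 := (cast_eq_iff e c).1 h3
        rcases Nat.lt_or_ge e N with h5 | h5
        · exact (h1 e he).2 ⟨(h1 e he).1, h4, h5⟩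
        · exact h2 ⟨e, he, h5, by rw [h4, hNc]⟩
      · intro h1
        refine ⟨fun e he => ⟨(h1 e he).1, fun h2 => ?_⟩, ?_⟩
        · exact (hR _).1 (h1 e he).2 ((cast_eq_iff e c).2 h2.2.1)
        · rintro ⟨e, he, h2⟩
          exact (hR _).1 (h1 e he).2 ((cast_eq_iff e c).2 (by rw [h2.2, hNc]))
    have e4 : cnt (fun S => W S ∧ Adm (fun x => b (x : ZMod M)) (fun e => e ∉ C) S) n =
        cnt (adm b C) n := by
      apply cnt_congr'
      intro S _
      constructor
      · rintro ⟨h1, h2, h3⟩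
        exact ⟨fun e he => ⟨(h1 e he).1, h2 e he⟩, h3⟩
      · rintro ⟨h1, h2⟩
        refine ⟨fun e he => ⟨(h1 e he).1, fun h3 => ?_⟩, fun e he => (h1 e he).2, h2⟩
        exact (h1 e he).2 (hmin e h3.1 h3.2.1 h3.2.2)
    have e5 := sol_cnt h n
    change cnt (fun S => W S ∧ ∃ e ∈ S, Kc M N e) n =
      cnt (fun S => W S ∧ ¬ Adm (fun x => b (x : ZMod M)) (fun e => e ∉ C) S) n
    omega

namespace Ctx

variable {M N τ : ℕ} {gb : ℕ → ℕ} {E X : ℕ → Prop} {W : Finset ℕ → Prop}
  (h : Ctx M N τ gb E X W)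
include h

/-- an upper bound for the required sets -/
lemma Req_ub {s : ℕ} (hs : s < M) :
    cnt (fun S => W S ∧ ∃ e ∈ S, Kc M N e) (N + s) ≤ cnt W s := by
  have hM := h.hM
  have := UB (W := W) (P := fun S => W S ∧ ∃ e ∈ S, Kc M N e) (N + s) [({N}, s)] h.Wsub
    (fun S hS => hS.1) (by simp) ?_
  · simpa using this
  · rintro S ⟨hW, e, he, hKe⟩ hsum
    have h2 := le_sum_of_mem he
    have h3 := Ctx.Kc_one (M := M) (by omega) hKe (by omega)
    subst h3
    exact ⟨_, List.mem_cons_self, singleton_subset_iff.2 he⟩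

/-- membership in the bad sets -/
lemma bad_of {J Q : Finset ℕ} (hJ : ∀ j ∈ J, τ < j ∧ ¬ X j) (hna : ¬ Adm gb E J) (hQ : W Q) :
    W (J ∪ Q) ∧ ¬ Adm gb E (J ∪ Q) := by
  refine ⟨h.W_union hJ hQ, ?_⟩
  obtain ⟨J', h1, h2⟩ := bad_item hna
  exact item_bad h2 (h1.trans subset_union_left)

/-- the first step: the first pair consists of consecutive numbers, or the next number is
exceptional -/
lemma step1 {x0 y0 : ℕ} (hτ : τ < y0) (hy : 2 ≤ y0) (hyx : y0 < x0) (hN : x0 + y0 = N)
    (hx : ¬ X x0) (hy0 : ¬ X y0) (hlt : x0 < y0 + gb x0) (hne : x0 ≠ y0 + 1)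
    (hXy : ¬ X (y0 + 1)) : False := by
  have hM := h.hM
  have h1 := h.Req_ub (s := 1) (by omega)
  have h2 := h.EQ (N + 1)
  have h3 := h.q_zero
  have h4 := LB (W := W) (P := fun S => W S ∧ ¬ Adm gb E S) (N + 1) 1
    [({x0, y0}, 1), ({x0, y0 + 1}, 0)] (by simp) ?_
  · simp only [List.map_cons, List.map_nil, List.sum_cons, List.sum_nil] at h4
    omega
  · intro p hp
    simp only [List.mem_cons, List.not_mem_nil, or_false] at hp
    rcases hp with rfl | rfl
    · refine ⟨by simp only; rw [sum_pair' hyx]; omega, le_rfl, fun j hj => ?_,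
        fun Q hQ _ => h.bad_of (fun j hj => ?_)
          (pair_bad hyx hlt (by simp) (by simp)) hQ⟩
      · simp only [mem_insert, mem_singleton] at hj
        omega
      · simp only [mem_insert, mem_singleton] at hj
        rcases hj with rfl | rfl
        · exact ⟨by omega, hx⟩
        · exact ⟨by omega, hy0⟩
    · refine ⟨by simp only; rw [sum_pair' (by omega)]; omega, by simp, fun j hj => ?_,
        fun Q hQ _ => h.bad_of (fun j hj => ?_)
          (pair_bad (x := x0) (y := y0 + 1) (by omega) (by omega) (by simp) (by simp)) hQ⟩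
      · simp only [mem_insert, mem_singleton] at hj
        omega
      · simp only [mem_insert, mem_singleton] at hj
        rcases hj with rfl | rfl
        · exact ⟨by omega, hx⟩
        · exact ⟨by omega, hXy⟩

/-- pairs with small sum are allowed -/
lemma pair_lt {x z : ℕ} (hzx : z < x) (hx : τ < x) (hz : 0 < z) (hxX : ¬ X x) (hzX : ¬ X z)
    (hs : x + z < N) : z + gb x ≤ x := by
  have hW : W {x, z} := h.neu x hx hxX _ (h.W1 z hz hzX)
  have h1 := h.good_lt hW (by rw [sum_pair' hzx]; exact hs)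
  exact h1.2 x (by simp) z (by simp) hzx

end Ctx

end Pool.Agent.H38.DO
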