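import Pool.Agent.H38.DO.Kone

/-! The case `c = M`, `N = 2 M`, first pair `(M + 1, M - 1)`. -/

open Finset

namespace Pool.Agent.H38.DO

open Pool.Agent.H38.DP

/-- the setting -/
structure BCtx (M : ℕ) (gb : ℕ → ℕ) (E X : ℕ → Prop) (W : Finset ℕ → Prop) : Prop
    extends Ctx M (2 * M) 0 gb E X W where
  hX : ∀ e, X e ↔ e = M
  hb : M + 1 < M - 1 + gb (M + 1)

namespace BCtx

variable {M : ℕ} {gb : ℕ → ℕ} {E X : ℕ → Prop} {W : Finset ℕ → Prop}
  (h : BCtx M gb E X W)
include h

lemma nX {e : ℕ} (he : e ≠ M) : ¬ X e := by rw [h.hX]; exact he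

lemma trans {n : ℕ} (hn : n < 4 * M) :
    cnt (NB W gb E (M + 1) (M - 1)) n = cnt (NR W M (2 * M) (M + 1) (M - 1)) n := by
  have hM := h.hM
  exact h.toCtx.transfer ⟨by omega, h.nX (by omega)⟩ ⟨by omega, h.nX (by omega)⟩ (by omega)
    (by omega) h.hb (by omega)

lemma NR_cases {S : Finset ℕ} (hS : NR W M (2 * M) (M + 1) (M - 1) S)
    (hn : ∑ e ∈ S, e < 4 * M) :
    ({2 * M, M - 1} : Finset ℕ) ⊆ S ∨ ({3 * M} : Finset ℕ) ⊆ S ∨
      ({2 * M, M + 1} : Finset ℕ) ⊆ S := by
  obtain ⟨hW, ⟨e, he, hKe⟩, hN⟩ := hS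
  have h1 := le_sum_of_mem he
  have hM := h.hM
  rcases Ctx.Kc_two (M := M) (by omega) hKe (by omega) with rfl | h2
  · rcases hN he with h2 | h2
    · right; right
      intro z hz
      rw [mem_insert, mem_singleton] at hz
      rcases hz with rfl | rfl
      · exact he
      · exact h2
    · left
      intro z hz
      rw [mem_insert, mem_singleton] at hz
      rcases hz with rfl | rfl
      · exact he
      · exact h2
  · right; left
    rw [show 3 * M = e by omega]
    exact singleton_subset_iff.2 he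

lemma s1 : ∑ e ∈ ({2 * M, M - 1} : Finset ℕ), e = 3 * M - 1 := by
  have := h.hM
  rw [sum_pair' (by omega)]
  omega

lemma s2 : ∑ e ∈ ({2 * M, M + 1} : Finset ℕ), e = 3 * M + 1 := by
  have := h.hM
  rw [sum_pair' (by omega)]
  omega

lemma NB_ge {S : Finset ℕ} (hS : NB W gb E (M + 1) (M - 1) S) : 3 * M - 1 ≤ ∑ e ∈ S, e := by
  by_contra hlt
  push Not at hlt
  have hM := h.hM
  have h1 : 0 < cnt (NB W gb E (M + 1) (M - 1)) (∑ e ∈ S, e) := cnt_pos_iff.2 ⟨S, hS, rfl⟩
  rw [h.trans (by omega)] at h1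
  obtain ⟨T, hT, hs⟩ := cnt_pos_iff.1 h1
  rcases h.NR_cases hT (by omega) with h2 | h2 | h2
  · have := sum_le_sum_of_subset (f := fun e => e) h2
    rw [h.s1] at this
    omega
  · have := sum_le_sum_of_subset (f := fun e => e) h2
    rw [sum_singleton] at this
    omega
  · have := sum_le_sum_of_subset (f := fun e => e) h2
    rw [h.s2] at this
    omega

/-- upper bound for the required sets -/
lemma NR_ub {s : ℕ} (hs : 2 ≤ s) (hsM : s < M) :
    cnt (NR W M (2 * M) (M + 1) (M - 1)) (3 * M - 1 + s) ≤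
      cnt W s + (cnt W (s - 1) + cnt W (s - 2)) := by
  have hM := h.hM
  have := UB (W := W) (P := NR W M (2 * M) (M + 1) (M - 1)) (3 * M - 1 + s)
    [({2 * M, M - 1}, s), ({3 * M}, s - 1), ({2 * M, M + 1}, s - 2)] h.Wsub
    (fun S hS => hS.1) ?_ ?_
  · simpa using this
  · intro p hp
    simp only [List.mem_cons, List.not_mem_nil, or_false] at hp
    rcases hp with rfl | rfl | rfl
    · simp only [h.s1]
    · simp only [sum_singleton]
      omega
    · simp only [h.s2]
      omega
  · intro S hS hsum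
    rcases h.NR_cases hS (by omega) with h2 | h2 | h2
    · exact ⟨_, List.mem_cons_self, h2⟩
    · exact ⟨({3 * M}, s - 1), by simp, h2⟩
    · exact ⟨({2 * M, M + 1}, s - 2), by simp, h2⟩

lemma NR_ubx : cnt (NR W M (2 * M) (M + 1) (M - 1)) (4 * M - 2) + 1 ≤
      cnt W (M - 1) + (cnt W (M - 2) + cnt W (M - 3)) := by
  have hM := h.hM
  have := UBx (W := W) (P := NR W M (2 * M) (M + 1) (M - 1)) (4 * M - 2)
    ({2 * M, M - 1}, M - 1) [({3 * M}, M - 2), ({2 * M, M + 1}, M - 3)] h.Wsub
    (fun S hS => hS.1) ?_ ?_ {M - 1} (h.W1 _ (by omega) (h.nX (by omega))) (by simp) (by simp)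
  · simpa using this
  · intro p hp
    simp only [List.mem_cons, List.not_mem_nil, or_false] at hp
    rcases hp with rfl | rfl | rfl
    · simp only [h.s1]
      omega
    · simp only [sum_singleton]
      omega
    · simp only [h.s2]
      omega
  · intro S hS hsum
    rcases h.NR_cases hS (by omega) with h2 | h2 | h2
    · exact ⟨_, List.mem_cons_self, h2⟩
    · exact ⟨({3 * M}, M - 2), by simp, h2⟩
    · exact ⟨({2 * M, M + 1}, M - 3), by simp, h2⟩

lemma NR_mem {J : Finset ℕ} {s : ℕ} (hJ : ∀ j ∈ J, 0 < j ∧ j ≠ M)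
    (hK : ∃ e ∈ J, Kc M (2 * M) e) (hx : 2 * M ∈ J → M + 1 ∈ J ∨ M - 1 ∈ J)
    (hs : s < 2 * M) : ∀ Q, W Q → ∑ e ∈ Q, e = s →
    NR W M (2 * M) (M + 1) (M - 1) (J ∪ Q) := by
  intro Q hQ hQs
  exact h.toCtx.NR_of (fun j hj => ⟨(hJ j hj).1, h.nX (hJ j hj).2⟩) hK hQ hx (by omega)

omit h in
lemma K3 : Kc M (2 * M) (3 * M) := by
  have := Ctx.Kc_M (M := M) (N := 2 * M)
  rwa [show 2 * M + M = 3 * M by ring] at this

lemma NR_0 : cnt (NR W M (2 * M) (M + 1) (M - 1)) (3 * M - 1) = 1 := by
  have hM := h.hM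
  have hq0 := h.toCtx.q_zero
  apply le_antisymm
  · have := UB (W := W) (P := NR W M (2 * M) (M + 1) (M - 1)) (3 * M - 1)
      [({2 * M, M - 1}, 0)] h.Wsub (fun S hS => hS.1) ?_ ?_
    · simpa [hq0] using this
    · intro p hp
      simp only [List.mem_cons, List.not_mem_nil, or_false] at hp
      subst hp
      simp only [h.s1]
      omega
    · intro S hS hsum
      rcases h.NR_cases hS (by omega) with h2 | h2 | h2
      · exact ⟨_, List.mem_cons_self, h2⟩
      · have := sum_le_sum_of_subset (f := fun e => e) h2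
        rw [sum_singleton] at this
        omega
      · have := sum_le_sum_of_subset (f := fun e => e) h2
        rw [h.s2] at this
        omega
  · rw [Nat.one_le_iff_ne_zero, ← Nat.pos_iff_ne_zero]
    refine cnt_pos_iff.2 ⟨{2 * M, M - 1} ∪ ∅, ?_, by rw [union_empty, h.s1]⟩
    exact h.NR_mem (J := {2 * M, M - 1}) (s := 0) (by
      intro j hj
      rw [mem_insert, mem_singleton] at hj
      omega) ⟨2 * M, by simp, Ctx.Kc_self⟩ (fun _ => Or.inr (by simp)) (by omega) ∅ h.W0
      (by simp)

lemma NR_1 : 2 ≤ cnt (NR W M (2 * M) (M + 1) (M - 1)) (3 * M) := by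
  have hM := h.hM
  have hq0 := h.toCtx.q_zero
  have hq1 := h.toCtx.q_one (h.nX (by omega))
  have := LB (W := W) (P := NR W M (2 * M) (M + 1) (M - 1)) (3 * M) 1
    [({2 * M, M - 1}, 1), ({3 * M}, 0)] (by simp) ?_
  · simpa [hq0, hq1] using this
  · intro p hp
    simp only [List.mem_cons, List.not_mem_nil, or_false] at hp
    rcases hp with rfl | rfl
    · refine ⟨by simp only [h.s1]; omega, le_rfl, fun j hj => ?_, h.NR_mem (fun j hj => ?_)
        ⟨2 * M, by simp, Ctx.Kc_self⟩ (fun _ => Or.inr (by simp)) (by simp only; omega)⟩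
      · simp only [mem_insert, mem_singleton] at hj
        omega
      · simp only [mem_insert, mem_singleton] at hj
        omega
    · refine ⟨by simp, by simp, fun j hj => ?_, h.NR_mem (fun j hj => ?_)
        ⟨3 * M, by simp, BCtx.K3⟩ (fun hj => ?_) (by simp only; omega)⟩
      · simp only [mem_singleton] at hj
        omega
      · simp only [mem_singleton] at hj
        omega
      · simp only [mem_singleton] at hj
        omega

lemma NR_2 : 3 ≤ cnt (NR W M (2 * M) (M + 1) (M - 1)) (3 * M + 1) := by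
  have hM := h.hM
  have hq0 := h.toCtx.q_zero
  have hq1 := h.toCtx.q_one (h.nX (by omega))
  have hq2 := h.toCtx.q_two (h.nX (by omega))
  have := LB (W := W) (P := NR W M (2 * M) (M + 1) (M - 1)) (3 * M + 1) 2
    [({2 * M, M - 1}, 2), ({3 * M}, 1), ({2 * M, M + 1}, 0)] (by simp) ?_
  · simpa [hq0, hq1, hq2] using this
  · intro p hp
    simp only [List.mem_cons, List.not_mem_nil, or_false] at hp
    rcases hp with rfl | rfl | rfl
    · refine ⟨by simp only [h.s1]; omega, le_rfl, fun j hj => ?_, h.NR_mem (fun j hj => ?_)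
        ⟨2 * M, by simp, Ctx.Kc_self⟩ (fun _ => Or.inr (by simp)) (by simp only; omega)⟩
      · simp only [mem_insert, mem_singleton] at hj
        omega
      · simp only [mem_insert, mem_singleton] at hj
        omega
    · refine ⟨by simp, by simp, fun j hj => ?_, h.NR_mem (fun j hj => ?_)
        ⟨3 * M, by simp, BCtx.K3⟩ (fun hj => ?_) (by simp only; omega)⟩
      · simp only [mem_singleton] at hj
        omega
      · simp only [mem_singleton] at hj
        omega
      · simp only [mem_singleton] at hj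
        omega
    · refine ⟨by simp only [h.s2, add_zero], by simp, fun j hj => ?_, h.NR_mem (fun j hj => ?_)
        ⟨2 * M, by simp, Ctx.Kc_self⟩ (fun _ => Or.inl (by simp)) (by simp only; omega)⟩
      · simp only [mem_insert, mem_singleton] at hj
        omega
      · simp only [mem_insert, mem_singleton] at hj
        omega

/-- the gaps in the classes different from `0` and `1` -/
lemma gb_one {x : ℕ} (hx : 2 ≤ x % M) : gb x ≤ 1 := by
  have hM := h.hM
  have hlt := Nat.mod_lt x (show 0 < M by omega)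
  have h1 := h.toCtx.pair_lt (x := x % M) (z := x % M - 1) (by omega) (by omega) (by omega)
    (h.nX (by omega)) (h.nX (by omega)) (by omega)
  have h2 : gb x = gb (x % M) := ACtx.gb_mod h.per (by rw [Nat.mod_mod])
  omega

lemma gb_three {x : ℕ} (hx : x % M = 1) : gb x ≤ 3 := by
  have hM := h.hM
  have h1 := h.toCtx.pair_lt (x := M + 1) (z := M - 2) (by omega) (by omega) (by omega)
    (h.nX (by omega)) (h.nX (by omega)) (by omega)
  have h2 : gb x = gb (M + 1) := ACtx.gb_mod h.per (by
    have := mod_sub_of (M := M) (x := M + 1) (by omega) (by omega)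
    omega)
  omega

/-- the possible items -/
lemma items {J : Finset ℕ} (hJ : It W gb E (M + 1) (M - 1) J) (h1 : 3 * M - 1 ≤ ∑ e ∈ J, e)
    (h2 : ∑ e ∈ J, e ≤ 3 * M + 1) : (J = {∑ e ∈ J, e} ∧ ¬ E (∑ e ∈ J, e)) ∨
      (∃ z, ∑ e ∈ J, e = 2 * M + z ∧ z ≠ M ∧ J = {2 * M, z} ∧ 2 * M < z + gb (2 * M)) ∨
      (∑ e ∈ J, e = 3 * M + 1 ∧ E (3 * M)) := by
  have hM := h.hM
  rcases item_form hJ.1 with h3 | ⟨x, z, hzx, hEx, hEz, hlt, hJe, hs⟩
  · exact Or.inl h3
  · right
    have hz := h.Wpos J hJ.2.1 z (by rw [hJe]; simp)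
    have hzM : z ≠ M := fun hzM => hz.2 ((h.hX z).2 hzM)
    rcases Nat.lt_or_ge x (2 * M) with h4 | h4
    · exfalso
      have h5 := mod_sub_of (M := M) (x := x) (by omega) h4
      have := h.gb_one (x := x) (by omega)
      omega
    · rcases Nat.lt_or_ge x (3 * M) with h5 | h5
      · have h6 := mod_sub_of2 (M := M) (x := x) h4 h5
        rcases Nat.lt_or_ge (x % M) 2 with h7 | h7
        · by_cases h8 : x % M = 1
          · have := h.gb_three h8
            omega
          · left
            have h9 : x = 2 * M := by omega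
            subst h9
            exact ⟨z, hs, hzM, hJe, hlt⟩
        · have := h.gb_one h7
          omega
      · right
        have h6 : x = 3 * M := by omega
        subst h6
        exact ⟨by omega, hEx⟩

/-- the contradiction if `(2 M, M - 1)` is forbidden -/
lemma dead_a (hp : 2 * M < M - 1 + gb (2 * M)) (hE3 : ¬ E (3 * M)) : False := by
  have hM := h.hM
  have h1 := h.NR_ub (s := 3) (by omega) (by omega)
  have h2 := h.trans (n := 3 * M - 1 + 3) (by omega)
  have h3 := h.toCtx.q_zero
  simp only [show (3 : ℕ) - 1 = 2 from rfl, show (3 : ℕ) - 2 = 1 from rfl] at h1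
  have h5 := LB (W := W) (P := NB W gb E (M + 1) (M - 1)) (3 * M - 1 + 3) 3
    [({2 * M, M - 1}, 3), ({3 * M}, 2), ({2 * M, M + 1}, 1), ({2 * M, M + 2}, 0)] (by simp) ?_
  · simp only [List.map_cons, List.map_nil, List.sum_cons, List.sum_nil] at h5
    omega
  · intro p hp'
    simp only [List.mem_cons, List.not_mem_nil, or_false] at hp'
    rcases hp' with rfl | rfl | rfl | rfl
    · refine ⟨by simp only [h.s1], le_rfl, fun j hj => ?_,
        h.toCtx.fam_pair (by omega) ⟨by omega, h.nX (by omega)⟩ ⟨by omega, h.nX (by omega)⟩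
          (by omega) (by omega) (by omega) (by simp only; omega)⟩
      simp only [mem_insert, mem_singleton] at hj
      omega
    · refine ⟨by simp only [sum_singleton]; omega, by simp, fun j hj => ?_,
        h.toCtx.fam_single ⟨by omega, h.nX (by omega)⟩ hE3 (by omega) (by simp only; omega)⟩
      simp only [mem_singleton] at hj
      omega
    · refine ⟨by simp only [h.s2]; omega, by simp, fun j hj => ?_,
        h.toCtx.fam_pair (by omega) ⟨by omega, h.nX (by omega)⟩ ⟨by omega, h.nX (by omega)⟩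
          (by omega) (by omega) (by omega) (by simp only; omega)⟩
      simp only [mem_insert, mem_singleton] at hj
      omega
    · refine ⟨by simp only; rw [sum_pair' (by omega)]; omega, by simp, fun j hj => ?_,
        h.toCtx.fam_pair (by omega) ⟨by omega, h.nX (by omega)⟩ ⟨by omega, h.nX (by omega)⟩
          (by omega) (by omega) (by omega) (by simp only; omega)⟩
      simp only [mem_insert, mem_singleton] at hj
      omega

/-- the contradiction if `(2 M, M + 1)` is forbidden -/
lemma dead_b (hp : 2 * M < M + 1 + gb (2 * M)) (hE1 : ¬ E (3 * M - 1)) (hE3 : ¬ E (3 * M)) :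
    False := by
  have hM := h.hM
  have h1 := h.NR_ub (s := 3) (by omega) (by omega)
  have h2 := h.trans (n := 3 * M - 1 + 3) (by omega)
  have h3 := h.toCtx.q_zero
  simp only [show (3 : ℕ) - 1 = 2 from rfl, show (3 : ℕ) - 2 = 1 from rfl] at h1
  have h5 := LB (W := W) (P := NB W gb E (M + 1) (M - 1)) (3 * M - 1 + 3) 3
    [({3 * M - 1}, 3), ({3 * M}, 2), ({2 * M, M + 1}, 1), ({2 * M, M + 2}, 0)] (by simp) ?_
  · simp only [List.map_cons, List.map_nil, List.sum_cons, List.sum_nil] at h5
    omega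
  · intro p hp'
    simp only [List.mem_cons, List.not_mem_nil, or_false] at hp'
    rcases hp' with rfl | rfl | rfl | rfl
    · refine ⟨by simp only [sum_singleton], le_rfl, fun j hj => ?_,
        h.toCtx.fam_single ⟨by omega, h.nX (by omega)⟩ hE1 (by omega) (by simp only; omega)⟩
      simp only [mem_singleton] at hj
      omega
    · refine ⟨by simp only [sum_singleton]; omega, by simp, fun j hj => ?_,
        h.toCtx.fam_single ⟨by omega, h.nX (by omega)⟩ hE3 (by omega) (by simp only; omega)⟩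
      simp only [mem_singleton] at hj
      omega
    · refine ⟨by simp only [h.s2]; omega, by simp, fun j hj => ?_,
        h.toCtx.fam_pair (by omega) ⟨by omega, h.nX (by omega)⟩ ⟨by omega, h.nX (by omega)⟩
          (by omega) (by omega) (by omega) (by simp only; omega)⟩
      simp only [mem_insert, mem_singleton] at hj
      omega
    · refine ⟨by simp only; rw [sum_pair' (by omega)]; omega, by simp, fun j hj => ?_,
        h.toCtx.fam_pair (by omega) ⟨by omega, h.nX (by omega)⟩ ⟨by omega, h.nX (by omega)⟩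
          (by omega) (by omega) (by omega) (by simp only; omega)⟩
      simp only [mem_insert, mem_singleton] at hj
      omega

/-- the contradiction if `3 M - 1`, `3 M` and `3 M + 1` are excluded -/
lemma dead_c (hE1 : ¬ E (3 * M - 1)) (hE2 : ¬ E (3 * M)) (hE3 : ¬ E (3 * M + 1)) : False := by
  have hM := h.hM
  have h1 := h.NR_ubx
  have h2 := h.trans (n := 4 * M - 2) (by omega)
  have key : ∀ e, 3 * M - 1 ≤ e → ¬ E e → ∀ Q, W Q → ∑ e ∈ Q, e ≤ M - 1 →
      NB W gb E (M + 1) (M - 1) ({e} ∪ Q) := by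
    intro e he hEe Q hQ hQs
    refine h.toCtx.NB_of' (x0 := M + 1) (y0 := M - 1) ?_ (single_bad hEe) hQ ?_ (by omega)
    · intro j hj
      rw [mem_singleton] at hj
      subst hj
      exact ⟨by omega, h.nX (by omega)⟩
    · rw [mem_singleton]
      omega
  have h5 := LB (W := W) (P := NB W gb E (M + 1) (M - 1)) (4 * M - 2) (M - 1)
    [({3 * M - 1}, M - 1), ({3 * M}, M - 2), ({3 * M + 1}, M - 3)] (by simp; omega) ?_
  · simp only [List.map_cons, List.map_nil, List.sum_cons, List.sum_nil] at h5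
    omega
  · intro p hp'
    simp only [List.mem_cons, List.not_mem_nil, or_false] at hp'
    rcases hp' with rfl | rfl | rfl
    · refine ⟨by simp only [sum_singleton]; omega, le_rfl, fun j hj => ?_, fun Q hQ hQs =>
        key _ (by omega) hE1 Q hQ (by simp only at hQs; omega)⟩
      simp only [mem_singleton] at hj
      omega
    · refine ⟨by simp only [sum_singleton]; omega, by simp only; omega, fun j hj => ?_,
        fun Q hQ hQs => key _ (by omega) hE2 Q hQ (by simp only at hQs; omega)⟩
      simp only [mem_singleton] at hj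
      omega
    · refine ⟨by simp only [sum_singleton]; omega, by simp only; omega, fun j hj => ?_,
        fun Q hQ hQs => key _ (by omega) hE3 Q hQ (by simp only at hQs; omega)⟩
      simp only [mem_singleton] at hj
      omega

theorem beta1 : False := by
  have hM := h.hM
  have hq0 := h.toCtx.q_zero
  have hq1 := h.toCtx.q_one (h.nX (by omega))
  have hq2 := h.toCtx.q_two (h.nX (by omega))
  -- the item of sum `3 M - 1`
  obtain ⟨J1, i1, t1, u1⟩ : ∃ J1, It W gb E (M + 1) (M - 1) J1 ∧ ∑ e ∈ J1, e = 3 * M - 1 ∧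
      ∀ J, It W gb E (M + 1) (M - 1) J → ∑ e ∈ J, e = 3 * M - 1 → J = J1 := by
    have h1 := h.trans (n := 3 * M - 1) (by omega)
    rw [h.NR_0, cnt_eq, card_eq_one] at h1
    obtain ⟨S, hS⟩ := h1
    have h2 : S ∈ fam (NB W gb E (M + 1) (M - 1)) (3 * M - 1) := by
      rw [hS]; exact mem_singleton_self S
    obtain ⟨h3, h4⟩ := mem_fam.1 h2
    obtain ⟨J, hJS, hJ⟩ := h.toCtx.exists_It h3
    have h5 := h.NB_ge hJ.NB
    have h6 : J = S := eq_of_subset_sum hJS (fun x hx => (h.Wpos S h3.1 x hx).1) (by omega)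
    subst h6
    refine ⟨J, hJ, h4, fun J' hJ' hs => ?_⟩
    have h7 : J' ∈ fam (NB W gb E (M + 1) (M - 1)) (3 * M - 1) := mem_fam.2 ⟨hJ'.NB, hs⟩
    rw [hS] at h7
    exact mem_singleton.1 h7
  -- `3 M` is excluded
  have hE3 : ¬ E (3 * M) := by
    have h1 := h.trans (n := 3 * M) (by omega)
    have h2 := h.NR_1
    obtain ⟨J2, i2, t2, -⟩ := h.toCtx.new_item (x0 := M + 1) (y0 := M - 1) (n := 3 * M)
      [(J1, 1)] (fun J hJ hlt => ⟨(J1, 1), by simp, by
        have h5 := h.NB_ge hJ.NB
        rw [u1 J hJ (by omega)]⟩) (by simp [t1]; omega)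
      (by simp only [List.map_cons, List.map_nil, List.sum_cons, List.sum_nil]; omega)
    rcases h.items i2 (by omega) (by omega) with ⟨_, h3⟩ | ⟨z, h3, h4, _⟩ | ⟨h3, _⟩
    · rw [t2] at h3
      exact h3
    · omega
    · omega
  rcases h.items i1 (by omega) (by omega) with ⟨h3, h4⟩ | ⟨z, h3, h4, h5, h6⟩ | ⟨h3, _⟩
  · rw [t1] at h3 h4
    -- the item of sum `3 M + 1`
    have h1 := h.trans (n := 3 * M + 1) (by omega)
    have h2 := h.NR_2
    obtain ⟨J3, i3, t3, -⟩ := h.toCtx.new_item (x0 := M + 1) (y0 := M - 1) (n := 3 * M + 1)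
      [(J1, 2), ({3 * M}, 1)] (fun J hJ hlt => by
        have h5 := h.NB_ge hJ.NB
        by_cases h6 : ∑ e ∈ J, e = 3 * M - 1
        · exact ⟨(J1, 2), by simp, by rw [u1 J hJ h6]⟩
        · refine ⟨({3 * M}, 1), by simp, ?_⟩
          rcases h.items hJ (by omega) (by omega) with ⟨h7, _⟩ | ⟨z, h7, h8, _⟩ | ⟨h7, _⟩
          · rw [h7, show ∑ e ∈ J, e = 3 * M by omega]
          · omega
          · omega) (by simp [t1]; omega)
      (by simp only [List.map_cons, List.map_nil, List.sum_cons, List.sum_nil]; omega)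
    rcases h.items i3 (by omega) (by omega) with ⟨_, h5⟩ | ⟨z, h5, h6, h7, h8⟩ | ⟨_, h5⟩
    · rw [t3] at h5
      exact h.dead_c h4 hE3 h5
    · exact h.dead_b (by omega) h4 hE3
    · exact hE3 h5
  · exact h.dead_a (by omega) hE3
  · omega

end BCtx

end Pool.Agent.H38.DO
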