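import Pool.Agent.H38.DO.Kone2

/-! The missing class of `3`: change of the ground family. -/

open Finset

namespace Pool.Agent.H38.DO

open Pool.Agent.H38.DP

/-- the setting with at most one of the numbers `1, 2, 3` -/
structure KCtx (M N : ℕ) (gb : ℕ → ℕ) (E X : ℕ → Prop) (W : Finset ℕ → Prop) : Prop
    extends Ctx M N 3 gb E X W where
  hX : ∀ e, X e ↔ 4 ≤ e ∧ e % M = 3 ∧ e < N
  hW : ∀ S, W S ↔ (∀ e ∈ S, 0 < e ∧ ¬ X e) ∧ ¬ (1 ∈ S ∧ 2 ∈ S) ∧ ¬ (1 ∈ S ∧ 3 ∈ S) ∧
    ¬ (2 ∈ S ∧ 3 ∈ S)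
  hNm : N % M = 3
  g2 : 2 < 1 + gb 2
  g3 : 3 < 1 + gb 3

/-- the forbidden pairs of small numbers -/
lemma small_pairs {M : ℕ} {gb : ℕ → ℕ} {E X : ℕ → Prop} {W : Finset ℕ → Prop}
    (h : Ctx M 3 0 gb E X W) (hX : ∀ e, ¬ X e) :
    2 < 1 + gb 2 ∧ 3 < 1 + gb 3 := by
  have hM := h.hM
  have hpos := h.Wpos
  have hWof : ∀ S : Finset ℕ, (∀ e ∈ S, 0 < e) → W S := by
    intro S hS
    have := h.W_union (J := S) (Q := ∅) (fun j hj => ⟨hS j hj, hX j⟩) h.W0
    rwa [union_empty] at this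
  obtain ⟨x0, y0, hy, hyx, hs, hW, hlt, -⟩ := h.first
  have e1 : x0 = 2 := by omega
  have e2 : y0 = 1 := by omega
  subst e1
  subst e2
  refine ⟨hlt, ?_⟩
  by_contra hcon
  push Not at hcon
  -- there is a bad set of sum 4
  have h1 := h.EQ 4
  have h2 : 0 < cnt (fun S => W S ∧ ∃ e ∈ S, Kc M 3 e) 4 :=
    cnt_pos_iff.2 ⟨{3, 1}, ⟨hWof _ (by simp), 3, by simp, Ctx.Kc_self⟩, by simp⟩
  rw [h1] at h2
  obtain ⟨S, ⟨hWS, hna⟩, hsum⟩ := cnt_pos_iff.1 h2
  obtain ⟨J, hJS, hJ, hWJ⟩ := h.exists_item hWS hna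
  have hge := h.item_ge hWJ hJ
  have hle : ∑ e ∈ J, e ≤ 4 := by
    rw [← hsum]
    exact sum_le_sum_of_subset hJS
  have hE4 : ¬ E 4 := by
    rcases item_form hJ with ⟨h3, h4⟩ | ⟨x, z, hzx, hEx, hEz, hlt', hJe, hs'⟩
    · by_cases h5 : ∑ e ∈ J, e = 3
      · rw [h5] at h4
        exact absurd h.EN h4
      · rw [show ∑ e ∈ J, e = 4 by omega] at h4
        exact h4
    · exfalso
      have hz := (h.Wpos J hWJ z (by rw [hJe]; simp)).1
      have h5 : z = 1 := by omega
      subst h5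
      by_cases h6 : x = 3
      · subst h6
        omega
      · have h7 : x = 2 := by omega
        subst h7
        have h8 := sum_sdiff (f := fun e => e) hJS
        rw [hJe, sum_pair' (by norm_num)] at h8
        have h9 : ∑ e ∈ S \ {2, 1}, e = 1 := by omega
        have h10 : S \ {2, 1} = ∅ := by
          rw [eq_empty_iff_forall_notMem]
          intro t ht
          have h11 := le_sum_of_mem ht
          have h12 := (h.Wpos S hWS t (mem_sdiff.1 ht).1).1
          have h13 := (mem_sdiff.1 ht).2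
          rw [mem_insert, mem_singleton] at h13
          omega
        rw [h10] at h9
        simp at h9
  -- the sets of sum 6
  have h3 := h.EQ 6
  have hq0 := h.q_zero
  have h4 : cnt (fun S => W S ∧ ∃ e ∈ S, Kc M 3 e) 6 ≤ 1 := by
    have := UB (W := W) (P := fun S => W S ∧ ∃ e ∈ S, Kc M 3 e) 6 [({3, 2, 1}, 0)] h.Wsub
      (fun S hS => hS.1) (by simp) ?_
    · simpa [hq0] using this
    · rintro T ⟨hWT, e, he, hKe⟩ hT
      refine ⟨_, List.mem_cons_self, ?_⟩
      have h5 := le_sum_of_mem he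
      have h6 := Ctx.Kc_one (M := M) (by omega) hKe (by omega)
      subst h6
      have h7 := sum_erase_add (f := fun e => e) _ he
      have h8 : T.erase 3 ⊆ {2, 1} := by
        intro t ht
        have h9 := le_sum_of_mem ht
        have h10 := (h.Wpos T hWT t (mem_of_mem_erase ht)).1
        have h11 := ne_of_mem_erase ht
        rw [mem_insert, mem_singleton]
        omega
      have h9 : T.erase 3 = {2, 1} := by
        apply eq_of_subset_sum h8 (by simp)
        rw [sum_pair' (by norm_num)]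
        omega
      rw [← insert_erase he, h9]
  have h5 := LB (W := W) (P := fun S => W S ∧ ¬ Adm gb E S) 6 1
    [({3, 2}, 1), ({4, 2}, 0)] (by simp) ?_
  · simp only [List.map_cons, List.map_nil, List.sum_cons, List.sum_nil] at h5
    have := h.q_one (hX 1)
    omega
  · intro p hp
    simp only [List.mem_cons, List.not_mem_nil, or_false] at hp
    rcases hp with rfl | rfl
    · refine ⟨by simp, le_rfl, by simp, fun Q hQ hQs => ?_⟩
      have h6 : 1 ∈ Q := by
        by_contra h7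
        have h8 : Q = ∅ := by
          rw [eq_empty_iff_forall_notMem]
          intro t ht
          have h9 := le_sum_of_mem ht
          have h10 := (h.Wpos Q hQ t ht).1
          have h11 : t ≠ 1 := fun h12 => h7 (h12 ▸ ht)
          simp only at hQs
          omega
        rw [h8] at hQs
        simp at hQs
      refine ⟨h.W_union (fun j hj => ?_) hQ, pair_bad (x := 2) (y := 1) (by norm_num) hlt
        (by simp) (mem_union_right _ h6)⟩
      simp only [mem_insert, mem_singleton] at hj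
      exact ⟨by omega, hX j⟩
    · refine ⟨by simp, by simp, by simp, fun Q hQ hQs => ?_⟩
      refine ⟨h.W_union (fun j hj => ?_) hQ, fun hA => hE4 (hA.1 4 (by simp))⟩
      simp only [mem_insert, mem_singleton] at hj
      exact ⟨by omega, hX j⟩

/-- the new setting -/
theorem mkK {M : ℕ} (hM : 11 ≤ M) {R : Finset (ZMod M)} {b : ZMod M → ℕ} {C : Finset ℕ}
    (h : IsSolution M R b C) (hR : ∀ j, j ∈ R ↔ j ≠ ((3 : ℕ) : ZMod M)) (_hC3 : 3 ∉ C)
    (g2 : 2 < 1 + b ((2 : ℕ) : ZMod M)) (g3 : 3 < 1 + b ((3 : ℕ) : ZMod M)) :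
    ∃ (N : ℕ) (X : ℕ → Prop) (W : Finset ℕ → Prop), 4 ≤ N ∧
      KCtx M N (fun x => b (x : ZMod M)) (fun e => e ∉ C) X W := by
  classical
  have h3M : 3 % M = 3 := Nat.mod_eq_of_lt (by omega)
  have hex : ∃ e, 4 ≤ e ∧ e % M = 3 ∧ e ∉ C := by
    obtain ⟨e, he1, _, he2⟩ := exists_class (show 0 < M by omega) ((3 : ℕ) : ZMod M)
      (C.sup id + 4)
    refine ⟨e, by omega, by rw [(cast_eq_iff e 3).1 he2, h3M], fun hC => ?_⟩
    have : e ≤ C.sup id := le_sup (f := id) hC
    omega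
  obtain ⟨hN0, hNc, hNC⟩ := Nat.find_spec hex
  set N := Nat.find hex with hN
  have hmin : ∀ e, 4 ≤ e → e % M = 3 → e < N → e ∈ C := by
    intro e h1 h2 h3
    by_contra h4
    exact Nat.find_min hex h3 ⟨h1, h2, h4⟩
  have hsm : ∀ e, 0 < e → e % M = 3 → e < 4 → e = 3 := by
    intro e h1 h2 h3
    rw [Nat.mod_eq_of_lt (by omega)] at h2
    exact h2
  refine ⟨N, fun e => 4 ≤ e ∧ e % M = 3 ∧ e < N,
    fun S => (∀ e ∈ S, 0 < e ∧ ¬ (4 ≤ e ∧ e % M = 3 ∧ e < N)) ∧ ¬ (1 ∈ S ∧ 2 ∈ S) ∧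
      ¬ (1 ∈ S ∧ 3 ∈ S) ∧ ¬ (2 ∈ S ∧ 3 ∈ S), hN0, ?_⟩
  refine { hM := hM, per := ?_, gpos := ?_, Wsub := ?_, Wpos := ?_, neu := ?_, W0 := ?_,
           W1 := ?_, XN := ?_, hN := by omega, EN := hNC, EQ := ?_, hX := fun e => Iff.rfl,
           hW := fun S => Iff.rfl, hNm := hNc, g2 := g2, g3 := g3 }
  · intro x
    simp
  · intro x
    exact h.1 _
  · rintro S T hST ⟨h1, h2, h3, h4⟩
    exact ⟨fun e he => h1 e (hST he), fun h5 => h2 ⟨hST h5.1, hST h5.2⟩,
      fun h5 => h3 ⟨hST h5.1, hST h5.2⟩, fun h5 => h4 ⟨hST h5.1, hST h5.2⟩⟩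
  · intro S hS e he
    exact hS.1 e he
  · rintro e he hX S ⟨h1, h2, h3, h4⟩
    refine ⟨fun z hz => ?_, ?_, ?_, ?_⟩
    · rcases mem_insert.1 hz with rfl | hz
      · exact ⟨by omega, hX⟩
      · exact h1 z hz
    · rw [mem_insert, mem_insert]
      rintro ⟨h5 | h5, h6 | h6⟩ <;> first | omega | exact h2 ⟨h5, h6⟩
    · rw [mem_insert, mem_insert]
      rintro ⟨h5 | h5, h6 | h6⟩ <;> first | omega | exact h3 ⟨h5, h6⟩
    · rw [mem_insert, mem_insert]
      rintro ⟨h5 | h5, h6 | h6⟩ <;> first | omega | exact h4 ⟨h5, h6⟩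
  · simp
  · intro e he hX
    refine ⟨fun z hz => ?_, ?_, ?_, ?_⟩
    · rw [mem_singleton] at hz
      subst hz
      exact ⟨he, hX⟩
    · rw [mem_singleton, mem_singleton]; omega
    · rw [mem_singleton, mem_singleton]; omega
    · rw [mem_singleton, mem_singleton]; omega
  · intro e he
    exact he.2.2
  · intro n
    set W : Finset ℕ → Prop :=
      fun S => (∀ e ∈ S, 0 < e ∧ ¬ (4 ≤ e ∧ e % M = 3 ∧ e < N)) ∧ ¬ (1 ∈ S ∧ 2 ∈ S) ∧
      ¬ (1 ∈ S ∧ 3 ∈ S) ∧ ¬ (2 ∈ S ∧ 3 ∈ S) with hW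
    have e1 := cnt_split W (fun S => ∃ e ∈ S, Kc M N e) n
    have e2 := cnt_split W (fun S => Adm (fun x => b (x : ZMod M)) (fun e => e ∉ C) S) n
    have e4 : cnt (fun S => W S ∧ Adm (fun x => b (x : ZMod M)) (fun e => e ∉ C) S) n =
        cnt (adm b C) n := by
      apply cnt_congr'
      intro S _
      constructor
      · rintro ⟨⟨h1, _⟩, h2, h3⟩
        exact ⟨fun e he => ⟨(h1 e he).1, h2 e he⟩, h3⟩
      · rintro ⟨h1, h2⟩
        refine ⟨⟨fun e he => ⟨(h1 e he).1, fun h3 => ?_⟩, ?_, ?_, ?_⟩,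
          fun e he => (h1 e he).2, h2⟩
        · exact (h1 e he).2 (hmin e h3.1 h3.2.1 h3.2.2)
        · rintro ⟨m1, m2⟩
          have := h2 2 m2 1 m1 (by norm_num)
          omega
        · rintro ⟨m1, m2⟩
          have := h2 3 m2 1 m1 (by norm_num)
          omega
        · rintro ⟨m1, m2⟩
          have := h2 3 m2 2 m1 (by norm_num)
          omega
    have e3 : cnt (fun S => W S ∧ ¬ ∃ e ∈ S, Kc M N e) n = cnt (admA R) n := by
      have f1 := cnt_split (fun S => W S ∧ ¬ ∃ e ∈ S, Kc M N e) (fun S => 3 ∈ S) n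
      have f2 := cnt_split (admA R) (fun S => 1 ∈ S ∧ 2 ∈ S) n
      have hKc : ∀ S, (W S ∧ ¬ ∃ e ∈ S, Kc M N e) ↔ ((∀ e ∈ S, 0 < e ∧
          (e % M = 3 → e = 3)) ∧ ¬ (1 ∈ S ∧ 2 ∈ S) ∧ ¬ (1 ∈ S ∧ 3 ∈ S) ∧
            ¬ (2 ∈ S ∧ 3 ∈ S)) := by
        intro S
        constructor
        · rintro ⟨⟨h1, h2⟩, h3⟩
          refine ⟨fun e he => ⟨(h1 e he).1, fun h4 => ?_⟩, h2⟩
          by_contra h5
          have h6 : ¬ e < 4 := fun h6 => h5 (hsm e (h1 e he).1 h4 h6)
          rcases Nat.lt_or_ge e N with h7 | h7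
          · exact (h1 e he).2 ⟨by omega, h4, h7⟩
          · exact h3 ⟨e, he, h7, by rw [h4, hNc]⟩
        · rintro ⟨h1, h2⟩
          refine ⟨⟨fun e he => ⟨(h1 e he).1, fun h3 => ?_⟩, h2⟩, ?_⟩
          · have := (h1 e he).2 h3.2.1
            omega
          · rintro ⟨e, he, h3, h4⟩
            have := (h1 e he).2 (by rw [h4, hNc])
            omega
      have hRc : ∀ S, admA R S ↔ ∀ e ∈ S, 0 < e ∧ e % M ≠ 3 := by
        intro S
        constructor
        · intro h1 e he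
          refine ⟨(h1 e he).1, fun h2 => (hR _).1 (h1 e he).2 ((cast_eq_iff e 3).2 ?_)⟩
          rw [h2, h3M]
        · intro h1 e he
          refine ⟨(h1 e he).1, (hR _).2 fun h2 => (h1 e he).2 ?_⟩
          rw [(cast_eq_iff e 3).1 h2, h3M]
      have f3 : cnt (fun S => (W S ∧ ¬ ∃ e ∈ S, Kc M N e) ∧ ¬ 3 ∈ S) n =
          cnt (fun S => admA R S ∧ ¬ (1 ∈ S ∧ 2 ∈ S)) n := by
        apply cnt_congr'
        intro S _
        rw [hKc, hRc]
        constructor
        · rintro ⟨⟨h1, h2, _, _⟩, h3⟩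
          refine ⟨fun e he => ⟨(h1 e he).1, fun h4 => h3 ?_⟩, h2⟩
          rw [← (h1 e he).2 h4]
          exact he
        · rintro ⟨h1, h2⟩
          have h3 : ¬ 3 ∈ S := fun h4 => (h1 3 h4).2 h3M
          exact ⟨⟨fun e he => ⟨(h1 e he).1, fun h4 => absurd h4 (h1 e he).2⟩, h2,
            fun h4 => h3 h4.2, fun h4 => h3 h4.2⟩, h3⟩
      have f4 : cnt (fun S => (W S ∧ ¬ ∃ e ∈ S, Kc M N e) ∧ 3 ∈ S) n =
          cnt (fun S => admA R S ∧ (1 ∈ S ∧ 2 ∈ S)) n := by
        rw [cnt_eq, cnt_eq]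
        refine card_nbij' (fun S => insert 1 (insert 2 (S.erase 3)))
          (fun S => insert 3 ((S.erase 1).erase 2)) ?_ ?_ ?_ ?_
        · intro S hS
          obtain ⟨⟨h1, h2⟩, hs⟩ := mem_fam.1 (mem_coe.1 hS)
          rw [hKc] at h1
          obtain ⟨h1, h3, h4, h5⟩ := h1
          have n1 : 1 ∉ S := fun h6 => h4 ⟨h6, h2⟩
          have n2 : 2 ∉ S := fun h6 => h5 ⟨h6, h2⟩
          have n3 : 2 ∉ S.erase 3 := fun h6 => n2 (mem_of_mem_erase h6)
          have n4 : 1 ∉ insert 2 (S.erase 3) := by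
            rw [mem_insert]
            rintro (h6 | h6)
            · omega
            · exact n1 (mem_of_mem_erase h6)
          rw [mem_coe, mem_fam, hRc]
          refine ⟨⟨fun e he => ?_, by simp, by simp⟩, ?_⟩
          · rw [mem_insert, mem_insert] at he
            rcases he with rfl | rfl | he
            · rw [Nat.mod_eq_of_lt (by omega)]; omega
            · rw [Nat.mod_eq_of_lt (by omega)]; omega
            · have h6 := mem_of_mem_erase he
              exact ⟨(h1 e h6).1, fun h7 => ne_of_mem_erase he ((h1 e h6).2 h7)⟩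
          · rw [sum_insert n4, sum_insert n3]
            have := sum_erase_add (f := fun e => e) _ h2
            omega
        · intro S hS
          obtain ⟨⟨h1, h2, h3⟩, hs⟩ := mem_fam.1 (mem_coe.1 hS)
          rw [hRc] at h1
          have n3 : 3 ∉ S := fun h6 => (h1 3 h6).2 h3M
          have n4 : 3 ∉ (S.erase 1).erase 2 :=
            fun h6 => n3 (mem_of_mem_erase (mem_of_mem_erase h6))
          rw [mem_coe, mem_fam, hKc]
          refine ⟨⟨⟨fun e he => ?_, ?_, ?_, ?_⟩, by simp⟩, ?_⟩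
          · rw [mem_insert] at he
            rcases he with rfl | he
            · exact ⟨by norm_num, fun _ => rfl⟩
            · have h6 := h1 e (mem_of_mem_erase (mem_of_mem_erase he))
              exact ⟨h6.1, fun h7 => absurd h7 h6.2⟩
          · simp
          · simp
          · simp
          · rw [sum_insert n4]
            have h6 := sum_erase_add (f := fun e => e) _ h2
            have h7 : 2 ∈ S.erase 1 := mem_erase.2 ⟨by norm_num, h3⟩
            have h8 := sum_erase_add (f := fun e => e) _ h7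
            omega
        · intro S hS
          obtain ⟨⟨h1, h2⟩, hs⟩ := mem_fam.1 (mem_coe.1 hS)
          rw [hKc] at h1
          obtain ⟨h1, h3, h4, h5⟩ := h1
          have n1 : 1 ∉ S := fun h6 => h4 ⟨h6, h2⟩
          have n2 : 2 ∉ S := fun h6 => h5 ⟨h6, h2⟩
          have n3 : 2 ∉ S.erase 3 := fun h6 => n2 (mem_of_mem_erase h6)
          have n4 : 1 ∉ insert 2 (S.erase 3) := by
            rw [mem_insert]
            rintro (h6 | h6)
            · omega
            · exact n1 (mem_of_mem_erase h6)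
          show insert 3 (((insert 1 (insert 2 (S.erase 3))).erase 1).erase 2) = S
          rw [erase_insert n4, erase_insert n3, insert_erase h2]
        · intro S hS
          obtain ⟨⟨h1, h2, h3⟩, hs⟩ := mem_fam.1 (mem_coe.1 hS)
          rw [hRc] at h1
          have n3 : 3 ∉ S := fun h6 => (h1 3 h6).2 h3M
          have n4 : 3 ∉ (S.erase 1).erase 2 :=
            fun h6 => n3 (mem_of_mem_erase (mem_of_mem_erase h6))
          have h7 : 2 ∈ S.erase 1 := mem_erase.2 ⟨by norm_num, h3⟩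
          show insert 1 (insert 2 ((insert 3 ((S.erase 1).erase 2)).erase 3)) = S
          rw [erase_insert n4, insert_erase h7, insert_erase h2]
      omega
    have e5 := sol_cnt h n
    change cnt (fun S => W S ∧ ∃ e ∈ S, Kc M N e) n =
      cnt (fun S => W S ∧ ¬ Adm (fun x => b (x : ZMod M)) (fun e => e ∉ C) S) n
    omega

end Pool.Agent.H38.DO
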