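import Pool.Agent.H38.DO.BlockA

/-! The missing class of `3`: the cases `N = M + 3` and `N ≥ 3 M + 3`. -/

open Finset

namespace Pool.Agent.H38.DO

open Pool.Agent.H38.DP

namespace KCtx

variable {M N : ℕ} {gb : ℕ → ℕ} {E X : ℕ → Prop} {W : Finset ℕ → Prop}
  (h : KCtx M N gb E X W)
include h

lemma small {S : Finset ℕ} (hS : W S) (h4 : ∑ e ∈ S, e ≤ 4) (h0 : 0 < ∑ e ∈ S, e) :
    S = {∑ e ∈ S, e} := by
  classical
  obtain ⟨h1, h2, h3, h5⟩ := (h.hW S).1 hS
  have hle : ∀ x ∈ S, ∀ z ∈ S, z < x → False := by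
    intro x hx z hz hzx
    have h6 : ({x, z} : Finset ℕ) ⊆ S := by
      intro t ht
      rw [mem_insert, mem_singleton] at ht
      rcases ht with rfl | rfl
      · exact hx
      · exact hz
    have h7 := sum_le_sum_of_subset (f := fun e => e) h6
    rw [sum_pair' hzx] at h7
    have h8 := (h1 z hz).1
    have h9 : z = 1 := by omega
    subst h9
    have h10 : x = 2 ∨ x = 3 := by omega
    rcases h10 with rfl | rfl
    · exact h2 ⟨hz, hx⟩
    · exact h3 ⟨hz, hx⟩
  rcases S.eq_empty_or_nonempty with rfl | ⟨x, hx⟩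
  · simp at h0
  · have h6 : S = {x} := by
      apply subset_antisymm
      · intro t ht
        rw [mem_singleton]
        rcases Nat.lt_trichotomy t x with h7 | h7 | h7
        · exact (hle x hx t ht h7).elim
        · exact h7
        · exact (hle t ht x hx h7).elim
      · exact singleton_subset_iff.2 hx
    rw [h6, sum_singleton]

lemma q_small {k : ℕ} (h0 : 0 < k) (h4 : k ≤ 4) (hXk : ¬ X k) : cnt W k = 1 := by
  classical
  rw [cnt_eq, card_eq_one]
  refine ⟨{k}, ?_⟩
  ext S
  rw [mem_fam, mem_singleton]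
  constructor
  · rintro ⟨h1, h2⟩
    have := h.small h1 (by omega) (by omega)
    rw [h2] at this
    exact this
  · rintro rfl
    exact ⟨h.W1 k h0 hXk, by simp⟩

/-- the case of large `N` -/
lemma large3 (hN : 2 * M + 3 < N) : False := by
  have hM := h.hM
  have h1 := h.toCtx.pair_lt (x := M + 2) (z := M + 1) (by omega) (by omega) (by omega)
    (by rw [h.hX, mod_sub_of (by omega) (by omega)]; omega)
    (by rw [h.hX, mod_sub_of (by omega) (by omega)]; omega) (by omega)
  have h2 : gb (M + 2) = gb 2 := by rw [add_comm]; exact h.per 2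
  have := h.g2
  omega

lemma mod3 (hN4 : 4 ≤ N) : N = M + 3 ∨ N = 2 * M + 3 ∨ 2 * M + 3 < N := by
  have hM := h.hM
  have h1 := h.hNm
  rcases Nat.lt_or_ge N M with h2 | h2
  · rw [Nat.mod_eq_of_lt h2] at h1
    omega
  · rcases Nat.lt_or_ge N (2 * M) with h3 | h3
    · rw [mod_sub_of h2 h3] at h1
      omega
    · rcases Nat.lt_or_ge N (3 * M) with h4 | h4
      · rw [mod_sub_of2 h3 h4] at h1
        omega
      · omega

/-- no exceptions if `N = M + 3` -/
lemma noX (hN : N = M + 3) (e : ℕ) : ¬ X e := by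
  have hM := h.hM
  rw [h.hX]
  rintro ⟨h1, h2, h3⟩
  rcases Nat.lt_or_ge e M with h4 | h4
  · rw [Nat.mod_eq_of_lt h4] at h2
    omega
  · rw [mod_sub_of h4 (by omega)] at h2
    omega

/-- first pair with a small number -/
lemma small_y {x0 y0 : ℕ} (hN : N = M + 3) (hy : 0 < y0) (hy4 : y0 < 4) (hs : x0 + y0 = N)
    (hlt : x0 < y0 + gb x0) : False := by
  have hM := h.hM
  have hnX := h.noX hN
  have h1 := h.toCtx.Req_ub (s := 5 - y0) (by omega)
  have h2 := h.EQ (N + (5 - y0))
  have h3 := h.toCtx.q_zero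
  have h4 := h.q_small (k := 1) (by norm_num) (by norm_num) (hnX 1)
  have h5 := h.q_small (k := 5 - y0) (by omega) (by omega) (hnX _)
  have h6 := LB (W := W) (P := fun S => W S ∧ ¬ Adm gb E S) (N + (5 - y0)) 1
    [({x0, 5}, 0), ({x0, 4}, 1)] (by simp) ?_
  · simp only [List.map_cons, List.map_nil, List.sum_cons, List.sum_nil] at h6
    omega
  · intro p hp
    simp only [List.mem_cons, List.not_mem_nil, or_false] at hp
    rcases hp with rfl | rfl
    · refine ⟨by simp only; rw [sum_pair' (by omega)]; omega, by simp, fun j hj => ?_,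
        fun Q hQ _ => h.toCtx.bad_of (fun j hj => ⟨?_, hnX j⟩)
          (pair_bad (x := x0) (y := 5) (by omega) (by omega) (by simp) (by simp)) hQ⟩
      · simp only [mem_insert, mem_singleton] at hj
        omega
      · simp only [mem_insert, mem_singleton] at hj
        omega
    · refine ⟨by simp only; rw [sum_pair' (by omega)]; omega, by simp, fun j hj => ?_,
        fun Q hQ _ => h.toCtx.bad_of (fun j hj => ⟨?_, hnX j⟩)
          (pair_bad (x := x0) (y := 4) (by omega) (by omega) (by simp) (by simp)) hQ⟩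
      · simp only [mem_insert, mem_singleton] at hj
        omega
      · simp only [mem_insert, mem_singleton] at hj
        omega

/-- the case of consecutive numbers -/
lemma consec {y : ℕ} (hN : N = M + 3) (hA : ACtx M N 3 y gb E X W) : False := by
  have hM := h.hM
  have hy := hA.hy
  have hNy := hA.hNy
  have hnX := h.noX hN
  have hgb : ∀ x, gb x ≤ M + 2 := by
    intro x
    obtain ⟨u, hu1, hu2, hu3⟩ := ACtx.rep (M := M) (by omega) x 4
    have := hA.pair_ok (x := u) (z := 1) (by omega) (by omega) (by omega) (hnX u) (hnX 1)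
      (by omega) (by omega)
    rw [ACtx.gb_mod h.per hu3]
    omega
  have hbig : ∀ J, It W gb E (y + 1) y J → ∑ e ∈ J, e ≤ 3 * y + 2 →
      ∀ j ∈ J, 3 < j ∧ ∀ e, X e → e < j := by
    intro J hJ hs j hj
    refine ⟨?_, fun e he => absurd he (hnX e)⟩
    have hge := hA.NB_ge hJ.NB
    rcases item_form hJ.1 with ⟨h1, _⟩ | ⟨x, z, hzx, hEx, hEz, hlt, hJe, hs'⟩
    · rw [h1, mem_singleton] at hj
      omega
    · have h1 := hgb x
      rw [hJe, mem_insert, mem_singleton] at hj
      omega
  obtain ⟨J1, J2, hJ⟩ := hA.AJ_exists (fun J hJ hs j hj => (hbig J hJ hs j hj).1)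
  obtain ⟨b1, b2⟩ := hA.AJ_big hJ (by omega) hbig
  have hub := hA.NR_ub2 (s := y - 1) (t := 1) (by omega) (by omega) (by omega)
  have htr := hA.trans (n := 3 * y + 1 + (y - 1)) (by omega)
  have hq0 := h.toCtx.q_zero
  have hg2 : gb (2 * y) = gb 2 := by
    rw [show 2 * y = 2 + M by omega]; exact h.per 2
  have hg3 : gb (2 * y + 1) = gb 3 := by
    rw [show 2 * y + 1 = 3 + M by omega]; exact h.per 3
  have h2 := h.g2
  have h3 := h.g3
  have hlb := LB (W := W) (P := NB W gb E (y + 1) y) (3 * y + 1 + (y - 1)) (y - 1)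
    [(J1, y - 1), (J2, y - 1 - 1), ({2 * y, 2 * y - 1}, 1), ({2 * y + 1, 2 * y - 1}, 0)]
    (by simp; omega) ?_
  · simp only [List.map_cons, List.map_nil, List.sum_cons, List.sum_nil] at hlb
    omega
  · intro p hp
    simp only [List.mem_cons, List.not_mem_nil, or_false] at hp
    rcases hp with rfl | rfl | rfl | rfl
    · exact ⟨by simp only [hJ.s1], le_rfl, fun j hj => by have := b1 j hj; omega,
        hA.It_fam hJ.i1 (fun j hj => by have := b1 j hj; omega) (by omega)⟩
    · exact ⟨by simp only [hJ.s2]; omega, by simp, fun j hj => by have := b2 j hj; omega,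
        hA.It_fam hJ.i2 (fun j hj => by have := b2 j hj; omega) (by simp only; omega)⟩
    · refine ⟨by simp only; rw [sum_pair' (by omega)]; omega, by simp only; omega,
        fun j hj => ?_, h.toCtx.fam_pair (by omega) ⟨by omega, hnX _⟩ ⟨by omega, hnX _⟩
          (by omega) (by omega) (by omega) (by simp only; omega)⟩
      simp only [mem_insert, mem_singleton] at hj
      omega
    · refine ⟨by simp only; rw [sum_pair' (by omega)]; omega, by simp only; omega,
        fun j hj => ?_, h.toCtx.fam_pair (by omega) ⟨by omega, hnX _⟩ ⟨by omega, hnX _⟩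
          (by omega) (by omega) (by omega) (by simp only; omega)⟩
      simp only [mem_insert, mem_singleton] at hj
      omega

/-- the case `N = M + 3` -/
lemma case1 (hN : N = M + 3) : False := by
  have hM := h.hM
  have hnX := h.noX hN
  obtain ⟨x0, y0, hy, hyx, hs, hW, hlt, -⟩ := h.toCtx.first
  rcases Nat.lt_or_ge y0 4 with h1 | h1
  · exact h.small_y hN hy h1 hs hlt
  · by_cases h2 : x0 = y0 + 1
    · subst h2
      have hA : ACtx M N 3 y0 gb E X W :=
        { toCtx := h.toCtx, hy := by omega, hNy := by omega, hτ := by omega, Xy := hnX _,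
          Xy1 := hnX _, gy := by omega, hns := by omega }
      exact h.consec hN hA
    · exact h.toCtx.step1 (by omega) (by omega) hyx hs (hnX _) (hnX _) hlt h2 (hnX _)

end KCtx

end Pool.Agent.H38.DO
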