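import Pool.Agent.H38.DO.BlockB

/-! The missing class of `3`: the case `N = 2 M + 3`. -/

open Finset

namespace Pool.Agent.H38.DO

open Pool.Agent.H38.DP

/-- the setting -/
structure DCtx (M : ℕ) (gb : ℕ → ℕ) (E X : ℕ → Prop) (W : Finset ℕ → Prop) : Prop
    extends KCtx M (2 * M + 3) gb E X W

namespace DCtx

variable {M : ℕ} {gb : ℕ → ℕ} {E X : ℕ → Prop} {W : Finset ℕ → Prop}
  (h : DCtx M gb E X W)
include h

lemma nX {e : ℕ} (he : e ≠ M + 3) : ¬ X e := by
  have hM := h.hM
  rw [h.hX]
  rintro ⟨h1, h2, h3⟩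
  rcases Nat.lt_or_ge e M with h4 | h4
  · rw [Nat.mod_eq_of_lt h4] at h2
    omega
  · rcases Nat.lt_or_ge e (2 * M) with h5 | h5
    · rw [mod_sub_of h4 h5] at h2
      omega
    · rw [mod_sub_of2 h5 (by omega)] at h2
      omega

lemma X3 : X (M + 3) := by
  have hM := h.hM
  rw [h.hX, mod_sub_of (by omega) (by omega)]
  omega

lemma gM2 : M + 2 < M + 1 + gb (M + 2) := by
  have h2 : gb (M + 2) = gb 2 := by rw [add_comm]; exact h.per 2
  have := h.g2
  omega

lemma trans {n : ℕ} (hn : n < 4 * M + 6) :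
    cnt (NB W gb E (M + 2) (M + 1)) n = cnt (NR W M (2 * M + 3) (M + 2) (M + 1)) n := by
  have hM := h.hM
  exact h.toCtx.transfer ⟨by omega, h.nX (by omega)⟩ ⟨by omega, h.nX (by omega)⟩ (by omega)
    (by omega) h.gM2 (by omega)

lemma NR_cases {S : Finset ℕ} (hS : NR W M (2 * M + 3) (M + 2) (M + 1) S)
    (hn : ∑ e ∈ S, e < 5 * M) :
    ({3 * M + 3} : Finset ℕ) ⊆ S ∨ ({2 * M + 3, M + 1} : Finset ℕ) ⊆ S ∨
      ({2 * M + 3, M + 2} : Finset ℕ) ⊆ S ∨ ({4 * M + 3} : Finset ℕ) ⊆ S := by
  obtain ⟨hW, ⟨e, he, hKe⟩, hN⟩ := hS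
  have h1 := le_sum_of_mem he
  have hM := h.hM
  rcases Ctx.Kc_three (M := M) (by omega) hKe (by omega) with rfl | h2 | h2
  · rcases hN he with h2 | h2
    · right; right; left
      intro z hz
      rw [mem_insert, mem_singleton] at hz
      rcases hz with rfl | rfl
      · exact he
      · exact h2
    · right; left
      intro z hz
      rw [mem_insert, mem_singleton] at hz
      rcases hz with rfl | rfl
      · exact he
      · exact h2
  · left
    rw [show 3 * M + 3 = e by omega]
    exact singleton_subset_iff.2 he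
  · right; right; right
    rw [show 4 * M + 3 = e by omega]
    exact singleton_subset_iff.2 he

lemma s1 : ∑ e ∈ ({2 * M + 3, M + 1} : Finset ℕ), e = 3 * M + 4 := by
  have := h.hM
  rw [sum_pair' (by omega)]
  omega

lemma s2 : ∑ e ∈ ({2 * M + 3, M + 2} : Finset ℕ), e = 3 * M + 5 := by
  have := h.hM
  rw [sum_pair' (by omega)]
  omega

lemma NB_ge {S : Finset ℕ} (hS : NB W gb E (M + 2) (M + 1) S) : 3 * M + 3 ≤ ∑ e ∈ S, e := by
  by_contra hlt
  push Not at hlt
  have hM := h.hM
  have h1 : 0 < cnt (NB W gb E (M + 2) (M + 1)) (∑ e ∈ S, e) := cnt_pos_iff.2 ⟨S, hS, rfl⟩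
  rw [h.trans (by omega)] at h1
  obtain ⟨T, hT, hs⟩ := cnt_pos_iff.1 h1
  rcases h.NR_cases hT (by omega) with h2 | h2 | h2 | h2
  · have := sum_le_sum_of_subset (f := fun e => e) h2
    rw [sum_singleton] at this
    omega
  · have := sum_le_sum_of_subset (f := fun e => e) h2
    rw [h.s1] at this
    omega
  · have := sum_le_sum_of_subset (f := fun e => e) h2
    rw [h.s2] at this
    omega
  · have := sum_le_sum_of_subset (f := fun e => e) h2
    rw [sum_singleton] at this
    omega

/-- upper bound for the required sets -/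
lemma NR_ub4 : cnt (NR W M (2 * M + 3) (M + 2) (M + 1)) (3 * M + 7) ≤
      cnt W 4 + (cnt W 3 + cnt W 2) := by
  have hM := h.hM
  have := UB (W := W) (P := NR W M (2 * M + 3) (M + 2) (M + 1)) (3 * M + 7)
    [({3 * M + 3}, 4), ({2 * M + 3, M + 1}, 3), ({2 * M + 3, M + 2}, 2)] h.Wsub
    (fun S hS => hS.1) ?_ ?_
  · simpa using this
  · intro p hp
    simp only [List.mem_cons, List.not_mem_nil, or_false] at hp
    rcases hp with rfl | rfl | rfl
    · simp only [sum_singleton]
    · simp only [h.s1]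
    · simp only [h.s2]
  · intro S hS hsum
    rcases h.NR_cases hS (by omega) with h2 | h2 | h2 | h2
    · exact ⟨_, List.mem_cons_self, h2⟩
    · exact ⟨({2 * M + 3, M + 1}, 3), by simp, h2⟩
    · exact ⟨({2 * M + 3, M + 2}, 2), by simp, h2⟩
    · have := sum_le_sum_of_subset (f := fun e => e) h2
      rw [sum_singleton] at this
      omega

lemma NR_ubL : cnt (NR W M (2 * M + 3) (M + 2) (M + 1)) (4 * M + 4) ≤
      cnt W (M + 1) + (cnt W M + (cnt W (M - 1) + cnt W 1)) := by
  have hM := h.hM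
  have := UB (W := W) (P := NR W M (2 * M + 3) (M + 2) (M + 1)) (4 * M + 4)
    [({3 * M + 3}, M + 1), ({2 * M + 3, M + 1}, M), ({2 * M + 3, M + 2}, M - 1),
      ({4 * M + 3}, 1)] h.Wsub (fun S hS => hS.1) ?_ ?_
  · simpa using this
  · intro p hp
    simp only [List.mem_cons, List.not_mem_nil, or_false] at hp
    rcases hp with rfl | rfl | rfl | rfl
    · simp only [sum_singleton]
      omega
    · simp only [h.s1]
      omega
    · simp only [h.s2]
      omega
    · simp only [sum_singleton]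
  · intro S hS hsum
    rcases h.NR_cases hS (by omega) with h2 | h2 | h2 | h2
    · exact ⟨_, List.mem_cons_self, h2⟩
    · exact ⟨({2 * M + 3, M + 1}, M), by simp, h2⟩
    · exact ⟨({2 * M + 3, M + 2}, M - 1), by simp, h2⟩
    · exact ⟨({4 * M + 3}, 1), by simp, h2⟩

lemma NR_mem {J : Finset ℕ} {s : ℕ} (hJ : ∀ j ∈ J, 3 < j ∧ j ≠ M + 3)
    (hK : ∃ e ∈ J, Kc M (2 * M + 3) e) (hx : 2 * M + 3 ∈ J → M + 2 ∈ J ∨ M + 1 ∈ J)
    (hs : s < 2 * M) : ∀ Q, W Q → ∑ e ∈ Q, e = s →
    NR W M (2 * M + 3) (M + 2) (M + 1) (J ∪ Q) := by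
  intro Q hQ hQs
  exact h.toCtx.NR_of (fun j hj => ⟨(hJ j hj).1, h.nX (hJ j hj).2⟩) hK hQ hx (by omega)

omit h in
lemma K3 : Kc M (2 * M + 3) (3 * M + 3) := by
  have := Ctx.Kc_M (M := M) (N := 2 * M + 3)
  rwa [show 2 * M + 3 + M = 3 * M + 3 by ring] at this

lemma NR_0 : cnt (NR W M (2 * M + 3) (M + 2) (M + 1)) (3 * M + 3) = 1 := by
  have hM := h.hM
  have hq0 := h.toCtx.q_zero
  apply le_antisymm
  · have := UB (W := W) (P := NR W M (2 * M + 3) (M + 2) (M + 1)) (3 * M + 3)
      [({3 * M + 3}, 0)] h.Wsub (fun S hS => hS.1) (by simp) ?_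
    · simpa [hq0] using this
    · intro S hS hsum
      rcases h.NR_cases hS (by omega) with h2 | h2 | h2 | h2
      · exact ⟨_, List.mem_cons_self, h2⟩
      · have := sum_le_sum_of_subset (f := fun e => e) h2
        rw [h.s1] at this
        omega
      · have := sum_le_sum_of_subset (f := fun e => e) h2
        rw [h.s2] at this
        omega
      · have := sum_le_sum_of_subset (f := fun e => e) h2
        rw [sum_singleton] at this
        omega
  · rw [Nat.one_le_iff_ne_zero, ← Nat.pos_iff_ne_zero]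
    refine cnt_pos_iff.2 ⟨{3 * M + 3} ∪ ∅, ?_, by rw [union_empty, sum_singleton]⟩
    exact h.NR_mem (J := {3 * M + 3}) (s := 0) (by
      intro j hj
      rw [mem_singleton] at hj
      omega) ⟨3 * M + 3, by simp, K3⟩ (fun hj => by rw [mem_singleton] at hj; omega)
      (by omega) ∅ h.W0 (by simp)

lemma q1 : cnt W 1 = 1 := h.q_small (by norm_num) (by norm_num)
  (h.nX (by have := h.hM; omega))

lemma q2 : cnt W 2 = 1 := h.q_small (by norm_num) (by norm_num)
  (h.nX (by have := h.hM; omega))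

lemma q3 : cnt W 3 = 1 := h.q_small (by norm_num) (by norm_num)
  (h.nX (by have := h.hM; omega))

lemma q4 : cnt W 4 = 1 := h.q_small (by norm_num) (by norm_num)
  (h.nX (by have := h.hM; omega))

lemma NR_1 : 2 ≤ cnt (NR W M (2 * M + 3) (M + 2) (M + 1)) (3 * M + 4) := by
  have hM := h.hM
  have hq0 := h.toCtx.q_zero
  have hq1 := h.q1
  have := LB (W := W) (P := NR W M (2 * M + 3) (M + 2) (M + 1)) (3 * M + 4) 1
    [({3 * M + 3}, 1), ({2 * M + 3, M + 1}, 0)] (by simp) ?_
  · simpa [hq0, hq1] using this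
  · intro p hp
    simp only [List.mem_cons, List.not_mem_nil, or_false] at hp
    rcases hp with rfl | rfl
    · refine ⟨by simp, by simp, fun j hj => ?_, h.NR_mem (fun j hj => ?_)
        ⟨3 * M + 3, by simp, K3⟩ (fun hj => ?_) (by simp only; omega)⟩
      · simp only [mem_singleton] at hj
        omega
      · simp only [mem_singleton] at hj
        omega
      · simp only [mem_singleton] at hj
        omega
    · refine ⟨by simp only [h.s1, add_zero], by simp, fun j hj => ?_,
        h.NR_mem (fun j hj => ?_) ⟨2 * M + 3, by simp, Ctx.Kc_self⟩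
        (fun _ => Or.inr (by simp)) (by simp only; omega)⟩
      · simp only [mem_insert, mem_singleton] at hj
        omega
      · simp only [mem_insert, mem_singleton] at hj
        omega

lemma NR_2 : 3 ≤ cnt (NR W M (2 * M + 3) (M + 2) (M + 1)) (3 * M + 5) := by
  have hM := h.hM
  have hq0 := h.toCtx.q_zero
  have hq1 := h.q1
  have hq2 := h.q2
  have := LB (W := W) (P := NR W M (2 * M + 3) (M + 2) (M + 1)) (3 * M + 5) 2
    [({3 * M + 3}, 2), ({2 * M + 3, M + 1}, 1), ({2 * M + 3, M + 2}, 0)] (by simp) ?_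
  · simpa [hq0, hq1, hq2] using this
  · intro p hp
    simp only [List.mem_cons, List.not_mem_nil, or_false] at hp
    rcases hp with rfl | rfl | rfl
    · refine ⟨by simp, by simp, fun j hj => ?_, h.NR_mem (fun j hj => ?_)
        ⟨3 * M + 3, by simp, K3⟩ (fun hj => ?_) (by simp only; omega)⟩
      · simp only [mem_singleton] at hj
        omega
      · simp only [mem_singleton] at hj
        omega
      · simp only [mem_singleton] at hj
        omega
    · refine ⟨by simp only [h.s1], by simp, fun j hj => ?_,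
        h.NR_mem (fun j hj => ?_) ⟨2 * M + 3, by simp, Ctx.Kc_self⟩
        (fun _ => Or.inr (by simp)) (by simp only; omega)⟩
      · simp only [mem_insert, mem_singleton] at hj
        omega
      · simp only [mem_insert, mem_singleton] at hj
        omega
    · refine ⟨by simp only [h.s2, add_zero], by simp, fun j hj => ?_,
        h.NR_mem (fun j hj => ?_) ⟨2 * M + 3, by simp, Ctx.Kc_self⟩
        (fun _ => Or.inl (by simp)) (by simp only; omega)⟩
      · simp only [mem_insert, mem_singleton] at hj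
        omega
      · simp only [mem_insert, mem_singleton] at hj
        omega

/-- the gaps in the classes different from `2` and `3` -/
lemma gb_one {x : ℕ} (hx2 : x % M ≠ 2) (hx3 : x % M ≠ 3) : gb x ≤ 1 := by
  have hM := h.hM
  have hlt := Nat.mod_lt x (show 0 < M by omega)
  rcases Nat.lt_or_ge (x % M) 2 with h1 | h1
  · have h2 := h.toCtx.pair_lt (x := M + x % M) (z := M + x % M - 1) (by omega) (by omega)
      (by omega) (h.nX (by omega)) (h.nX (by omega)) (by omega)
    have h3 : gb x = gb (M + x % M) := ACtx.gb_mod h.per (by rw [Nat.add_mod_left, Nat.mod_mod])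
    omega
  · have h2 := h.toCtx.pair_lt (x := x % M) (z := x % M - 1) (by omega) (by omega)
      (by omega) (h.nX (by omega)) (h.nX (by omega)) (by omega)
    have h3 : gb x = gb (x % M) := ACtx.gb_mod h.per (by rw [Nat.mod_mod])
    omega

lemma gb_two {x : ℕ} (hx : x % M = 2) : gb x ≤ 2 := by
  have hM := h.hM
  have h1 := h.toCtx.pair_lt (x := M + 2) (z := M) (by omega) (by omega) (by omega)
    (h.nX (by omega)) (h.nX (by omega)) (by omega)
  have h2 : gb x = gb (M + 2) := ACtx.gb_mod h.per (by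
    have := mod_sub_of (M := M) (x := M + 2) (by omega) (by omega)
    omega)
  omega

/-- the possible items -/
lemma items {J : Finset ℕ} (hJ : It W gb E (M + 2) (M + 1) J) (h1 : 3 * M + 3 ≤ ∑ e ∈ J, e)
    (h2 : ∑ e ∈ J, e ≤ 3 * M + 5) : (J = {∑ e ∈ J, e} ∧ ¬ E (∑ e ∈ J, e)) ∨
      (∃ z, ∑ e ∈ J, e = 2 * M + 3 + z ∧ J = {2 * M + 3, z} ∧
        2 * M + 3 < z + gb (2 * M + 3)) ∨
      (3 * M + 4 ≤ ∑ e ∈ J, e ∧ E (3 * M + 3)) := by
  have hM := h.hM
  rcases item_form hJ.1 with h3 | ⟨x, z, hzx, hEx, hEz, hlt, hJe, hs⟩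
  · exact Or.inl h3
  · right
    have hz := h.Wpos J hJ.2.1 z (by rw [hJe]; simp)
    rcases Nat.lt_or_ge x (2 * M) with h4 | h4
    · exfalso
      have h5 := mod_sub_of (M := M) (x := x) (by omega) h4
      have := h.gb_one (x := x) (by omega) (by omega)
      omega
    · rcases Nat.lt_or_ge x (3 * M) with h5 | h5
      · have h6 := mod_sub_of2 (M := M) (x := x) h4 h5
        by_cases h7 : x % M = 3
        · left
          have h9 : x = 2 * M + 3 := by omega
          subst h9
          exact ⟨z, hs, hJe, hlt⟩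
        · by_cases h8 : x % M = 2
          · have := h.gb_two h8
            omega
          · have := h.gb_one h8 h7
            omega
      · right
        have h6 : x % M = x - 3 * M := by
          rw [Nat.mod_eq_sub_mod (by omega), mod_sub_of2 (by omega) (by omega)]
          omega
        by_cases h7 : x % M = 3
        · have h9 : x = 3 * M + 3 := by omega
          subst h9
          exact ⟨by omega, hEx⟩
        · by_cases h8 : x % M = 2
          · have := h.gb_two h8
            omega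
          · have := h.gb_one h8 h7
            omega

/-- the general contradiction -/
lemma dead4 (J1 J2 J3 : Finset ℕ) (t1 : ∑ e ∈ J1, e = 3 * M + 3)
    (t2 : ∑ e ∈ J2, e = 3 * M + 4) (t3 : ∑ e ∈ J3, e = 3 * M + 5)
    (b1 : ∀ j ∈ J1, 4 < j) (b2 : ∀ j ∈ J2, 4 < j) (b3 : ∀ j ∈ J3, 4 < j)
    (f1 : ∀ Q, W Q → ∑ e ∈ Q, e = 4 → NB W gb E (M + 2) (M + 1) (J1 ∪ Q))
    (f2 : ∀ Q, W Q → ∑ e ∈ Q, e = 3 → NB W gb E (M + 2) (M + 1) (J2 ∪ Q))
    (f3 : ∀ Q, W Q → ∑ e ∈ Q, e = 2 → NB W gb E (M + 2) (M + 1) (J3 ∪ Q))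
    (hg : 2 * M + 3 < M + 4 + gb (2 * M + 3)) : False := by
  have hM := h.hM
  have h1 := h.NR_ub4
  have h2 := h.trans (n := 3 * M + 7) (by omega)
  have h3 := h.toCtx.q_zero
  have h5 := LB (W := W) (P := NB W gb E (M + 2) (M + 1)) (3 * M + 7) 4
    [(J1, 4), (J2, 3), (J3, 2), ({2 * M + 3, M + 4}, 0)] (by simp) ?_
  · simp only [List.map_cons, List.map_nil, List.sum_cons, List.sum_nil] at h5
    omega
  · intro p hp'
    simp only [List.mem_cons, List.not_mem_nil, or_false] at hp'
    rcases hp' with rfl | rfl | rfl | rfl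
    · exact ⟨by simp only [t1], le_rfl, b1, f1⟩
    · exact ⟨by simp only [t2], by simp, b2, f2⟩
    · exact ⟨by simp only [t3], by simp, b3, f3⟩
    · refine ⟨by simp only; rw [sum_pair' (by omega)]; omega, by simp, fun j hj => ?_,
        h.toCtx.fam_pair (by omega) ⟨by omega, h.nX (by omega)⟩ ⟨by omega, h.nX (by omega)⟩
          (by omega) (by omega) (by omega) (by simp only; omega)⟩
      simp only [mem_insert, mem_singleton] at hj
      omega

lemma fp {z t : ℕ} (hz1 : M ≤ z) (hz2 : z ≤ M + 2) (ht : t ≤ 4)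
    (hg : 2 * M + 3 < z + gb (2 * M + 3)) : ∀ Q, W Q → ∑ e ∈ Q, e = t →
    NB W gb E (M + 2) (M + 1) ({2 * M + 3, z} ∪ Q) := by
  have hM := h.hM
  exact h.toCtx.fam_pair (by omega) ⟨by omega, h.nX (by omega)⟩ ⟨by omega, h.nX (by omega)⟩
          hg (by omega) (by omega) (by omega)

lemma fs {e t : ℕ} (he : 3 * M ≤ e) (ht : t ≤ 4) (hE : ¬ E e) : ∀ Q, W Q → ∑ e ∈ Q, e = t →
    NB W gb E (M + 2) (M + 1) ({e} ∪ Q) := by
  have hM := h.hM
  exact h.toCtx.fam_single ⟨by omega, h.nX (by omega)⟩ hE (by omega) (by omega)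

lemma dead_a (hg : 2 * M + 3 < M + gb (2 * M + 3)) : False := by
  have hM := h.hM
  refine h.dead4 {2 * M + 3, M} {2 * M + 3, M + 1} {2 * M + 3, M + 2} ?_ h.s1 h.s2
    (fun j hj => ?_) (fun j hj => ?_) (fun j hj => ?_)
    (h.fp (by omega) (by omega) (by omega) hg)
    (h.fp (by omega) (by omega) (by omega) (by omega))
    (h.fp (by omega) (by omega) (by omega) (by omega)) (by omega)
  · rw [sum_pair' (by omega)]
    omega
  · rw [mem_insert, mem_singleton] at hj
    omega
  · rw [mem_insert, mem_singleton] at hj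
    omega
  · rw [mem_insert, mem_singleton] at hj
    omega

lemma dead_b (hE1 : ¬ E (3 * M + 3)) (hg : 2 * M + 3 < M + 1 + gb (2 * M + 3)) : False := by
  have hM := h.hM
  refine h.dead4 {3 * M + 3} {2 * M + 3, M + 1} {2 * M + 3, M + 2} (by simp) h.s1 h.s2
    (fun j hj => ?_) (fun j hj => ?_) (fun j hj => ?_)
    (h.fs (by omega) (by omega) hE1)
    (h.fp (by omega) (by omega) (by omega) (by omega))
    (h.fp (by omega) (by omega) (by omega) (by omega)) (by omega)
  · rw [mem_singleton] at hj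
    omega
  · rw [mem_insert, mem_singleton] at hj
    omega
  · rw [mem_insert, mem_singleton] at hj
    omega

lemma dead_c (hE1 : ¬ E (3 * M + 3)) (hE2 : ¬ E (3 * M + 4))
    (hg : 2 * M + 3 < M + 2 + gb (2 * M + 3)) : False := by
  have hM := h.hM
  refine h.dead4 {3 * M + 3} {3 * M + 4} {2 * M + 3, M + 2} (by simp) (by simp) h.s2
    (fun j hj => ?_) (fun j hj => ?_) (fun j hj => ?_)
    (h.fs (by omega) (by omega) hE1)
    (h.fs (by omega) (by omega) hE2)
    (h.fp (by omega) (by omega) (by omega) (by omega)) (by omega)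
  · rw [mem_singleton] at hj
    omega
  · rw [mem_singleton] at hj
    omega
  · rw [mem_insert, mem_singleton] at hj
    omega

lemma dead_d (hE1 : ¬ E (3 * M + 3)) (hE2 : ¬ E (3 * M + 4)) (hE3 : ¬ E (3 * M + 5)) :
    False := by
  have hM := h.hM
  have h1 := h.NR_ubL
  have h2 := h.trans (n := 4 * M + 4) (by omega)
  have h3 := h.toCtx.q_zero
  have hg2 : gb (2 * M + 2) = gb 2 := by
    rw [show 2 * M + 2 = 2 + M + M by ring, h.per, h.per]
  have hg3 : gb (2 * M + 3) = gb 3 := by
    rw [show 2 * M + 3 = 3 + M + M by ring, h.per, h.per]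
  have g2 := h.g2
  have g3 := h.g3
  have key : ∀ J : Finset ℕ, (∀ j ∈ J, 2 * M < j) → ¬ Adm gb E J → ∀ Q, W Q →
      ∑ e ∈ Q, e ≤ M + 1 → NB W gb E (M + 2) (M + 1) (J ∪ Q) := by
    intro J hJ hna Q hQ hQs
    exact h.toCtx.NB_of' (x0 := M + 2) (y0 := M + 1)
      (fun j hj => ⟨by have := hJ j hj; omega, h.nX (by have := hJ j hj; omega)⟩) hna hQ
      (fun hx => by have := hJ _ hx; omega) (by omega)
  have h5 := LB (W := W) (P := NB W gb E (M + 2) (M + 1)) (4 * M + 4) (M + 1)
    [({3 * M + 3}, M + 1), ({3 * M + 4}, M), ({3 * M + 5}, M - 1),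
      ({2 * M + 2, 2 * M + 1}, 1), ({2 * M + 3, 2 * M + 1}, 0)] (by simp; omega) ?_
  · simp only [List.map_cons, List.map_nil, List.sum_cons, List.sum_nil] at h5
    omega
  · intro p hp'
    simp only [List.mem_cons, List.not_mem_nil, or_false] at hp'
    rcases hp' with rfl | rfl | rfl | rfl | rfl
    · refine ⟨by simp only [sum_singleton]; omega, le_rfl, fun j hj => ?_, fun Q hQ hQs =>
        key _ (fun j hj => ?_) (single_bad hE1) Q hQ (by simp only at hQs; omega)⟩
      · simp only [mem_singleton] at hj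
        omega
      · rw [mem_singleton] at hj
        omega
    · refine ⟨by simp only [sum_singleton]; omega, by simp only; omega, fun j hj => ?_,
        fun Q hQ hQs =>
        key _ (fun j hj => ?_) (single_bad hE2) Q hQ (by simp only at hQs; omega)⟩
      · simp only [mem_singleton] at hj
        omega
      · rw [mem_singleton] at hj
        omega
    · refine ⟨by simp only [sum_singleton]; omega, by simp only; omega, fun j hj => ?_,
        fun Q hQ hQs =>
        key _ (fun j hj => ?_) (single_bad hE3) Q hQ (by simp only at hQs; omega)⟩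
      · simp only [mem_singleton] at hj
        omega
      · rw [mem_singleton] at hj
        omega
    · refine ⟨by simp only; rw [sum_pair' (by omega)]; omega, by simp only; omega,
        fun j hj => ?_, fun Q hQ hQs =>
        key _ (fun j hj => ?_) (pair_bad (x := 2 * M + 2) (y := 2 * M + 1) (by omega)
          (by omega) (by simp) (by simp)) Q hQ (by simp only at hQs; omega)⟩
      · simp only [mem_insert, mem_singleton] at hj
        omega
      · rw [mem_insert, mem_singleton] at hj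
        omega
    · refine ⟨by simp only; rw [sum_pair' (by omega)]; omega, by simp only; omega,
        fun j hj => ?_, fun Q hQ hQs =>
        key _ (fun j hj => ?_) (pair_bad (x := 2 * M + 3) (y := 2 * M + 1) (by omega)
          (by omega) (by simp) (by simp)) Q hQ (by simp only at hQs; omega)⟩
      · simp only [mem_insert, mem_singleton] at hj
        omega
      · rw [mem_insert, mem_singleton] at hj
        omega

theorem case2 : False := by
  have hM := h.hM
  have hq0 := h.toCtx.q_zero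
  have hq1 := h.q1
  have hq2 := h.q2
  -- the item of sum `3 M + 3`
  obtain ⟨J1, i1, t1, u1⟩ : ∃ J1, It W gb E (M + 2) (M + 1) J1 ∧ ∑ e ∈ J1, e = 3 * M + 3 ∧
      ∀ J, It W gb E (M + 2) (M + 1) J → ∑ e ∈ J, e = 3 * M + 3 → J = J1 := by
    have h1 := h.trans (n := 3 * M + 3) (by omega)
    rw [h.NR_0, cnt_eq, card_eq_one] at h1
    obtain ⟨S, hS⟩ := h1
    have h2 : S ∈ fam (NB W gb E (M + 2) (M + 1)) (3 * M + 3) := by
      rw [hS]; exact mem_singleton_self S
    obtain ⟨h3, h4⟩ := mem_fam.1 h2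
    obtain ⟨J, hJS, hJ⟩ := h.toCtx.exists_It h3
    have h5 := h.NB_ge hJ.NB
    have h6 : J = S := eq_of_subset_sum hJS (fun x hx => (h.Wpos S h3.1 x hx).1) (by omega)
    subst h6
    refine ⟨J, hJ, h4, fun J' hJ' hs => ?_⟩
    have h7 : J' ∈ fam (NB W gb E (M + 2) (M + 1)) (3 * M + 3) := mem_fam.2 ⟨hJ'.NB, hs⟩
    rw [hS] at h7
    exact mem_singleton.1 h7
  rcases h.items i1 (by omega) (by omega) with ⟨h3, hE1⟩ | ⟨z, h3, _, h6⟩ | ⟨h3, _⟩
  · rw [t1] at h3 hE1
    -- items of sum `3 M + 4`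
    have hform : ∀ J, It W gb E (M + 2) (M + 1) J → ∑ e ∈ J, e = 3 * M + 4 →
        J = {3 * M + 4} ∧ ¬ E (3 * M + 4) := by
      intro J hJ hs
      rcases h.items hJ (by omega) (by omega) with ⟨h4, h5⟩ | ⟨z, h4, _, h6⟩ | ⟨_, h4⟩
      · rw [hs] at h4 h5
        exact ⟨h4, h5⟩
      · exact (h.dead_b hE1 (by omega)).elim
      · exact absurd h4 hE1
    have h1 := h.trans (n := 3 * M + 4) (by omega)
    have h2 := h.NR_1
    obtain ⟨J2, i2, t2, -⟩ := h.toCtx.new_item (x0 := M + 2) (y0 := M + 1) (n := 3 * M + 4)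
      [(J1, 1)] (fun J hJ hlt => ⟨(J1, 1), by simp, by
        have h5 := h.NB_ge hJ.NB
        rw [u1 J hJ (by omega)]⟩) (by simp [t1])
      (by simp only [List.map_cons, List.map_nil, List.sum_cons, List.sum_nil]; omega)
    obtain ⟨-, hE2⟩ := hform J2 i2 t2
    have h4 := h.trans (n := 3 * M + 5) (by omega)
    have h5 := h.NR_2
    obtain ⟨J3, i3, t3, -⟩ := h.toCtx.new_item (x0 := M + 2) (y0 := M + 1) (n := 3 * M + 5)
      [(J1, 2), ({3 * M + 4}, 1)] (fun J hJ hlt => by
        have h5 := h.NB_ge hJ.NB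
        by_cases h6 : ∑ e ∈ J, e = 3 * M + 3
        · exact ⟨(J1, 2), by simp, by rw [u1 J hJ h6]⟩
        · refine ⟨({3 * M + 4}, 1), by simp, ?_⟩
          rw [(hform J hJ (by omega)).1]) (by simp [t1])
      (by simp only [List.map_cons, List.map_nil, List.sum_cons, List.sum_nil]; omega)
    rcases h.items i3 (by omega) (by omega) with ⟨_, h6⟩ | ⟨z, h6, _, h7⟩ | ⟨_, h6⟩
    · rw [t3] at h6
      exact h.dead_d hE1 hE2 h6
    · exact h.dead_c hE1 hE2 (by omega)
    · exact hE1 h6
  · exact h.dead_a (by omega)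
  · omega

end DCtx

/-- conclusion for the missing class of `3` -/
theorem KCtx.False' {M N : ℕ} {gb : ℕ → ℕ} {E X : ℕ → Prop} {W : Finset ℕ → Prop}
    (h : KCtx M N gb E X W) (hN4 : 4 ≤ N) : False := by
  rcases h.mod3 hN4 with h1 | h1 | h1
  · exact h.case1 h1
  · subst h1
    have hD : DCtx M gb E X W := { toKCtx := h }
    exact hD.case2
  · exact h.large3 h1

end Pool.Agent.H38.DO
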