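import Pool.Agent.H38.DO.Fam

/-! The common setting: an equation between two counting functions. -/

open Finset

namespace Pool.Agent.H38.DO

open Pool.Agent.H38.DP

/-- the gap conditions, and no exceptions -/
def Adm (gb : ℕ → ℕ) (E : ℕ → Prop) (S : Finset ℕ) : Prop :=
  (∀ e ∈ S, E e) ∧ ∀ x ∈ S, ∀ y ∈ S, y < x → y + gb x ≤ x

/-- elements of the missing class, from `N` on -/
def Kc (M N e : ℕ) : Prop := N ≤ e ∧ e % M = N % M

/-- minimal forbidden sets: an exception, or a pair which is too close -/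
def Item (gb : ℕ → ℕ) (E : ℕ → Prop) (J : Finset ℕ) : Prop :=
  (∃ e, ¬ E e ∧ J = {e}) ∨ ∃ x y, y < x ∧ E x ∧ E y ∧ x < y + gb x ∧ J = {x, y}

/-- the setting -/
structure Ctx (M N τ : ℕ) (gb : ℕ → ℕ) (E X : ℕ → Prop) (W : Finset ℕ → Prop) : Prop where
  hM : 11 ≤ M
  per : ∀ x, gb (x + M) = gb x
  gpos : ∀ x, 0 < gb x
  Wsub : ∀ S T, S ⊆ T → W T → W S
  Wpos : ∀ S, W S → ∀ e ∈ S, 0 < e ∧ ¬ X e
  neu : ∀ e, τ < e → ¬ X e → ∀ S, W S → W (insert e S)
  W0 : W ∅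
  W1 : ∀ e, 0 < e → ¬ X e → W {e}
  XN : ∀ e, X e → e < N
  hN : τ < N
  EN : E N
  EQ : ∀ n, cnt (fun S => W S ∧ ∃ e ∈ S, Kc M N e) n = cnt (fun S => W S ∧ ¬ Adm gb E S) n

/-- bad sets not containing the first pair -/
def NB (W : Finset ℕ → Prop) (gb : ℕ → ℕ) (E : ℕ → Prop) (x0 y0 : ℕ) (S : Finset ℕ) : Prop :=
  W S ∧ ¬ Adm gb E S ∧ ¬ (x0 ∈ S ∧ y0 ∈ S)

/-- their counterparts -/
def NR (W : Finset ℕ → Prop) (M N x0 y0 : ℕ) (S : Finset ℕ) : Prop :=
  W S ∧ (∃ e ∈ S, Kc M N e) ∧ (N ∈ S → x0 ∈ S ∨ y0 ∈ S)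

lemma item_bad {gb : ℕ → ℕ} {E : ℕ → Prop} {J S : Finset ℕ} (h : Item gb E J) (hJS : J ⊆ S) :
    ¬ Adm gb E S := by
  rintro ⟨h1, h2⟩
  rcases h with ⟨e, he, rfl⟩ | ⟨x, y, hyx, hx, hy, hlt, rfl⟩
  · exact he (h1 e (hJS (mem_singleton_self e)))
  · have := h2 x (hJS (by simp)) y (hJS (by simp)) hyx
    omega

/-- a too close pair is bad -/
lemma pair_bad {gb : ℕ → ℕ} {E : ℕ → Prop} {S : Finset ℕ} {x y : ℕ} (hyx : y < x)
    (hlt : x < y + gb x) (hx : x ∈ S) (hy : y ∈ S) : ¬ Adm gb E S := by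
  rintro ⟨_, h2⟩
  have := h2 x hx y hy hyx
  omega

lemma bad_item {gb : ℕ → ℕ} {E : ℕ → Prop} {S : Finset ℕ} (h : ¬ Adm gb E S) :
    ∃ J, J ⊆ S ∧ Item gb E J := by
  unfold Adm at h
  by_cases h1 : ∀ e ∈ S, E e
  · have h2 : ¬ ∀ x ∈ S, ∀ y ∈ S, y < x → y + gb x ≤ x := fun h2 => h ⟨h1, h2⟩
    push Not at h2
    obtain ⟨x, hx, y, hy, hyx, hlt⟩ := h2
    refine ⟨{x, y}, ?_, Or.inr ⟨x, y, hyx, h1 x hx, h1 y hy, hlt, rfl⟩⟩
    intro z hz
    rw [mem_insert, mem_singleton] at hz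
    rcases hz with rfl | rfl
    · exact hx
    · exact hy
  · push Not at h1
    obtain ⟨e, he, hne⟩ := h1
    exact ⟨{e}, singleton_subset_iff.2 he, Or.inl ⟨e, hne, rfl⟩⟩

lemma eq_of_subset_sum {J S : Finset ℕ} (h : J ⊆ S) (hpos : ∀ e ∈ S, 0 < e)
    (hs : ∑ e ∈ S, e ≤ ∑ e ∈ J, e) : J = S := by
  apply subset_antisymm h
  intro x hx
  by_contra hxJ
  have h1 := sum_sdiff (f := fun e => e) h
  have h2 : x ≤ ∑ e ∈ S \ J, e := le_sum_of_mem (mem_sdiff.2 ⟨hx, hxJ⟩)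
  have h3 := hpos x hx
  omega

lemma sum_pair' {x y : ℕ} (h : y < x) : ∑ e ∈ ({x, y} : Finset ℕ), e = x + y :=
  sum_pair (by omega)

namespace Ctx

variable {M N τ : ℕ} {gb : ℕ → ℕ} {E X : ℕ → Prop} {W : Finset ℕ → Prop}
  (h : Ctx M N τ gb E X W)
include h

lemma W_union {J Q : Finset ℕ} (hJ : ∀ j ∈ J, τ < j ∧ ¬ X j) (hQ : W Q) : W (J ∪ Q) := by
  classical
  induction J using Finset.induction_on with
  | empty => rw [empty_union]; exact hQ
  | insert a J ha ih =>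
    rw [insert_union]
    have h1 := hJ a (mem_insert_self a J)
    exact h.neu a h1.1 h1.2 _ (ih (fun j hj => hJ j (mem_insert_of_mem hj)))

lemma good_lt {S : Finset ℕ} (hW : W S) (hs : ∑ e ∈ S, e < N) : Adm gb E S := by
  by_contra hna
  have h1 : 0 < cnt (fun S => W S ∧ ¬ Adm gb E S) (∑ e ∈ S, e) :=
    cnt_pos_iff.2 ⟨S, ⟨hW, hna⟩, rfl⟩
  rw [← h.EQ] at h1
  obtain ⟨T, ⟨_, e, he, hKe⟩, hT⟩ := cnt_pos_iff.1 h1
  have := le_sum_of_mem he
  have := hKe.1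
  omega

lemma item_ge {J : Finset ℕ} (hW : W J) (hJ : Item gb E J) : N ≤ ∑ e ∈ J, e := by
  by_contra hlt
  exact item_bad hJ (subset_refl J) (h.good_lt hW (by omega))

lemma E_lt {e : ℕ} (h0 : 0 < e) (hX : ¬ X e) (hlt : e < N) : E e := by
  have := h.good_lt (h.W1 e h0 hX) (by rw [sum_singleton]; exact hlt)
  exact this.1 e (mem_singleton_self e)

/-- bad sets have an item -/
lemma exists_item {S : Finset ℕ} (hW : W S) (hna : ¬ Adm gb E S) :
    ∃ J, J ⊆ S ∧ Item gb E J ∧ W J := by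
  obtain ⟨J, h1, h2⟩ := bad_item hna
  exact ⟨J, h1, h2, h.Wsub _ _ h1 hW⟩

/-- the first pair -/
lemma first : ∃ x0 y0, 0 < y0 ∧ y0 < x0 ∧ x0 + y0 = N ∧ W {x0, y0} ∧ x0 < y0 + gb x0 ∧
    ∀ S, W S → ∑ e ∈ S, e = N → ¬ Adm gb E S → S = {x0, y0} := by
  classical
  have h1 : cnt (fun S => W S ∧ ∃ e ∈ S, Kc M N e) N = 1 := by
    rw [cnt_eq, card_eq_one]
    refine ⟨{N}, ?_⟩
    ext S
    rw [mem_fam, mem_singleton]
    constructor
    · rintro ⟨⟨hW, e, he, hKe⟩, hs⟩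
      have h2 := le_sum_of_mem he
      have h3 := hKe.1
      have h4 : e = N := by omega
      subst h4
      symm
      apply eq_of_subset_sum (singleton_subset_iff.2 he) (fun x hx => (h.Wpos S hW x hx).1)
      rw [sum_singleton, hs]
    · rintro rfl
      have hX : ¬ X N := fun hx => by have := h.XN N hx; omega
      exact ⟨⟨h.W1 N (by have := h.hN; omega) hX, N, mem_singleton_self N, le_rfl, rfl⟩,
        by rw [sum_singleton]⟩
  rw [h.EQ, cnt_eq, card_eq_one] at h1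
  obtain ⟨S0, hS0⟩ := h1
  have hmem : S0 ∈ fam (fun S => W S ∧ ¬ Adm gb E S) N := by rw [hS0]; exact mem_singleton_self _
  obtain ⟨⟨hW, hna⟩, hs⟩ := mem_fam.1 hmem
  obtain ⟨J, hJS, hJ, hWJ⟩ := h.exists_item hW hna
  have h2 := h.item_ge hWJ hJ
  have hJS0 : J = S0 := eq_of_subset_sum hJS (fun x hx => (h.Wpos S0 hW x hx).1) (by omega)
  subst hJS0
  have huniq : ∀ S, W S → ∑ e ∈ S, e = N → ¬ Adm gb E S → S = J := by
    intro S h3 h4 h5
    have : S ∈ fam (fun S => W S ∧ ¬ Adm gb E S) N := mem_fam.2 ⟨⟨h3, h5⟩, h4⟩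
    rw [hS0] at this
    exact mem_singleton.1 this
  rcases hJ with ⟨e, he, hJe⟩ | ⟨x, y, hyx, hx, hy, hlt, hJe⟩
  · exfalso
    subst hJe
    rw [sum_singleton] at hs
    rw [hs] at he
    exact he h.EN
  · subst hJe
    rw [sum_pair' hyx] at hs
    exact ⟨x, y, (h.Wpos _ hW y (by simp)).1, hyx, hs, hW, hlt, huniq⟩

/-- the transfer: apart from the sets containing the first pair the bad sets correspond to
the sets meeting the missing class which contain `N` only together with `x0` or `y0` -/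
lemma transfer {x0 y0 n : ℕ} (hx : τ < x0 ∧ ¬ X x0) (hy : τ < y0 ∧ ¬ X y0) (hyx : y0 < x0)
    (hN : x0 + y0 = N) (hlt : x0 < y0 + gb x0) (hn : n < 2 * N) :
    cnt (NB W gb E x0 y0) n = cnt (NR W M N x0 y0) n := by
  classical
  have hNX : τ < N ∧ ¬ X N := ⟨h.hN, fun hx => by have := h.XN N hx; omega⟩
  have h0x : 0 < x0 := by omega
  have e1 := cnt_split (fun S => W S ∧ ¬ Adm gb E S) (fun S => x0 ∈ S ∧ y0 ∈ S) n
  have e2 := cnt_split (fun S => W S ∧ ∃ e ∈ S, Kc M N e)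
    (fun S => N ∈ S ∧ x0 ∉ S ∧ y0 ∉ S) n
  have e3 : cnt (fun S => (W S ∧ ¬ Adm gb E S) ∧ ¬ (x0 ∈ S ∧ y0 ∈ S)) n =
      cnt (NB W gb E x0 y0) n := cnt_congr' fun S _ => by unfold NB; tauto
  have e4 : cnt (fun S => (W S ∧ ∃ e ∈ S, Kc M N e) ∧ ¬ (N ∈ S ∧ x0 ∉ S ∧ y0 ∉ S)) n =
      cnt (NR W M N x0 y0) n := cnt_congr' fun S _ => by unfold NR; tauto
  have e5 : cnt (fun S => (W S ∧ ¬ Adm gb E S) ∧ x0 ∈ S ∧ y0 ∈ S) n =
      cnt (fun S => W S ∧ x0 ∈ S ∧ y0 ∈ S) n := cnt_congr' fun S _ => by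
    constructor
    · rintro ⟨⟨h1, _⟩, h2⟩
      exact ⟨h1, h2⟩
    · rintro ⟨h1, h2⟩
      exact ⟨⟨h1, pair_bad hyx hlt h2.1 h2.2⟩, h2⟩
  have e6 : cnt (fun S => (W S ∧ ∃ e ∈ S, Kc M N e) ∧ N ∈ S ∧ x0 ∉ S ∧ y0 ∉ S) n =
      cnt (fun S => W S ∧ N ∈ S ∧ x0 ∉ S ∧ y0 ∉ S) n := cnt_congr' fun S _ => by
    constructor
    · rintro ⟨⟨h1, _⟩, h2⟩
      exact ⟨h1, h2⟩
    · rintro ⟨h1, h2⟩
      exact ⟨⟨h1, N, h2.1, le_rfl, rfl⟩, h2⟩
  have e7 : cnt (fun S => W S ∧ x0 ∈ S ∧ y0 ∈ S) n =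
      cnt (fun S => W S ∧ N ∈ S ∧ x0 ∉ S ∧ y0 ∉ S) n := by
    rw [cnt_eq, cnt_eq]
    refine card_nbij' (fun S => insert N ((S.erase x0).erase y0))
      (fun S => insert x0 (insert y0 (S.erase N))) ?_ ?_ ?_ ?_
    · intro S hS
      obtain ⟨⟨hW, hx0, hy0⟩, hs⟩ := mem_fam.1 (mem_coe.1 hS)
      have hNS : N ∉ S := by
        intro hNS
        have h1 : ({N, x0, y0} : Finset ℕ) ⊆ S := by
          intro z hz
          rw [mem_insert, mem_insert, mem_singleton] at hz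
          rcases hz with rfl | rfl | rfl
          · exact hNS
          · exact hx0
          · exact hy0
        have h2 := sum_le_sum_of_subset (f := fun e => e) h1
        rw [sum_insert (by rw [mem_insert, mem_singleton]; omega), sum_pair' hyx] at h2
        omega
      have h3 : y0 ∈ S.erase x0 := mem_erase.2 ⟨by omega, hy0⟩
      have h4 : N ∉ (S.erase x0).erase y0 := fun h5 => hNS (mem_of_mem_erase (mem_of_mem_erase h5))
      rw [mem_coe, mem_fam]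
      refine ⟨⟨h.neu N hNX.1 hNX.2 _ (h.Wsub _ _ ((erase_subset _ _).trans (erase_subset _ _)) hW),
        mem_insert_self _ _, ?_, ?_⟩, ?_⟩
      · rw [mem_insert, mem_erase, mem_erase]
        rintro (h5 | ⟨_, h5, _⟩)
        · omega
        · exact h5 rfl
      · rw [mem_insert, mem_erase]
        rintro (h5 | ⟨h5, _⟩)
        · omega
        · exact h5 rfl
      · rw [sum_insert h4]
        have h5 := sum_erase_add (f := fun e => e) _ h3
        have h6 := sum_erase_add (f := fun e => e) _ hx0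
        omega
    · intro S hS
      obtain ⟨⟨hW, hNS, hx0, hy0⟩, hs⟩ := mem_fam.1 (mem_coe.1 hS)
      have h3 : y0 ∉ S.erase N := fun h5 => hy0 (mem_of_mem_erase h5)
      have h4 : x0 ∉ insert y0 (S.erase N) := by
        rw [mem_insert]
        rintro (h5 | h5)
        · omega
        · exact hx0 (mem_of_mem_erase h5)
      rw [mem_coe, mem_fam]
      refine ⟨⟨h.neu x0 hx.1 hx.2 _ (h.neu y0 hy.1 hy.2 _ (h.Wsub _ _ (erase_subset _ _) hW)),
        mem_insert_self _ _, mem_insert_of_mem (mem_insert_self _ _)⟩, ?_⟩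
      rw [sum_insert h4, sum_insert h3]
      have h5 := sum_erase_add (f := fun e => e) _ hNS
      omega
    · intro S hS
      obtain ⟨⟨hW, hx0, hy0⟩, hs⟩ := mem_fam.1 (mem_coe.1 hS)
      have hNS : N ∉ (S.erase x0).erase y0 := by
        intro hNS'
        have hNS := mem_of_mem_erase (mem_of_mem_erase hNS')
        have h1 : ({N, x0, y0} : Finset ℕ) ⊆ S := by
          intro z hz
          rw [mem_insert, mem_insert, mem_singleton] at hz
          rcases hz with rfl | rfl | rfl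
          · exact hNS
          · exact hx0
          · exact hy0
        have h2 := sum_le_sum_of_subset (f := fun e => e) h1
        rw [sum_insert (by rw [mem_insert, mem_singleton]; omega), sum_pair' hyx] at h2
        omega
      show insert x0 (insert y0 ((insert N ((S.erase x0).erase y0)).erase N)) = S
      rw [erase_insert hNS, insert_erase (mem_erase.2 ⟨by omega, hy0⟩), insert_erase hx0]
    · intro S hS
      obtain ⟨⟨hW, hNS, hx0, hy0⟩, hs⟩ := mem_fam.1 (mem_coe.1 hS)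
      have h3 : y0 ∉ S.erase N := fun h5 => hy0 (mem_of_mem_erase h5)
      have h4 : x0 ∉ insert y0 (S.erase N) := by
        rw [mem_insert]
        rintro (h5 | h5)
        · omega
        · exact hx0 (mem_of_mem_erase h5)
      show insert N (((insert x0 (insert y0 (S.erase N))).erase x0).erase y0) = S
      rw [erase_insert h4, erase_insert h3, insert_erase hNS]
  have e8 := h.EQ n
  omega

end Ctx

end Pool.Agent.H38.DO
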