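import Pool.Agent.H38.DP.Leaf
import Pool.Agent.H38.DP.Poly

/-! Counting finite sets with given sum by families. -/

open Finset

namespace Pool.Agent.H38.DO

open Pool.Agent.H38.DP

open Classical in
/-- the sets with property `P` and sum `n` -/
noncomputable def fam (P : Finset ℕ → Prop) (n : ℕ) : Finset (Finset ℕ) :=
  (range (n + 1)).powerset.filter (fun S => P S ∧ ∑ e ∈ S, e = n)

lemma cnt_eq (P : Finset ℕ → Prop) (n : ℕ) : cnt P n = (fam P n).card := rfl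

lemma le_sum_of_mem {S : Finset ℕ} {x : ℕ} (hx : x ∈ S) : x ≤ ∑ e ∈ S, e :=
  single_le_sum (f := fun e => e) (fun _ _ => Nat.zero_le _) hx

lemma mem_fam {P : Finset ℕ → Prop} {n : ℕ} {S : Finset ℕ} :
    S ∈ fam P n ↔ P S ∧ ∑ e ∈ S, e = n := by
  classical
  unfold fam
  rw [mem_filter, mem_powerset]
  constructor
  · exact And.right
  · intro h
    refine ⟨fun x hx => ?_, h⟩
    have := le_sum_of_mem hx
    exact mem_range.2 (by omega)

lemma cnt_pos_iff {P : Finset ℕ → Prop} {n : ℕ} :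
    0 < cnt P n ↔ ∃ S, P S ∧ ∑ e ∈ S, e = n := by
  rw [cnt_eq, card_pos]
  constructor
  · rintro ⟨S, hS⟩
    exact ⟨S, mem_fam.1 hS⟩
  · rintro ⟨S, hS⟩
    exact ⟨S, mem_fam.2 hS⟩

lemma cnt_mono {P Q : Finset ℕ → Prop} {n : ℕ}
    (h : ∀ S, P S → ∑ e ∈ S, e = n → Q S) : cnt P n ≤ cnt Q n := by
  rw [cnt_eq, cnt_eq]
  apply card_le_card
  intro S hS
  have := mem_fam.1 hS
  exact mem_fam.2 ⟨h S this.1 this.2, this.2⟩

lemma cnt_congr' {P Q : Finset ℕ → Prop} {n : ℕ}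
    (h : ∀ S, ∑ e ∈ S, e = n → (P S ↔ Q S)) : cnt P n = cnt Q n :=
  le_antisymm (cnt_mono fun S hS hn => (h S hn).1 hS) (cnt_mono fun S hS hn => (h S hn).2 hS)

lemma cnt_split (P Q : Finset ℕ → Prop) (n : ℕ) :
    cnt P n = cnt (fun S => P S ∧ Q S) n + cnt (fun S => P S ∧ ¬ Q S) n := by
  classical
  rw [cnt_eq, cnt_eq, cnt_eq, ← card_union_of_disjoint]
  · congr 1
    ext S
    rw [mem_union, mem_fam, mem_fam, mem_fam]
    tauto
  · rw [disjoint_left]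
    intro S h1 h2
    exact (mem_fam.1 h2).1.2 (mem_fam.1 h1).1.2

/-- the sets `J ∪ Q`, `(J, t)` in the list, `Q` of sum `t` -/
lemma LBaux {W P : Finset ℕ → Prop} (n τ : ℕ) (L : List (Finset ℕ × ℕ))
    (hd : L.Pairwise (fun p p' => p.2 ≠ p'.2))
    (h : ∀ p ∈ L, ∑ e ∈ p.1, e + p.2 = n ∧ p.2 ≤ τ ∧ (∀ j ∈ p.1, τ < j) ∧
      ∀ Q, W Q → ∑ e ∈ Q, e = p.2 → P (p.1 ∪ Q)) :
    ∃ F : Finset (Finset ℕ), F ⊆ fam P n ∧ F.card = (L.map (fun p => cnt W p.2)).sum ∧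
      ∀ S ∈ F, ∃ p ∈ L, p.1 ⊆ S ∧ S.filter (fun x => τ < x) = p.1 := by
  classical
  induction L with
  | nil => exact ⟨∅, by simp, by simp, by simp⟩
  | cons p L ih =>
    rw [List.pairwise_cons] at hd
    obtain ⟨F, hF1, hF2, hF3⟩ := ih hd.2 (fun p' hp' => h p' (List.mem_cons_of_mem _ hp'))
    obtain ⟨h1, h2, h3, h4⟩ := h p List.mem_cons_self
    have hQ : ∀ Q ∈ fam W p.2, ∀ x ∈ Q, x ≤ τ := by
      intro Q hQ x hx
      have h5 := (mem_fam.1 hQ).2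
      have h6 := le_sum_of_mem hx
      omega
    have hdisj : ∀ Q ∈ fam W p.2, Disjoint p.1 Q := by
      intro Q hQ'
      rw [disjoint_left]
      intro x hx hx'
      have := h3 x hx
      have := hQ Q hQ' x hx'
      omega
    have hfil : ∀ Q ∈ fam W p.2, (p.1 ∪ Q).filter (fun x => τ < x) = p.1 := by
      intro Q hQ'
      ext x
      rw [mem_filter, mem_union]
      constructor
      · rintro ⟨hx | hx, hx'⟩
        · exact hx
        · have := hQ Q hQ' x hx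
          omega
      · intro hx
        exact ⟨Or.inl hx, h3 x hx⟩
    set G := (fam W p.2).image (fun Q => p.1 ∪ Q) with hG
    have hGcard : G.card = cnt W p.2 := by
      rw [cnt_eq]
      apply card_image_of_injOn
      intro Q hQ1 Q' hQ1' heq
      have e1 : (p.1 ∪ Q) \ p.1 = (p.1 ∪ Q') \ p.1 := by
        have : p.1 ∪ Q = p.1 ∪ Q' := heq
        rw [this]
      rw [union_sdiff_cancel_left (hdisj Q (mem_coe.1 hQ1)),
        union_sdiff_cancel_left (hdisj Q' (mem_coe.1 hQ1'))] at e1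
      exact e1
    have hGP : G ⊆ fam P n := by
      intro S hS
      obtain ⟨Q, hQ', rfl⟩ := mem_image.1 hS
      have h5 := mem_fam.1 hQ'
      refine mem_fam.2 ⟨h4 Q h5.1 h5.2, ?_⟩
      rw [sum_union (hdisj Q hQ'), h5.2, h1]
    have hGF : Disjoint G F := by
      rw [disjoint_left]
      intro S hS hS'
      obtain ⟨Q, hQ', rfl⟩ := mem_image.1 hS
      obtain ⟨p', hp', _, h6⟩ := hF3 _ hS'
      have h7 := (h p' (List.mem_cons_of_mem _ hp')).1
      have h8 := hd.1 p' hp'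
      rw [hfil Q hQ'] at h6
      rw [← h6] at h7
      omega
    refine ⟨G ∪ F, union_subset hGP hF1, ?_, ?_⟩
    · rw [card_union_of_disjoint hGF, hGcard, hF2, List.map_cons, List.sum_cons]
    · intro S hS
      rcases mem_union.1 hS with hS | hS
      · obtain ⟨Q, hQ', rfl⟩ := mem_image.1 hS
        exact ⟨p, List.mem_cons_self, subset_union_left, hfil Q hQ'⟩
      · obtain ⟨p', hp', h6⟩ := hF3 S hS
        exact ⟨p', List.mem_cons_of_mem _ hp', h6⟩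

lemma LB {W P : Finset ℕ → Prop} (n τ : ℕ) (L : List (Finset ℕ × ℕ))
    (hd : L.Pairwise (fun p p' => p.2 ≠ p'.2))
    (h : ∀ p ∈ L, ∑ e ∈ p.1, e + p.2 = n ∧ p.2 ≤ τ ∧ (∀ j ∈ p.1, τ < j) ∧
      ∀ Q, W Q → ∑ e ∈ Q, e = p.2 → P (p.1 ∪ Q)) :
    (L.map (fun p => cnt W p.2)).sum ≤ cnt P n := by
  obtain ⟨F, hF1, hF2, _⟩ := LBaux n τ L hd h
  rw [← hF2, cnt_eq]
  exact card_le_card hF1

/-- one more set -/
lemma LBx {W P : Finset ℕ → Prop} (n τ : ℕ) (L : List (Finset ℕ × ℕ))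
    (hd : L.Pairwise (fun p p' => p.2 ≠ p'.2))
    (h : ∀ p ∈ L, ∑ e ∈ p.1, e + p.2 = n ∧ p.2 ≤ τ ∧ (∀ j ∈ p.1, τ < j) ∧
      ∀ Q, W Q → ∑ e ∈ Q, e = p.2 → P (p.1 ∪ Q))
    (S : Finset ℕ) (hS : P S) (hSn : ∑ e ∈ S, e = n) (hSL : ∀ p ∈ L, ¬ p.1 ⊆ S) :
    (L.map (fun p => cnt W p.2)).sum + 1 ≤ cnt P n := by
  classical
  obtain ⟨F, hF1, hF2, hF3⟩ := LBaux n τ L hd h
  have hSF : S ∉ F := by
    intro hmem
    obtain ⟨p, hp, h1, _⟩ := hF3 S hmem
    exact hSL p hp h1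
  rw [← hF2, cnt_eq, ← card_insert_of_notMem hSF]
  apply card_le_card
  intro T hT
  rcases mem_insert.1 hT with rfl | hT
  · exact mem_fam.2 ⟨hS, hSn⟩
  · exact hF1 hT

/-- upper bound by families -/
lemma UB {W P : Finset ℕ → Prop} (n : ℕ) (L : List (Finset ℕ × ℕ))
    (hsub : ∀ S T, S ⊆ T → W T → W S) (hPW : ∀ S, P S → W S)
    (h1 : ∀ p ∈ L, ∑ e ∈ p.1, e + p.2 = n)
    (h2 : ∀ S, P S → ∑ e ∈ S, e = n → ∃ p ∈ L, p.1 ⊆ S) :
    cnt P n ≤ (L.map (fun p => cnt W p.2)).sum := by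
  classical
  induction L generalizing P with
  | nil =>
    have : fam P n = ∅ := by
      rw [eq_empty_iff_forall_notMem]
      intro S hS
      obtain ⟨p, hp, _⟩ := h2 S (mem_fam.1 hS).1 (mem_fam.1 hS).2
      simp at hp
    rw [cnt_eq, this]
    simp
  | cons p L ih =>
    rw [List.map_cons, List.sum_cons, cnt_split P (fun S => p.1 ⊆ S) n]
    apply add_le_add
    · rw [cnt_eq, cnt_eq]
      refine le_trans (card_le_card ?_) (card_image_le (s := fam W p.2) (f := fun Q => p.1 ∪ Q))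
      intro S hS
      obtain ⟨⟨h3, h4⟩, h5⟩ := mem_fam.1 hS
      rw [mem_image]
      refine ⟨S \ p.1, mem_fam.2 ⟨hsub _ _ sdiff_subset (hPW S h3), ?_⟩, union_sdiff_of_subset h4⟩
      have h6 := sum_sdiff (f := fun e => e) h4
      have h7 := h1 p List.mem_cons_self
      omega
    · apply ih (fun S hS => hPW S hS.1) (fun p' hp' => h1 p' (List.mem_cons_of_mem _ hp'))
      intro S hS hn
      obtain ⟨p', hp', h3⟩ := h2 S hS.1 hn
      rcases List.mem_cons.1 hp' with rfl | hp'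
      · exact absurd h3 hS.2
      · exact ⟨p', hp', h3⟩

/-- upper bound by families, with one missing set `Q0` in the first family -/
lemma UBx {W P : Finset ℕ → Prop} (n : ℕ) (p : Finset ℕ × ℕ) (L : List (Finset ℕ × ℕ))
    (hsub : ∀ S T, S ⊆ T → W T → W S) (hPW : ∀ S, P S → W S)
    (h1 : ∀ p' ∈ p :: L, ∑ e ∈ p'.1, e + p'.2 = n)
    (h2 : ∀ S, P S → ∑ e ∈ S, e = n → ∃ p' ∈ p :: L, p'.1 ⊆ S)
    (Q0 : Finset ℕ) (hQ0 : W Q0) (hQ0s : ∑ e ∈ Q0, e = p.2) (hnd : ¬ Disjoint p.1 Q0) :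
    cnt P n + 1 ≤ cnt W p.2 + (L.map (fun p => cnt W p.2)).sum := by
  classical
  rw [cnt_split P (fun S => p.1 ⊆ S) n]
  have key : cnt (fun S => P S ∧ p.1 ⊆ S) n + 1 ≤ cnt W p.2 := by
    rw [cnt_eq, cnt_eq]
    have h3 : (fam (fun S => P S ∧ p.1 ⊆ S) n).card ≤ ((fam W p.2).erase Q0).card := by
      refine le_trans (card_le_card ?_)
        (card_image_le (s := (fam W p.2).erase Q0) (f := fun Q => p.1 ∪ Q))
      intro S hS
      obtain ⟨⟨h3, h4⟩, h5⟩ := mem_fam.1 hS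
      rw [mem_image]
      refine ⟨S \ p.1, mem_erase.2 ⟨?_, mem_fam.2 ⟨hsub _ _ sdiff_subset (hPW S h3), ?_⟩⟩,
        union_sdiff_of_subset h4⟩
      · rintro rfl
        exact hnd disjoint_sdiff
      · have h6 := sum_sdiff (f := fun e => e) h4
        have h7 := h1 p List.mem_cons_self
        omega
    have h4 : Q0 ∈ fam W p.2 := mem_fam.2 ⟨hQ0, hQ0s⟩
    rw [card_erase_of_mem h4] at h3
    have h5 := card_pos.2 ⟨Q0, h4⟩
    omega
  have key2 : cnt (fun S => P S ∧ ¬ p.1 ⊆ S) n ≤ (L.map (fun p => cnt W p.2)).sum := by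
    apply UB n L hsub (fun S hS => hPW S hS.1)
      (fun p' hp' => h1 p' (List.mem_cons_of_mem _ hp'))
    intro S hS hn
    obtain ⟨p', hp', h3⟩ := h2 S hS.1 hn
    rcases List.mem_cons.1 hp' with rfl | hp'
    · exact absurd h3 hS.2
    · exact ⟨p', hp', h3⟩
  omega

end Pool.Agent.H38.DO
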