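import Pool.Agent.H38.DO.Tools

/-! The case `N = M + c`. -/

open Finset

namespace Pool.Agent.H38.DO

open Pool.Agent.H38.DP

section

variable {M N : ℕ} {gb : ℕ → ℕ} {E X : ℕ → Prop} {W : Finset ℕ → Prop}

/-- the case `N = 2 M + 1`, `c = 1` -/
theorem caseN2 (h : Ctx M N 0 gb E X W) (hN : N = 2 * M + 1)
    (hX : ∀ e, X e ↔ e = 1 ∨ e = M + 1) : False := by
  have hM := h.hM
  obtain ⟨x0, y0, hy, hyx, hs, hW, hlt, -⟩ := h.first
  have hx0 := (h.Wpos _ hW x0 (by simp)).2
  have hy0 := (h.Wpos _ hW y0 (by simp)).2
  have h1 : y0 ≠ 1 := fun h1 => hy0 ((hX y0).2 (Or.inl h1))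
  have h2 : x0 ≠ M + 1 := fun h1 => hx0 ((hX x0).2 (Or.inr h1))
  apply h.step1 (x0 := x0) (y0 := y0) (by omega) (by omega) hyx hs hx0 hy0 hlt (by omega)
  rw [hX]
  omega

/-- the case `c = 2` with first pair `(M + 1, 1)` -/
theorem caseC2 (h : Ctx M N 0 gb E X W) (hN : N = M + 2) (hX : ∀ e, X e ↔ e = 2)
    (hbad : M + 1 < 1 + gb (M + 1)) : False := by
  have hM := h.hM
  have h1 := h.Req_ub (s := 2) (by omega)
  have h2 := h.EQ (N + 2)
  have h3 := h.q_zero
  have h4 : cnt W 2 ≤ 0 := by
    have := UB (W := W) (P := W) 2 [] h.Wsub (fun S hS => hS) (by simp) ?_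
    · simpa using this
    · intro S hS hsum
      exfalso
      have h7 : S ⊆ {1} := by
        intro x hx
        have h8 := le_sum_of_mem hx
        have h9 := h.Wpos S hS x hx
        have h10 : x ≠ 2 := fun h11 => h9.2 ((hX x).2 h11)
        rw [mem_singleton]
        omega
      have h8 := sum_le_sum_of_subset (f := fun e => e) h7
      rw [sum_singleton] at h8
      omega
  have h5 := LB (W := W) (P := fun S => W S ∧ ¬ Adm gb E S) (N + 2) 0
    [({M + 1, 3}, 0)] (by simp) ?_
  · simp only [List.map_cons, List.map_nil, List.sum_cons, List.sum_nil] at h5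
    omega
  · intro p hp
    simp only [List.mem_cons, List.not_mem_nil, or_false] at hp
    subst hp
    refine ⟨by simp only; rw [sum_pair' (by omega)]; omega, le_rfl, fun j hj => ?_,
        fun Q hQ _ => h.bad_of (fun j hj => ?_)
          (pair_bad (x := M + 1) (y := 3) (by omega) (by omega) (by simp) (by simp)) hQ⟩
    · simp only [mem_insert, mem_singleton] at hj
      omega
    · simp only [mem_insert, mem_singleton] at hj
      rcases hj with rfl | rfl
      · exact ⟨by omega, by rw [hX]; omega⟩
      · exact ⟨by omega, by rw [hX]; omega⟩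

/-- the case `c = 3` with first pair `(M + 1, 2)` -/
theorem caseC3 (h : Ctx M N 0 gb E X W) (hN : N = M + 3) (hX : ∀ e, X e ↔ e = 3)
    (hbad : M + 1 < 2 + gb (M + 1)) : False := by
  have hM := h.hM
  have h1 := h.Req_ub (s := 3) (by omega)
  have h2 := h.EQ (N + 3)
  have h3 := h.q_zero
  have h3' := h.q_one (by rw [hX]; norm_num)
  have h4 : cnt W 3 ≤ 1 := by
    have := UB (W := W) (P := W) 3 [({2, 1}, 0)] h.Wsub (fun S hS => hS) (by simp) ?_
    · simpa [h3] using this
    · intro S hS hsum
      refine ⟨_, List.mem_cons_self, ?_⟩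
      have h7 : S ⊆ {2, 1} := by
        intro x hx
        have h8 := le_sum_of_mem hx
        have h9 := h.Wpos S hS x hx
        have h10 : x ≠ 3 := fun h11 => h9.2 ((hX x).2 h11)
        rw [mem_insert, mem_singleton]
        omega
      have h8 : S = {2, 1} := by
        apply eq_of_subset_sum h7 (by simp)
        rw [hsum, sum_pair' (by norm_num)]
      rw [h8]
  have h5 := LB (W := W) (P := fun S => W S ∧ ¬ Adm gb E S) (N + 3) 1
    [({M + 1, 5}, 0), ({M + 1, 4}, 1)] (by simp) ?_
  · simp only [List.map_cons, List.map_nil, List.sum_cons, List.sum_nil] at h5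
    omega
  · intro p hp
    simp only [List.mem_cons, List.not_mem_nil, or_false] at hp
    rcases hp with rfl | rfl
    · refine ⟨by simp only; rw [sum_pair' (by omega)]; omega, by simp, fun j hj => ?_,
        fun Q hQ _ => h.bad_of (fun j hj => ?_)
          (pair_bad (x := M + 1) (y := 5) (by omega) (by omega) (by simp) (by simp)) hQ⟩
      · simp only [mem_insert, mem_singleton] at hj
        omega
      · simp only [mem_insert, mem_singleton] at hj
        rcases hj with rfl | rfl
        · exact ⟨by omega, by rw [hX]; omega⟩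
        · exact ⟨by omega, by rw [hX]; omega⟩
    · refine ⟨by simp only; rw [sum_pair' (by omega)]; omega, by simp, fun j hj => ?_,
        fun Q hQ _ => h.bad_of (fun j hj => ?_)
          (pair_bad (x := M + 1) (y := 4) (by omega) (by omega) (by simp) (by simp)) hQ⟩
      · simp only [mem_insert, mem_singleton] at hj
        omega
      · simp only [mem_insert, mem_singleton] at hj
        rcases hj with rfl | rfl
        · exact ⟨by omega, by rw [hX]; omega⟩
        · exact ⟨by omega, by rw [hX]; omega⟩

/-- the case `4 ≤ c < M` with first pair `(M + 1, c - 1)` -/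
theorem caseCm (h : Ctx M N 0 gb E X W) (c : ℕ) (hN : N = M + c) (hX : ∀ e, X e ↔ e = c)
    (hc : 4 ≤ c) (hcM : c < M) (hbad : M + 1 < c - 1 + gb (M + 1)) : False := by
  have hM := h.hM
  have h1 := h.Req_ub (s := 2) (by omega)
  have h2 := h.EQ (N + 2)
  have h3 := h.q_zero
  have h5 := LB (W := W) (P := fun S => W S ∧ ¬ Adm gb E S) (N + 2) 2
    [({M + 1, c - 1}, 2), ({M + 1, c + 1}, 0)] (by simp) ?_
  · simp only [List.map_cons, List.map_nil, List.sum_cons, List.sum_nil] at h5
    omega
  · intro p hp
    simp only [List.mem_cons, List.not_mem_nil, or_false] at hp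
    rcases hp with rfl | rfl
    · refine ⟨by simp only; rw [sum_pair' (by omega)]; omega, by simp, fun j hj => ?_,
        fun Q hQ _ => h.bad_of (fun j hj => ?_)
          (pair_bad (x := M + 1) (y := c - 1) (by omega) (by omega) (by simp) (by simp)) hQ⟩
      · simp only [mem_insert, mem_singleton] at hj
        omega
      · simp only [mem_insert, mem_singleton] at hj
        rcases hj with rfl | rfl
        · exact ⟨by omega, by rw [hX]; omega⟩
        · exact ⟨by omega, by rw [hX]; omega⟩
    · refine ⟨by simp only; rw [sum_pair' (by omega)]; omega, by simp, fun j hj => ?_,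
        fun Q hQ _ => h.bad_of (fun j hj => ?_)
          (pair_bad (x := M + 1) (y := c + 1) (by omega) (by omega) (by simp) (by simp)) hQ⟩
      · simp only [mem_insert, mem_singleton] at hj
        omega
      · simp only [mem_insert, mem_singleton] at hj
        rcases hj with rfl | rfl
        · exact ⟨by omega, by rw [hX]; omega⟩
        · exact ⟨by omega, by rw [hX]; omega⟩

end

end Pool.Agent.H38.DO
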