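import Pool.Agent.H38.DO.Beta

/-! The case `N = M + c`, conclusion. -/

open Finset

namespace Pool.Agent.H38.DO

open Pool.Agent.H38.DP

theorem caseK1 {M N : ℕ} {gb : ℕ → ℕ} {E X : ℕ → Prop} {W : Finset ℕ → Prop}
    (h : Ctx M N 0 gb E X W) (c : ℕ) (hc : 1 ≤ c) (hcM : c ≤ M) (hN : N = M + c)
    (hX : ∀ e, X e ↔ e = c) : False := by
  have hM := h.hM
  obtain ⟨x0, y0, hy, hyx, hs, hW, hlt, -⟩ := h.first
  have hx0 := (h.Wpos _ hW x0 (by simp)).2
  have hy0 := (h.Wpos _ hW y0 (by simp)).2
  have hx0' : x0 ≠ c := fun h1 => hx0 ((hX x0).2 h1)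
  have hy0' : y0 ≠ c := fun h1 => hy0 ((hX y0).2 h1)
  by_cases h1 : y0 = 1
  · subst h1
    by_cases h2 : c = 2
    · subst h2
      have h3 : x0 = M + 1 := by omega
      subst h3
      exact caseC2 h hN hX hlt
    · have h3 := h.pair_lt (x := c - 1) (z := c - 2) (by omega) (by omega) (by omega)
        (by rw [hX]; omega) (by rw [hX]; omega) (by omega)
      have h4 := h.per (c - 1)
      rw [show c - 1 + M = x0 by omega] at h4
      omega
  · by_cases h2 : x0 = y0 + 1
    · subst h2
      have hA : ACtx M N 0 y0 gb E X W :=
        { toCtx := h, hy := by omega, hNy := by omega, hτ := by omega, Xy := hy0, Xy1 := hx0,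
          gy := by omega, hns := by omega }
      exact hA.alpha1 c hX hc (by omega) hN
    · by_cases h3 : y0 + 1 = c
      · have h4 : x0 = M + 1 := by omega
        subst h4
        rcases Nat.lt_or_ge c M with h5 | h5
        · by_cases h6 : c = 3
          · subst h6
            have h7 : y0 = 2 := by omega
            subst h7
            exact caseC3 h hN hX hlt
          · have h7 : y0 = c - 1 := by omega
            rw [h7] at hlt
            exact caseCm h c hN hX (by omega) h5 hlt
        · have h6 : c = M := by omega
          subst h6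
          have h7 : y0 = c - 1 := by omega
          rw [h7] at hlt
          have h8 : N = 2 * c := by omega
          subst h8
          have hB : BCtx c gb E X W := { toCtx := h, hX := hX, hb := hlt }
          exact hB.beta1
      · exact h.step1 (by omega) (by omega) hyx hs hx0 hy0 hlt h2 (by rw [hX]; exact h3)

end Pool.Agent.H38.DO
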