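import Pool.Agent.H38.DO.AlphaW
import Pool.Agent.H38.DO.Cert.N
import Pool.Agent.H38.DO.Cert.V1
import Pool.Agent.H38.DO.Cert.V2
import Pool.Agent.H38.DO.Cert.V3
import Pool.Agent.H38.DO.Cert.V4

/-! The case `N = c`, conclusion. -/

open Finset

namespace Pool.Agent.H38.DO

open Pool.Agent.H38.DP

section

variable {M N : ℕ} {gb : ℕ → ℕ} {E X : ℕ → Prop} {W : Finset ℕ → Prop}

theorem eng4 (h : Ctx M 4 0 gb E X W) (hX : ∀ e, ¬ X e) (hb : 3 ≤ gb 3) : False := by
  have hM := h.hM
  exact np (T := 8) (M' := 8) h hX Tn4 (by norm_num) (by norm_num) (by omega)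
    (lo := rootLo 8 2 3 2 3) (rootLo_len _ _ _ _ _) (rootLo_pos (by norm_num) (by norm_num))
    (rootLo_bd h.gpos hb hb) (st := STn4_0) rfl Zn4

theorem eng5 (h : Ctx M 5 0 gb E X W) (hX : ∀ e, ¬ X e) (hb : 2 ≤ gb 3) : False := by
  have hM := h.hM
  exact np (T := 10) (M' := 10) h hX Tn5 (by norm_num) (by norm_num) (by omega)
    (lo := rootLo 10 2 2 2 2) (rootLo_len _ _ _ _ _) (rootLo_pos (by norm_num) (by norm_num))
    (rootLo_bd h.gpos hb hb) (st := STn5_0) rfl Zn5

theorem eng7 (h : Ctx M 7 0 gb E X W) (hX : ∀ e, ¬ X e) (hb : 2 ≤ gb 4) : False := by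
  have hM := h.hM
  exact np (T := 14) (M' := 14) h hX Tn7 (by norm_num) (by norm_num) (by omega)
    (lo := rootLo 14 3 2 3 2) (rootLo_len _ _ _ _ _) (rootLo_pos (by norm_num) (by norm_num))
    (rootLo_bd h.gpos hb hb) (st := STn7_0) rfl Zn7

theorem eng9 (h : Ctx M 9 0 gb E X W) (hX : ∀ e, ¬ X e) (hb : 2 ≤ gb 5) : False := by
  have hM := h.hM
  exact np (T := 17) (M' := 17) h hX Tn9 (by norm_num) (by norm_num) (by omega)
    (lo := rootLo 17 4 2 4 2) (rootLo_len _ _ _ _ _) (rootLo_pos (by norm_num) (by norm_num))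
    (rootLo_bd h.gpos hb hb) (st := STn9_0) rfl Zn9

theorem engv5 (h : Ctx M 11 0 gb E X W) (hX : ∀ e, ¬ X e) (hb : 13 ≤ gb 14)
    (hb2 : 2 ≤ gb 6) (hM : 13 ≤ M) : False := by
  exact np (T := 21) (M' := 21) h hX Tv5 (by norm_num) (by norm_num) (by omega)
    (lo := rootLo 21 13 13 5 2) (rootLo_len _ _ _ _ _) (rootLo_pos (by norm_num) (by norm_num))
    (rootLo_bd h.gpos hb hb2) (st := STv5_0) rfl Zv5

theorem engv6 (h : Ctx M 13 0 gb E X W) (hX : ∀ e, ¬ X e) (hb : 16 ≤ gb 17)
    (hb2 : 2 ≤ gb 7) (hM : 16 ≤ M) : False := by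
  exact np (T := 26) (M' := 26) h hX Tv6 (by norm_num) (by norm_num) (by omega)
    (lo := rootLo 26 16 16 6 2) (rootLo_len _ _ _ _ _) (rootLo_pos (by norm_num) (by norm_num))
    (rootLo_bd h.gpos hb hb2) (st := STv6_0) rfl Zv6

theorem engv7 (h : Ctx M 15 0 gb E X W) (hX : ∀ e, ¬ X e) (hb : 19 ≤ gb 20)
    (hb2 : 2 ≤ gb 8) (hM : 19 ≤ M) : False := by
  exact np (T := 29) (M' := 29) h hX Tv7 (by norm_num) (by norm_num) (by omega)
    (lo := rootLo 29 19 19 7 2) (rootLo_len _ _ _ _ _) (rootLo_pos (by norm_num) (by norm_num))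
    (rootLo_bd h.gpos hb hb2) (st := STv7_0) rfl Zv7

theorem engv8 (h : Ctx M 17 0 gb E X W) (hX : ∀ e, ¬ X e) (hb : 22 ≤ gb 23)
    (hb2 : 2 ≤ gb 9) (hM : 22 ≤ M) : False := by
  exact np (T := 33) (M' := 33) h hX Tv8 (by norm_num) (by norm_num) (by omega)
    (lo := rootLo 33 22 22 8 2) (rootLo_len _ _ _ _ _) (rootLo_pos (by norm_num) (by norm_num))
    (rootLo_bd h.gpos hb hb2) (st := STv8_0) rfl Zv8

theorem engv9 (h : Ctx M 19 0 gb E X W) (hX : ∀ e, ¬ X e) (hb : 25 ≤ gb 26)
    (hb2 : 2 ≤ gb 10) (hM : 25 ≤ M) : False := by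
  exact np (T := 37) (M' := 37) h hX Tv9 (by norm_num) (by norm_num) (by omega)
    (lo := rootLo 37 25 25 9 2) (rootLo_len _ _ _ _ _) (rootLo_pos (by norm_num) (by norm_num))
    (rootLo_bd h.gpos hb hb2) (st := STv9_0) rfl Zv9

theorem engv10 (h : Ctx M 21 0 gb E X W) (hX : ∀ e, ¬ X e) (hb : 28 ≤ gb 29)
    (hb2 : 2 ≤ gb 11) (hM : 28 ≤ M) : False := by
  exact np (T := 42) (M' := 42) h hX Tv10 (by norm_num) (by norm_num) (by omega)
    (lo := rootLo 42 28 28 10 2) (rootLo_len _ _ _ _ _) (rootLo_pos (by norm_num) (by norm_num))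
    (rootLo_bd h.gpos hb hb2) (st := STv10_0) rfl Zv10

theorem engv11 (h : Ctx M 23 0 gb E X W) (hX : ∀ e, ¬ X e) (hb : 31 ≤ gb 32)
    (hb2 : 2 ≤ gb 12) (hM : 31 ≤ M) : False := by
  exact np (T := 45) (M' := 45) h hX Tv11 (by norm_num) (by norm_num) (by omega)
    (lo := rootLo 45 31 31 11 2) (rootLo_len _ _ _ _ _) (rootLo_pos (by norm_num) (by norm_num))
    (rootLo_bd h.gpos hb hb2) (st := STv11_0) rfl Zv11

theorem engv12 (h : Ctx M 25 0 gb E X W) (hX : ∀ e, ¬ X e) (hb : 34 ≤ gb 35)
    (hb2 : 2 ≤ gb 13) (hM : 34 ≤ M) : False := by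
  exact np (T := 49) (M' := 49) h hX Tv12 (by norm_num) (by norm_num) (by omega)
    (lo := rootLo 49 34 34 12 2) (rootLo_len _ _ _ _ _) (rootLo_pos (by norm_num) (by norm_num))
    (rootLo_bd h.gpos hb hb2) (st := STv12_0) rfl Zv12

theorem engv13 (h : Ctx M 27 0 gb E X W) (hX : ∀ e, ¬ X e) (hb : 37 ≤ gb 38)
    (hb2 : 2 ≤ gb 14) (hM : 37 ≤ M) : False := by
  exact np (T := 53) (M' := 53) h hX Tv13 (by norm_num) (by norm_num) (by omega)
    (lo := rootLo 53 37 37 13 2) (rootLo_len _ _ _ _ _) (rootLo_pos (by norm_num) (by norm_num))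
    (rootLo_bd h.gpos hb hb2) (st := STv13_0) rfl Zv13

/-- the case of a first pair `(c - 1, 1)` -/
theorem caseY1 (h : Ctx M N 0 gb E X W) (hX : ∀ e, ¬ X e) (hN5 : 5 ≤ N)
    (hlt : N - 1 < 1 + gb (N - 1)) : False := by
  classical
  have hM := h.hM
  have h1 := h.Req_ub (s := 2) (by omega)
  have h2 := h.EQ (N + 2)
  have h3 := h.q_two (hX 2)
  have hc : ({{N - 1, 3}, {N - 1, 2, 1}} : Finset (Finset ℕ)).card = 2 :=
    card_pair (ne_of 3 (by simp) (by simp only [mem_insert, mem_singleton]; omega))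
  have h4 : ({{N - 1, 3}, {N - 1, 2, 1}} : Finset (Finset ℕ)) ⊆
      fam (fun S => W S ∧ ¬ Adm gb E S) (N + 2) := by
    intro S hS
    rw [mem_insert, mem_singleton] at hS
    rcases hS with rfl | rfl
    · refine mem_fam.2 ⟨⟨h.W_of hX fun e he => ?_, pair_bad (x := N - 1) (y := 3) (by omega)
        (by omega) (by simp) (by simp)⟩, ?_⟩
      · rw [mem_insert, mem_singleton] at he
        omega
      · rw [sum_pair' (by omega)]
        omega
    · refine mem_fam.2 ⟨⟨h.W_of hX fun e he => ?_, pair_bad (x := N - 1) (y := 2) (by omega)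
        (by omega) (by simp) (by simp)⟩, ?_⟩
      · simp only [mem_insert, mem_singleton] at he
        omega
      · rw [sum_insert (by simp only [mem_insert, mem_singleton]; omega),
          sum_pair' (by norm_num)]
        omega
  have h5 := card_le_card h4
  rw [hc, ← cnt_eq] at h5
  omega

theorem caseK0 (h : Ctx M N 0 gb E X W) (hX : ∀ e, ¬ X e) (hNM : N ≤ M) (hN3 : N ≠ 3) :
    False := by
  have hM := h.hM
  obtain ⟨x0, y0, hy, hyx, hs, hW, hlt, -⟩ := h.first
  by_cases h1 : y0 = 1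
  · subst h1
    by_cases h2 : N = 4
    · subst h2
      have h3 : x0 = 3 := by omega
      subst h3
      exact eng4 h hX (by omega)
    · have h3 : x0 = N - 1 := by omega
      rw [h3] at hlt
      exact caseY1 h hX (by omega) hlt
  · by_cases h2 : x0 = y0 + 1
    · subst h2
      rcases Nat.lt_or_ge y0 5 with h3 | h3
      · have h4 : y0 = 2 ∨ y0 = 3 ∨ y0 = 4 := by omega
        rcases h4 with rfl | rfl | rfl
        · have h5 : N = 5 := by omega
          subst h5
          have h6 : 2 ≤ gb 3 := by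
            have h7 := hlt
            simp only [Nat.reduceAdd] at h7
            omega
          exact eng5 h hX h6
        · have h5 : N = 7 := by omega
          subst h5
          have h6 : 2 ≤ gb 4 := by
            have h7 := hlt
            simp only [Nat.reduceAdd] at h7
            omega
          exact eng7 h hX h6
        · have h5 : N = 9 := by omega
          subst h5
          have h6 : 2 ≤ gb 5 := by
            have h7 := hlt
            simp only [Nat.reduceAdd] at h7
            omega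
          exact eng9 h hX h6
      · have hA : ACtx M N 0 y0 gb E X W :=
          { toCtx := h, hy := h3, hNy := by omega, hτ := by omega, Xy := hX _, Xy1 := hX _,
            gy := by omega, hns := by omega }
        by_cases hiv : It W gb E (y0 + 1) y0 {3 * y0 - 1, 2}
        · have hb : 3 * y0 - 2 ≤ gb (3 * y0 - 1) := by
            rcases hiv.1 with ⟨e, _, heq⟩ | ⟨x', y', hyx', _, _, hlt', heq⟩
            · exfalso
              have m1 : 3 * y0 - 1 ∈ ({e} : Finset ℕ) := by rw [← heq]; simp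
              have m2 : 2 ∈ ({e} : Finset ℕ) := by rw [← heq]; simp
              rw [mem_singleton] at m1 m2
              omega
            · have m1 : 3 * y0 - 1 ∈ ({x', y'} : Finset ℕ) := by rw [← heq]; simp
              have m2 : 2 ∈ ({x', y'} : Finset ℕ) := by rw [← heq]; simp
              rw [mem_insert, mem_singleton] at m1 m2
              have h4 : 3 * y0 - 1 = x' ∧ 2 = y' := by omega
              rw [h4.1]
              omega
          have hvM := hA.vM hX hb
          rcases Nat.lt_or_ge y0 14 with h4 | h4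
          · have h5 : N = 2 * y0 + 1 := hA.hNy
            subst h5
            have hb2 : 2 ≤ gb (y0 + 1) := hA.gy
            clear hA hiv hs hW hlt
            interval_cases y0
            · exact engv5 h hX hb hb2 hvM
            · exact engv6 h hX hb hb2 hvM
            · exact engv7 h hX hb hb2 hvM
            · exact engv8 h hX hb hb2 hvM
            · exact engv9 h hX hb hb2 hvM
            · exact engv10 h hX hb hb2 hvM
            · exact engv11 h hX hb hb2 hvM
            · exact engv12 h hX hb hb2 hvM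
            · exact engv13 h hX hb hb2 hvM
          · exact hA.alphaV hX hb h4
        · exact hA.alphaZ hX (by omega) hiv
    · exact h.step1 (by omega) (by omega) hyx hs (hX _) (hX _) hlt h2 (hX _)

end

end Pool.Agent.H38.DO
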