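import Pool.Agent.H38.DO.Base

/-! The case of a large number `N`. -/

open Finset

namespace Pool.Agent.H38.DO

open Pool.Agent.H38.DP

theorem large {M : ℕ} {R : Finset (ZMod M)} {b : ZMod M → ℕ} {C : Finset ℕ}
    (h : IsSolution M R b C) (c : ℕ) (hR : ∀ j, j ∈ R ↔ j ≠ (c : ZMod M))
    {N : ℕ} {X : ℕ → Prop} {W : Finset ℕ → Prop} {E : ℕ → Prop} (hNc : N % M = c % M)
    (hX : ∀ e, X e ↔ 0 < e ∧ e % M = c % M ∧ e < N)
    (hC : Ctx M N 0 (fun x => b (x : ZMod M)) E X W) (hN : 2 * M + 2 ≤ N) : False := by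
  have hM := hC.hM
  have hX' : ∀ e : ℕ, (e : ZMod M) ≠ (c : ZMod M) → ¬ X e := by
    intro e he hXe
    exact he ((cast_eq_iff e c).2 ((hX e).1 hXe).2.1)
  refine literal (by omega) h (c : ZMod M) (fun h1 => (hR _).1 h1 rfl) ?_
  intro j hj d hd hjd
  have hjc := (hR _).1 hj
  have hjdc := (hR _).1 hjd
  by_cases h1 : j - 1 = (c : ZMod M)
  · have hd2 : 2 ≤ d := by
      by_contra hlt
      have : d = 1 := by omega
      subst this
      apply hjdc
      rw [Nat.cast_one]
      exact h1
    obtain ⟨u, hu1, hu2, hu3⟩ := exists_class (show 0 < M by omega) j 3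
    have hu4 : ((u - 2 : ℕ) : ZMod M) ≠ (c : ZMod M) := by
      rw [Nat.cast_sub (by omega), hu3, ← h1]
      intro h2
      have h3 : ((1 : ℕ) : ZMod M) = ((0 : ℕ) : ZMod M) := by
        push_cast
        linear_combination -h2
      rw [cast_eq_iff] at h3
      rw [Nat.mod_eq_of_lt (by omega), Nat.zero_mod] at h3
      omega
    have hne : u + (u - 2) ≠ N := by
      intro h2
      have h3 : u = M + 2 := by omega
      have h4 : ((N : ℕ) : ZMod M) = (c : ZMod M) := (cast_eq_iff N c).2 hNc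
      rw [← h2, h3, ← h1, ← hu3, h3] at h4
      have h5 : ((2 : ℕ) : ZMod M) = ((1 : ℕ) : ZMod M) := by
        rw [show M + 2 - 2 = M by omega] at h4
        push_cast at h4 ⊢
        simp only [CharP.cast_eq_zero, zero_add, add_zero] at h4
        linear_combination h4
      rw [cast_eq_iff, Nat.mod_eq_of_lt (by omega), Nat.mod_eq_of_lt (by omega)] at h5
      omega
    have h5 := hC.pair_lt (x := u) (z := u - 2) (by omega) (by omega) (by omega)
      (hX' u (by rw [hu3]; exact hjc)) (hX' _ hu4) (by omega)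
    simp only [hu3] at h5
    omega
  · obtain ⟨u, hu1, hu2, hu3⟩ := exists_class (show 0 < M by omega) j 2
    have hu4 : ((u - 1 : ℕ) : ZMod M) ≠ (c : ZMod M) := by
      rw [Nat.cast_sub (by omega), hu3, Nat.cast_one]
      exact h1
    have h5 := hC.pair_lt (x := u) (z := u - 1) (by omega) (by omega) (by omega)
      (hX' u (by rw [hu3]; exact hjc)) (hX' _ hu4) (by omega)
    simp only [hu3] at h5
    omega

end Pool.Agent.H38.DO
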