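import Mathlib

/-! The list of the solutions of the equation between partitions into distinct parts and
partitions with gap conditions in which at most one residue class is missing. -/

namespace Pool.Agent.H38.DO

/-- The list of all solutions with at most one missing residue class. -/
def Listed1 (M : ℕ) (R : Finset (ZMod M)) (b : ZMod M → ℕ) (C : Finset ℕ) : Prop :=
  ((∀ j, j ∈ R) ∧ (∀ j, b j = 1) ∧ C = ∅) ∨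
  (M = 2 ∧ R = {1} ∧ b 1 = 6 ∧ b 0 = 7 ∧ C = {2}) ∨
  (M = 3 ∧ R = {1, 2} ∧ b 1 = 3 ∧ b 2 = 3 ∧ b 0 = 4 ∧ C = ∅) ∨
  (M = 3 ∧ R = {1, 2} ∧ b 1 = 3 ∧ b 2 = 2 ∧ b 0 = 5 ∧ C = ∅) ∨
  (M = 4 ∧ R = {0, 1, 2} ∧ b 1 = 3 ∧ b 2 = 2 ∧ b 3 = 3 ∧ b 0 = 2 ∧ C = ∅) ∨
  (M = 4 ∧ R = {0, 1, 2} ∧ b 1 = 4 ∧ b 2 = 1 ∧ b 3 = 4 ∧ b 0 = 1 ∧ C = {3}) ∨
  (M = 4 ∧ R = {0, 2, 3} ∧ b 1 = 3 ∧ b 2 = 2 ∧ b 3 = 3 ∧ b 0 = 2 ∧ C = {1}) ∨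
  (M = 4 ∧ R = {0, 2, 3} ∧ b 1 = 4 ∧ b 2 = 1 ∧ b 3 = 4 ∧ b 0 = 1 ∧ C = {1})

end Pool.Agent.H38.DO
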