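import Pool.Agent.H38.DO.Cert.P6
import Pool.Agent.H38.DO.Cert.P7
import Pool.Agent.H38.DO.Cert.P8
import Pool.Agent.H38.DO.Cert.P9
import Pool.Agent.H38.DO.Cert.P10

/-! One missing class, moduli 6 to 10. -/

open Finset

namespace Pool.Agent.H38.DO

open Pool.Agent.H38.DP

set_option maxRecDepth 100000

theorem sm6_1 {b : ZMod 6 → ℕ} {C : Finset ℕ}
    (h : IsSolution 6 (univ.erase 1) b C) : False := by
  obtain ⟨g, hg, hl⟩ := concl_of (by norm_num) h
    (fun r => !(Nat.beq r 1)) 14 (by decide) Tp6_1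
    (rootOf2 (M := 6) (st := STp6_1_0) (by norm_num) rfl Zp6_1)
  simp only [Pp6_1, List.mem_cons, List.not_mem_nil, or_false] at hg
  subst hg
  exact lowL (by norm_num) h hl 1 (by decide) (by decide)

theorem sm6_2 {b : ZMod 6 → ℕ} {C : Finset ℕ}
    (h : IsSolution 6 (univ.erase 2) b C) : False := by
  obtain ⟨g, hg, hl⟩ := concl_of (by norm_num) h
    (fun r => !(Nat.beq r 2)) 13 (by decide) Tp6_2
    (rootOf2 (M := 6) (st := STp6_2_0) (by norm_num) rfl Zp6_2)
  simp only [Pp6_2, List.mem_cons, List.not_mem_nil, or_false] at hg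
  subst hg
  exact lowL (by norm_num) h hl 2 (by decide) (by decide)

theorem sm6_3 {b : ZMod 6 → ℕ} {C : Finset ℕ}
    (h : IsSolution 6 (univ.erase 3) b C) : False := by
  obtain ⟨g, hg, hl⟩ := concl_of (by norm_num) h
    (fun r => !(Nat.beq r 3)) 28 (by decide) Tp6_3
    (rootOf2 (M := 6) (st := STp6_3_0) (by norm_num) rfl Zp6_3)
  simp only [Pp6_3, List.mem_cons, List.not_mem_nil, or_false] at hg
  subst hg
  exact lowL (by norm_num) h hl 3 (by decide) (by decide)

theorem sm6_4 {b : ZMod 6 → ℕ} {C : Finset ℕ}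
    (h : IsSolution 6 (univ.erase 4) b C) : False := by
  obtain ⟨g, hg, hl⟩ := concl_of (by norm_num) h
    (fun r => !(Nat.beq r 4)) 13 (by decide) Tp6_4
    (rootOf2 (M := 6) (st := STp6_4_0) (by norm_num) rfl Zp6_4)
  simp only [Pp6_4, List.mem_cons, List.not_mem_nil, or_false] at hg
  subst hg
  exact lowL (by norm_num) h hl 4 (by decide) (by decide)

theorem sm6_5 {b : ZMod 6 → ℕ} {C : Finset ℕ}
    (h : IsSolution 6 (univ.erase 5) b C) : False := by
  obtain ⟨g, hg, hl⟩ := concl_of (by norm_num) h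
    (fun r => !(Nat.beq r 5)) 13 (by decide) Tp6_5
    (rootOf2 (M := 6) (st := STp6_5_0) (by norm_num) rfl Zp6_5)
  simp only [Pp6_5, List.mem_cons, List.not_mem_nil, or_false] at hg
  subst hg
  exact lowL (by norm_num) h hl 5 (by decide) (by decide)

theorem sm6_6 {b : ZMod 6 → ℕ} {C : Finset ℕ}
    (h : IsSolution 6 (univ.erase 0) b C) : False := by
  obtain ⟨g, hg, hl⟩ := concl_of (by norm_num) h
    (fun r => !(Nat.beq r 0)) 22 (by decide) Tp6_6
    (rootOf2 (M := 6) (st := STp6_6_0) (by norm_num) rfl Zp6_6)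
  simp only [Pp6_6, List.mem_cons, List.not_mem_nil, or_false] at hg
  subst hg
  exact lowL (by norm_num) h hl 0 (by decide) (by decide)

theorem sm7_1 {b : ZMod 7 → ℕ} {C : Finset ℕ}
    (h : IsSolution 7 (univ.erase 1) b C) : False := by
  obtain ⟨g, hg, hl⟩ := concl_of (by norm_num) h
    (fun r => !(Nat.beq r 1)) 16 (by decide) Tp7_1
    (rootOf2 (M := 7) (st := STp7_1_0) (by norm_num) rfl Zp7_1)
  simp only [Pp7_1, List.mem_cons, List.not_mem_nil, or_false] at hg
  subst hg
  exact lowL (by norm_num) h hl 1 (by decide) (by decide)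

theorem sm7_2 {b : ZMod 7 → ℕ} {C : Finset ℕ}
    (h : IsSolution 7 (univ.erase 2) b C) : False := by
  obtain ⟨g, hg, hl⟩ := concl_of (by norm_num) h
    (fun r => !(Nat.beq r 2)) 17 (by decide) Tp7_2
    (rootOf2 (M := 7) (st := STp7_2_0) (by norm_num) rfl Zp7_2)
  simp only [Pp7_2, List.mem_cons, List.not_mem_nil, or_false] at hg
  subst hg
  exact lowL (by norm_num) h hl 2 (by decide) (by decide)

theorem sm7_3 {b : ZMod 7 → ℕ} {C : Finset ℕ}
    (h : IsSolution 7 (univ.erase 3) b C) : False := by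
  obtain ⟨g, hg, hl⟩ := concl_of (by norm_num) h
    (fun r => !(Nat.beq r 3)) 32 (by decide) Tp7_3
    (rootOf2 (M := 7) (st := STp7_3_0) (by norm_num) rfl Zp7_3)
  simp only [Pp7_3, List.mem_cons, List.not_mem_nil, or_false] at hg
  subst hg
  exact lowL (by norm_num) h hl 3 (by decide) (by decide)

theorem sm7_4 {b : ZMod 7 → ℕ} {C : Finset ℕ}
    (h : IsSolution 7 (univ.erase 4) b C) : False := by
  obtain ⟨g, hg, hl⟩ := concl_of (by norm_num) h
    (fun r => !(Nat.beq r 4)) 21 (by decide) Tp7_4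
    (rootOf2 (M := 7) (st := STp7_4_0) (by norm_num) rfl Zp7_4)
  simp only [Pp7_4, List.mem_cons, List.not_mem_nil, or_false] at hg
  subst hg
  exact lowL (by norm_num) h hl 4 (by decide) (by decide)

theorem sm7_5 {b : ZMod 7 → ℕ} {C : Finset ℕ}
    (h : IsSolution 7 (univ.erase 5) b C) : False := by
  obtain ⟨g, hg, hl⟩ := concl_of (by norm_num) h
    (fun r => !(Nat.beq r 5)) 15 (by decide) Tp7_5
    (rootOf2 (M := 7) (st := STp7_5_0) (by norm_num) rfl Zp7_5)
  simp only [Pp7_5, List.mem_cons, List.not_mem_nil, or_false] at hg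
  subst hg
  exact lowL (by norm_num) h hl 5 (by decide) (by decide)

theorem sm7_6 {b : ZMod 7 → ℕ} {C : Finset ℕ}
    (h : IsSolution 7 (univ.erase 6) b C) : False := by
  obtain ⟨g, hg, hl⟩ := concl_of (by norm_num) h
    (fun r => !(Nat.beq r 6)) 15 (by decide) Tp7_6
    (rootOf2 (M := 7) (st := STp7_6_0) (by norm_num) rfl Zp7_6)
  simp only [Pp7_6, List.mem_cons, List.not_mem_nil, or_false] at hg
  subst hg
  exact lowL (by norm_num) h hl 6 (by decide) (by decide)

theorem sm7_7 {b : ZMod 7 → ℕ} {C : Finset ℕ}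
    (h : IsSolution 7 (univ.erase 0) b C) : False := by
  obtain ⟨g, hg, hl⟩ := concl_of (by norm_num) h
    (fun r => !(Nat.beq r 0)) 26 (by decide) Tp7_7
    (rootOf2 (M := 7) (st := STp7_7_0) (by norm_num) rfl Zp7_7)
  simp only [Pp7_7, List.mem_cons, List.not_mem_nil, or_false] at hg
  subst hg
  exact lowL (by norm_num) h hl 0 (by decide) (by decide)

theorem sm8_1 {b : ZMod 8 → ℕ} {C : Finset ℕ}
    (h : IsSolution 8 (univ.erase 1) b C) : False := by
  obtain ⟨g, hg, hl⟩ := concl_of (by norm_num) h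
    (fun r => !(Nat.beq r 1)) 18 (by decide) Tp8_1
    (rootOf2 (M := 8) (st := STp8_1_0) (by norm_num) rfl Zp8_1)
  simp only [Pp8_1, List.mem_cons, List.not_mem_nil, or_false] at hg
  subst hg
  exact lowL (by norm_num) h hl 1 (by decide) (by decide)

theorem sm8_2 {b : ZMod 8 → ℕ} {C : Finset ℕ}
    (h : IsSolution 8 (univ.erase 2) b C) : False := by
  obtain ⟨g, hg, hl⟩ := concl_of (by norm_num) h
    (fun r => !(Nat.beq r 2)) 17 (by decide) Tp8_2
    (rootOf2 (M := 8) (st := STp8_2_0) (by norm_num) rfl Zp8_2)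
  simp only [Pp8_2, List.mem_cons, List.not_mem_nil, or_false] at hg
  subst hg
  exact lowL (by norm_num) h hl 2 (by decide) (by decide)

theorem sm8_3 {b : ZMod 8 → ℕ} {C : Finset ℕ}
    (h : IsSolution 8 (univ.erase 3) b C) : False := by
  obtain ⟨g, hg, hl⟩ := concl_of (by norm_num) h
    (fun r => !(Nat.beq r 3)) 36 (by decide) Tp8_3
    (rootOf2 (M := 8) (st := STp8_3_0) (by norm_num) rfl Zp8_3)
  simp only [Pp8_3, List.mem_cons, List.not_mem_nil, or_false] at hg
  subst hg
  exact lowL (by norm_num) h hl 3 (by decide) (by decide)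

theorem sm8_4 {b : ZMod 8 → ℕ} {C : Finset ℕ}
    (h : IsSolution 8 (univ.erase 4) b C) : False := by
  obtain ⟨g, hg, hl⟩ := concl_of (by norm_num) h
    (fun r => !(Nat.beq r 4)) 17 (by decide) Tp8_4
    (rootOf2 (M := 8) (st := STp8_4_0) (by norm_num) rfl Zp8_4)
  simp only [Pp8_4, List.mem_cons, List.not_mem_nil, or_false] at hg
  subst hg
  exact lowL (by norm_num) h hl 4 (by decide) (by decide)

theorem sm8_5 {b : ZMod 8 → ℕ} {C : Finset ℕ}
    (h : IsSolution 8 (univ.erase 5) b C) : False := by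
  obtain ⟨g, hg, hl⟩ := concl_of (by norm_num) h
    (fun r => !(Nat.beq r 5)) 25 (by decide) Tp8_5
    (rootOf2 (M := 8) (st := STp8_5_0) (by norm_num) rfl Zp8_5)
  simp only [Pp8_5, List.mem_cons, List.not_mem_nil, or_false] at hg
  subst hg
  exact lowL (by norm_num) h hl 5 (by decide) (by decide)

theorem sm8_6 {b : ZMod 8 → ℕ} {C : Finset ℕ}
    (h : IsSolution 8 (univ.erase 6) b C) : False := by
  obtain ⟨g, hg, hl⟩ := concl_of (by norm_num) h
    (fun r => !(Nat.beq r 6)) 17 (by decide) Tp8_6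
    (rootOf2 (M := 8) (st := STp8_6_0) (by norm_num) rfl Zp8_6)
  simp only [Pp8_6, List.mem_cons, List.not_mem_nil, or_false] at hg
  subst hg
  exact lowL (by norm_num) h hl 6 (by decide) (by decide)

theorem sm8_7 {b : ZMod 8 → ℕ} {C : Finset ℕ}
    (h : IsSolution 8 (univ.erase 7) b C) : False := by
  obtain ⟨g, hg, hl⟩ := concl_of (by norm_num) h
    (fun r => !(Nat.beq r 7)) 17 (by decide) Tp8_7
    (rootOf2 (M := 8) (st := STp8_7_0) (by norm_num) rfl Zp8_7)
  simp only [Pp8_7, List.mem_cons, List.not_mem_nil, or_false] at hg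
  subst hg
  exact lowL (by norm_num) h hl 7 (by decide) (by decide)

theorem sm8_8 {b : ZMod 8 → ℕ} {C : Finset ℕ}
    (h : IsSolution 8 (univ.erase 0) b C) : False := by
  obtain ⟨g, hg, hl⟩ := concl_of (by norm_num) h
    (fun r => !(Nat.beq r 0)) 30 (by decide) Tp8_8
    (rootOf2 (M := 8) (st := STp8_8_0) (by norm_num) rfl Zp8_8)
  simp only [Pp8_8, List.mem_cons, List.not_mem_nil, or_false] at hg
  subst hg
  exact lowL (by norm_num) h hl 0 (by decide) (by decide)

theorem sm9_1 {b : ZMod 9 → ℕ} {C : Finset ℕ}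
    (h : IsSolution 9 (univ.erase 1) b C) : False := by
  obtain ⟨g, hg, hl⟩ := concl_of (by norm_num) h
    (fun r => !(Nat.beq r 1)) 20 (by decide) Tp9_1
    (rootOf2 (M := 9) (st := STp9_1_0) (by norm_num) rfl Zp9_1)
  simp only [Pp9_1, List.mem_cons, List.not_mem_nil, or_false] at hg
  subst hg
  exact lowL (by norm_num) h hl 1 (by decide) (by decide)

theorem sm9_2 {b : ZMod 9 → ℕ} {C : Finset ℕ}
    (h : IsSolution 9 (univ.erase 2) b C) : False := by
  obtain ⟨g, hg, hl⟩ := concl_of (by norm_num) h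
    (fun r => !(Nat.beq r 2)) 21 (by decide) Tp9_2
    (rootOf2 (M := 9) (st := STp9_2_0) (by norm_num) rfl Zp9_2)
  simp only [Pp9_2, List.mem_cons, List.not_mem_nil, or_false] at hg
  subst hg
  exact lowL (by norm_num) h hl 2 (by decide) (by decide)

theorem sm9_3 {b : ZMod 9 → ℕ} {C : Finset ℕ}
    (h : IsSolution 9 (univ.erase 3) b C) : False := by
  obtain ⟨g, hg, hl⟩ := concl_of (by norm_num) h
    (fun r => !(Nat.beq r 3)) 40 (by decide) Tp9_3
    (rootOf2 (M := 9) (st := STp9_3_0) (by norm_num) rfl Zp9_3)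
  simp only [Pp9_3, List.mem_cons, List.not_mem_nil, or_false] at hg
  subst hg
  exact lowL (by norm_num) h hl 3 (by decide) (by decide)

theorem sm9_4 {b : ZMod 9 → ℕ} {C : Finset ℕ}
    (h : IsSolution 9 (univ.erase 4) b C) : False := by
  obtain ⟨g, hg, hl⟩ := concl_of (by norm_num) h
    (fun r => !(Nat.beq r 4)) 25 (by decide) Tp9_4
    (rootOf2 (M := 9) (st := STp9_4_0) (by norm_num) rfl Zp9_4)
  simp only [Pp9_4, List.mem_cons, List.not_mem_nil, or_false] at hg
  subst hg
  exact lowL (by norm_num) h hl 4 (by decide) (by decide)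

theorem sm9_5 {b : ZMod 9 → ℕ} {C : Finset ℕ}
    (h : IsSolution 9 (univ.erase 5) b C) : False := by
  obtain ⟨g, hg, hl⟩ := concl_of (by norm_num) h
    (fun r => !(Nat.beq r 5)) 19 (by decide) Tp9_5
    (rootOf2 (M := 9) (st := STp9_5_0) (by norm_num) rfl Zp9_5)
  simp only [Pp9_5, List.mem_cons, List.not_mem_nil, or_false] at hg
  subst hg
  exact lowL (by norm_num) h hl 5 (by decide) (by decide)

theorem sm9_6 {b : ZMod 9 → ℕ} {C : Finset ℕ}
    (h : IsSolution 9 (univ.erase 6) b C) : False := by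
  obtain ⟨g, hg, hl⟩ := concl_of (by norm_num) h
    (fun r => !(Nat.beq r 6)) 29 (by decide) Tp9_6
    (rootOf2 (M := 9) (st := STp9_6_0) (by norm_num) rfl Zp9_6)
  simp only [Pp9_6, List.mem_cons, List.not_mem_nil, or_false] at hg
  subst hg
  exact lowL (by norm_num) h hl 6 (by decide) (by decide)

theorem sm9_7 {b : ZMod 9 → ℕ} {C : Finset ℕ}
    (h : IsSolution 9 (univ.erase 7) b C) : False := by
  obtain ⟨g, hg, hl⟩ := concl_of (by norm_num) h
    (fun r => !(Nat.beq r 7)) 19 (by decide) Tp9_7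
    (rootOf2 (M := 9) (st := STp9_7_0) (by norm_num) rfl Zp9_7)
  simp only [Pp9_7, List.mem_cons, List.not_mem_nil, or_false] at hg
  subst hg
  exact lowL (by norm_num) h hl 7 (by decide) (by decide)

theorem sm9_8 {b : ZMod 9 → ℕ} {C : Finset ℕ}
    (h : IsSolution 9 (univ.erase 8) b C) : False := by
  obtain ⟨g, hg, hl⟩ := concl_of (by norm_num) h
    (fun r => !(Nat.beq r 8)) 19 (by decide) Tp9_8
    (rootOf2 (M := 9) (st := STp9_8_0) (by norm_num) rfl Zp9_8)
  simp only [Pp9_8, List.mem_cons, List.not_mem_nil, or_false] at hg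
  subst hg
  exact lowL (by norm_num) h hl 8 (by decide) (by decide)

theorem sm9_9 {b : ZMod 9 → ℕ} {C : Finset ℕ}
    (h : IsSolution 9 (univ.erase 0) b C) : False := by
  obtain ⟨g, hg, hl⟩ := concl_of (by norm_num) h
    (fun r => !(Nat.beq r 0)) 34 (by decide) Tp9_9
    (rootOf2 (M := 9) (st := STp9_9_0) (by norm_num) rfl Zp9_9)
  simp only [Pp9_9, List.mem_cons, List.not_mem_nil, or_false] at hg
  subst hg
  exact lowL (by norm_num) h hl 0 (by decide) (by decide)

theorem sm10_1 {b : ZMod 10 → ℕ} {C : Finset ℕ}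
    (h : IsSolution 10 (univ.erase 1) b C) : False := by
  obtain ⟨g, hg, hl⟩ := concl_of (by norm_num) h
    (fun r => !(Nat.beq r 1)) 22 (by decide) Tp10_1
    (rootOf2 (M := 10) (st := STp10_1_0) (by norm_num) rfl Zp10_1)
  simp only [Pp10_1, List.mem_cons, List.not_mem_nil, or_false] at hg
  subst hg
  exact lowL (by norm_num) h hl 1 (by decide) (by decide)

theorem sm10_2 {b : ZMod 10 → ℕ} {C : Finset ℕ}
    (h : IsSolution 10 (univ.erase 2) b C) : False := by
  obtain ⟨g, hg, hl⟩ := concl_of (by norm_num) h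
    (fun r => !(Nat.beq r 2)) 21 (by decide) Tp10_2
    (rootOf2 (M := 10) (st := STp10_2_0) (by norm_num) rfl Zp10_2)
  simp only [Pp10_2, List.mem_cons, List.not_mem_nil, or_false] at hg
  subst hg
  exact lowL (by norm_num) h hl 2 (by decide) (by decide)

theorem sm10_3 {b : ZMod 10 → ℕ} {C : Finset ℕ}
    (h : IsSolution 10 (univ.erase 3) b C) : False := by
  obtain ⟨g, hg, hl⟩ := concl_of (by norm_num) h
    (fun r => !(Nat.beq r 3)) 44 (by decide) Tp10_3
    (rootOf2 (M := 10) (st := STp10_3_0) (by norm_num) rfl Zp10_3)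
  simp only [Pp10_3, List.mem_cons, List.not_mem_nil, or_false] at hg
  subst hg
  exact lowL (by norm_num) h hl 3 (by decide) (by decide)

theorem sm10_4 {b : ZMod 10 → ℕ} {C : Finset ℕ}
    (h : IsSolution 10 (univ.erase 4) b C) : False := by
  obtain ⟨g, hg, hl⟩ := concl_of (by norm_num) h
    (fun r => !(Nat.beq r 4)) 21 (by decide) Tp10_4
    (rootOf2 (M := 10) (st := STp10_4_0) (by norm_num) rfl Zp10_4)
  simp only [Pp10_4, List.mem_cons, List.not_mem_nil, or_false] at hg
  subst hg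
  exact lowL (by norm_num) h hl 4 (by decide) (by decide)

theorem sm10_5 {b : ZMod 10 → ℕ} {C : Finset ℕ}
    (h : IsSolution 10 (univ.erase 5) b C) : False := by
  obtain ⟨g, hg, hl⟩ := concl_of (by norm_num) h
    (fun r => !(Nat.beq r 5)) 29 (by decide) Tp10_5
    (rootOf2 (M := 10) (st := STp10_5_0) (by norm_num) rfl Zp10_5)
  simp only [Pp10_5, List.mem_cons, List.not_mem_nil, or_false] at hg
  subst hg
  exact lowL (by norm_num) h hl 5 (by decide) (by decide)

theorem sm10_6 {b : ZMod 10 → ℕ} {C : Finset ℕ}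
    (h : IsSolution 10 (univ.erase 6) b C) : False := by
  obtain ⟨g, hg, hl⟩ := concl_of (by norm_num) h
    (fun r => !(Nat.beq r 6)) 21 (by decide) Tp10_6
    (rootOf2 (M := 10) (st := STp10_6_0) (by norm_num) rfl Zp10_6)
  simp only [Pp10_6, List.mem_cons, List.not_mem_nil, or_false] at hg
  subst hg
  exact lowL (by norm_num) h hl 6 (by decide) (by decide)

theorem sm10_7 {b : ZMod 10 → ℕ} {C : Finset ℕ}
    (h : IsSolution 10 (univ.erase 7) b C) : False := by
  obtain ⟨g, hg, hl⟩ := concl_of (by norm_num) h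
    (fun r => !(Nat.beq r 7)) 33 (by decide) Tp10_7
    (rootOf2 (M := 10) (st := STp10_7_0) (by norm_num) rfl Zp10_7)
  simp only [Pp10_7, List.mem_cons, List.not_mem_nil, or_false] at hg
  subst hg
  exact lowL (by norm_num) h hl 7 (by decide) (by decide)

theorem sm10_8 {b : ZMod 10 → ℕ} {C : Finset ℕ}
    (h : IsSolution 10 (univ.erase 8) b C) : False := by
  obtain ⟨g, hg, hl⟩ := concl_of (by norm_num) h
    (fun r => !(Nat.beq r 8)) 21 (by decide) Tp10_8
    (rootOf2 (M := 10) (st := STp10_8_0) (by norm_num) rfl Zp10_8)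
  simp only [Pp10_8, List.mem_cons, List.not_mem_nil, or_false] at hg
  subst hg
  exact lowL (by norm_num) h hl 8 (by decide) (by decide)

theorem sm10_9 {b : ZMod 10 → ℕ} {C : Finset ℕ}
    (h : IsSolution 10 (univ.erase 9) b C) : False := by
  obtain ⟨g, hg, hl⟩ := concl_of (by norm_num) h
    (fun r => !(Nat.beq r 9)) 21 (by decide) Tp10_9
    (rootOf2 (M := 10) (st := STp10_9_0) (by norm_num) rfl Zp10_9)
  simp only [Pp10_9, List.mem_cons, List.not_mem_nil, or_false] at hg
  subst hg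
  exact lowL (by norm_num) h hl 9 (by decide) (by decide)

theorem sm10_10 {b : ZMod 10 → ℕ} {C : Finset ℕ}
    (h : IsSolution 10 (univ.erase 0) b C) : False := by
  obtain ⟨g, hg, hl⟩ := concl_of (by norm_num) h
    (fun r => !(Nat.beq r 0)) 38 (by decide) Tp10_10
    (rootOf2 (M := 10) (st := STp10_10_0) (by norm_num) rfl Zp10_10)
  simp only [Pp10_10, List.mem_cons, List.not_mem_nil, or_false] at hg
  subst hg
  exact lowL (by norm_num) h hl 0 (by decide) (by decide)

end Pool.Agent.H38.DO
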