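import Pool.Agent.H38.DO.Kzero
import Pool.Agent.H38.DO.Small
import Pool.Agent.H38.DP.Classify
import Pool.Agent.H38.DO.Listed1

/-! One missing class: conclusion. -/

open Finset

namespace Pool.Agent.H38.DO

open Pool.Agent.H38.DP

theorem small6 {R : Finset (ZMod 6)} {b : ZMod 6 → ℕ} {C : Finset ℕ}
    (h : IsSolution 6 R b C) (γ : ZMod 6) (hR : ∀ j, j ∈ R ↔ j ≠ γ) : False := by
  have h1 : R = univ.erase γ := by ext j; simp [hR]
  subst h1
  fin_cases γ
  · exact sm6_6 h
  · exact sm6_1 h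
  · exact sm6_2 h
  · exact sm6_3 h
  · exact sm6_4 h
  · exact sm6_5 h

theorem small7 {R : Finset (ZMod 7)} {b : ZMod 7 → ℕ} {C : Finset ℕ}
    (h : IsSolution 7 R b C) (γ : ZMod 7) (hR : ∀ j, j ∈ R ↔ j ≠ γ) : False := by
  have h1 : R = univ.erase γ := by ext j; simp [hR]
  subst h1
  fin_cases γ
  · exact sm7_7 h
  · exact sm7_1 h
  · exact sm7_2 h
  · exact sm7_3 h
  · exact sm7_4 h
  · exact sm7_5 h
  · exact sm7_6 h

theorem small8 {R : Finset (ZMod 8)} {b : ZMod 8 → ℕ} {C : Finset ℕ}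
    (h : IsSolution 8 R b C) (γ : ZMod 8) (hR : ∀ j, j ∈ R ↔ j ≠ γ) : False := by
  have h1 : R = univ.erase γ := by ext j; simp [hR]
  subst h1
  fin_cases γ
  · exact sm8_8 h
  · exact sm8_1 h
  · exact sm8_2 h
  · exact sm8_3 h
  · exact sm8_4 h
  · exact sm8_5 h
  · exact sm8_6 h
  · exact sm8_7 h

theorem small9 {R : Finset (ZMod 9)} {b : ZMod 9 → ℕ} {C : Finset ℕ}
    (h : IsSolution 9 R b C) (γ : ZMod 9) (hR : ∀ j, j ∈ R ↔ j ≠ γ) : False := by
  have h1 : R = univ.erase γ := by ext j; simp [hR]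
  subst h1
  fin_cases γ
  · exact sm9_9 h
  · exact sm9_1 h
  · exact sm9_2 h
  · exact sm9_3 h
  · exact sm9_4 h
  · exact sm9_5 h
  · exact sm9_6 h
  · exact sm9_7 h
  · exact sm9_8 h

theorem small10 {R : Finset (ZMod 10)} {b : ZMod 10 → ℕ} {C : Finset ℕ}
    (h : IsSolution 10 R b C) (γ : ZMod 10) (hR : ∀ j, j ∈ R ↔ j ≠ γ) : False := by
  have h1 : R = univ.erase γ := by ext j; simp [hR]
  subst h1
  fin_cases γ
  · exact sm10_10 h
  · exact sm10_1 h
  · exact sm10_2 h
  · exact sm10_3 h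
  · exact sm10_4 h
  · exact sm10_5 h
  · exact sm10_6 h
  · exact sm10_7 h
  · exact sm10_8 h
  · exact sm10_9 h

/-- the position of `N` -/
lemma posN {M N c : ℕ} (hM : 11 ≤ M) (_hc1 : 1 ≤ c) (hcM : c ≤ M) (hN0 : 0 < N)
    (hNc : N % M = c % M) : N = c ∨ N = M + c ∨ N = 2 * M + c ∨ 3 * M + c ≤ N := by
  rcases Nat.lt_or_ge N c with h1 | h1
  · exfalso
    have h3 : M ∣ c - N := (Nat.modEq_iff_dvd' h1.le).1 hNc
    have h4 := Nat.le_of_dvd (by omega) h3
    omega
  · have h3 : M ∣ N - c := (Nat.modEq_iff_dvd' h1).1 hNc.symm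
    obtain ⟨k, hk⟩ := h3
    rcases k with _ | _ | _ | k
    · rw [mul_zero] at hk; omega
    · rw [zero_add, mul_one] at hk; omega
    · have : M * (0 + 1 + 1) = 2 * M := by ring
      omega
    · have : M * 3 ≤ M * (k + 1 + 1 + 1) := Nat.mul_le_mul_left _ (by omega)
      omega

/-- One missing class: no solutions for moduli at least 6. -/
theorem oneMissing {M : ℕ} (hM : 6 ≤ M) {R : Finset (ZMod M)} {b : ZMod M → ℕ}
    {C : Finset ℕ} (h : IsSolution M R b C) (γ : ZMod M) (hR : ∀ j, j ∈ R ↔ j ≠ γ) :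
    False := by
  rcases Nat.lt_or_ge M 11 with h11 | h11
  · have h5 : M = 6 ∨ M = 7 ∨ M = 8 ∨ M = 9 ∨ M = 10 := by omega
    rcases h5 with rfl | rfl | rfl | rfl | rfl
    · exact small6 h γ hR
    · exact small7 h γ hR
    · exact small8 h γ hR
    · exact small9 h γ hR
    · exact small10 h γ hR
  · obtain ⟨c, hc1, hcM, rfl⟩ := exists_class (show 0 < M by omega) γ 1
    obtain ⟨N, X, W, hN0, hNc, hX, hW, hC⟩ := mkCtx h11 h c hR
    rcases posN h11 hc1 (by omega) hN0 hNc with h1 | h1 | h1 | h1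
    · subst h1
      have hX' : ∀ e, ¬ X e := by
        intro e he
        obtain ⟨h2, h3, h4⟩ := (hX e).1 he
        have h5 : M ∣ N - e := (Nat.modEq_iff_dvd' h4.le).1 h3
        have h6 := Nat.le_of_dvd (by omega) h5
        omega
      by_cases h3 : N = 3
      · subst h3
        obtain ⟨g2, g3⟩ := small_pairs hC hX'
        obtain ⟨N', X', W', hN', hK⟩ := mkK h11 h hR hC.EN g2 g3
        exact hK.False' hN'
      · exact caseK0 hC hX' (by omega) h3
    · refine caseK1 hC c hc1 (by omega) h1 fun e => ?_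
      rw [hX]
      constructor
      · rintro ⟨h2, h3, h4⟩
        rcases posN h11 hc1 (by omega) h2 h3 with h5 | h5 | h5 | h5 <;> omega
      · rintro rfl
        exact ⟨hc1, rfl, by omega⟩
    · by_cases h2 : c = 1
      · subst h2
        refine caseN2 hC h1 fun e => ?_
        rw [hX]
        constructor
        · rintro ⟨h2, h3, h4⟩
          rcases posN h11 hc1 (by omega) h2 h3 with h5 | h5 | h5 | h5 <;> omega
        · rintro (rfl | rfl)
          · exact ⟨hc1, rfl, by omega⟩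
          · exact ⟨by omega, by simp, by omega⟩
      · exact large h c hR hNc hX hC (by omega)
    · exact large h c hR hNc hX hC (by omega)

theorem classification1 {M : ℕ} (hM : 1 ≤ M) (R : Finset (ZMod M)) (hR : M ≤ R.card + 1)
    (b : ZMod M → ℕ) (C : Finset ℕ) : IsSolution M R b C ↔ Listed1 M R b C := by
  classical
  have : NeZero M := ⟨by omega⟩
  constructor
  · intro h
    by_cases hall : ∀ j, j ∈ R
    · exact Or.inl ⟨hall, fullType hM h hall⟩
    · push Not at hall
      obtain ⟨γ, hγ⟩ := hall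
      have hsub : R ⊆ univ.erase γ := fun j hj =>
        mem_erase.2 ⟨fun h1 => hγ (h1 ▸ hj), mem_univ j⟩
      have hcard : (univ.erase γ).card ≤ R.card := by
        rw [card_erase_of_mem (mem_univ γ), card_univ, ZMod.card]
        omega
      have hRe : R = univ.erase γ := eq_of_subset_of_card_le hsub hcard
      have hR' : ∀ j, j ∈ R ↔ j ≠ γ := by
        intro j
        rw [hRe, mem_erase]
        exact ⟨fun h1 => h1.1, fun h1 => ⟨h1, mem_univ j⟩⟩
      rcases Nat.lt_or_ge M 6 with h6 | h6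
      · have h7 := (classification hM (by omega) R b C).1 h
        rcases h7 with h7 | h7 | h7 | h7 | h7 | h7 | h7 | h7 | h7
        · exact Or.inl h7
        · exact Or.inr (Or.inl h7)
        · exact Or.inr (Or.inr (Or.inl h7))
        · exact Or.inr (Or.inr (Or.inr (Or.inl h7)))
        · exfalso
          obtain ⟨rfl, rfl, -⟩ := h7
          have h8 : ({1, 3} : Finset (ZMod 4)).card = 2 := by decide
          rw [h8] at hR
          omega
        · exact Or.inr (Or.inr (Or.inr (Or.inr (Or.inl h7))))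
        · exact Or.inr (Or.inr (Or.inr (Or.inr (Or.inr (Or.inl h7)))))
        · exact Or.inr (Or.inr (Or.inr (Or.inr (Or.inr (Or.inr (Or.inl h7))))))
        · exact Or.inr (Or.inr (Or.inr (Or.inr (Or.inr (Or.inr (Or.inr h7))))))
      · exact (oneMissing h6 h γ hR').elim
  · intro h
    apply listed_sol hM
    rcases h with h7 | h7 | h7 | h7 | h7 | h7 | h7 | h7
    · exact Or.inl h7
    · exact Or.inr (Or.inl h7)
    · exact Or.inr (Or.inr (Or.inl h7))
    · exact Or.inr (Or.inr (Or.inr (Or.inl h7)))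
    · exact Or.inr (Or.inr (Or.inr (Or.inr (Or.inr (Or.inl h7)))))
    · exact Or.inr (Or.inr (Or.inr (Or.inr (Or.inr (Or.inr (Or.inl h7))))))
    · exact Or.inr (Or.inr (Or.inr (Or.inr (Or.inr (Or.inr (Or.inr (Or.inl h7)))))))
    · exact Or.inr (Or.inr (Or.inr (Or.inr (Or.inr (Or.inr (Or.inr (Or.inr h7)))))))

end Pool.Agent.H38.DO
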