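import Pool.Agent.H38.DO.Run16
import Pool.Agent.H38.DO.BlockC
import Pool.Agent.H38.DP.CertBase

/-! The search with independent gaps. -/

open Finset

namespace Pool.Agent.H38.DO

open Pool.Agent.H38.DP

lemma Ctx.W_of {M N : ℕ} {gb : ℕ → ℕ} {E X : ℕ → Prop} {W : Finset ℕ → Prop}
    (h : Ctx M N 0 gb E X W) (hX : ∀ e, ¬ X e) {S : Finset ℕ} (hS : ∀ e ∈ S, 0 < e) : W S := by
  have := h.W_union (J := S) (Q := ∅) (fun j hj => ⟨hS j hj, hX j⟩) h.W0
  rwa [union_empty] at this

theorem np {M N T M' : ℕ} {gb : ℕ → ℕ} {E X : ℕ → Prop} {W : Finset ℕ → Prop}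
    (h : Ctx M N 0 gb E X W) (hX : ∀ e, ¬ X e) {As : List ℕ}
    (hT : eqL (tab (fun e => !(Nat.beq e N)) T T) As = true) (hTM : T ≤ M') (hT0 : 0 < M')
    (hTN : T < N + M) {lo : List ℕ} (hlo : lo.length = M') (hpos : ∀ x ∈ lo, 0 < x)
    (hbd : ∀ r, r < M' → lo.getD r 0 ≤ gb (r + 1)) {st : List (List ℕ × List ℕ)}
    (hst : st = [(lo, List.replicate M' 60000)]) (hrun : ∀ q ∈ st, Excl M' As [] q) :
    False := by
  have hM := h.hM
  have hgood : Good M' As (fun e => gb ((e - 1) % M' + 1)) E := by
    refine ⟨fun e => h.gpos _, fun e he => ?_, fun i hi => ?_⟩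
    · show gb ((e - 1) % M' + 1) = gb (((e - 1) % M' + 1 - 1) % M' + 1)
      rw [Nat.add_sub_cancel, Nat.mod_mod]
    · rw [(tab_spec _ _ _ hT).2 i hi]
      rw [(tab_spec _ _ _ hT).1] at hi
      have e1 := cnt_split W (fun S => ∃ e ∈ S, Kc M N e) i
      have e2 := cnt_split W (fun S => Adm gb E S) i
      have e3 := h.EQ i
      have e4 : cnt (fun S => W S ∧ ¬ ∃ e ∈ S, Kc M N e) i =
          cnt (admG (fun _ => 1) (fun e => (!(Nat.beq e N)) = true)) i := by
        apply cnt_congr'
        intro S hsum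
        have hb : ∀ e, (!(Nat.beq e N)) = true ↔ e ≠ N := by
          intro e
          cases hbe : Nat.beq e N with
          | true =>
            have := Nat.eq_of_beq_eq_true hbe
            simp [this]
          | false =>
            have := Nat.ne_of_beq_eq_false hbe
            simp [this]
        constructor
        · rintro ⟨h1, h2⟩
          refine ⟨fun e he => ⟨(h.Wpos S h1 e he).1, (hb e).2 fun h3 => h2 ⟨e, he, ?_⟩⟩,
            fun x _ y _ hxy => hxy⟩
          rw [h3]
          exact Ctx.Kc_self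
        · rintro ⟨h1, _⟩
          refine ⟨h.W_of hX (fun e he => (h1 e he).1), ?_⟩
          rintro ⟨e, he, hKe⟩
          have h3 := le_sum_of_mem he
          exact (hb e).1 (h1 e he).2 (Ctx.Kc_one (M := M) (by omega) hKe (by omega))
      have e5 : cnt (fun S => W S ∧ Adm gb E S) i =
          cnt (admG (fun e => gb ((e - 1) % M' + 1)) E) i := by
        apply cnt_congr'
        intro S hsum
        have hg : ∀ x ∈ S, 0 < x → gb ((x - 1) % M' + 1) = gb x := by
          intro x hx h0
          have h3 := le_sum_of_mem hx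
          rw [Nat.mod_eq_of_lt (by omega), Nat.sub_add_cancel (by omega)]
        constructor
        · rintro ⟨h1, h2, h3⟩
          refine ⟨fun e he => ⟨(h.Wpos S h1 e he).1, h2 e he⟩, fun x hx y hy hyx => ?_⟩
          show y + gb ((x - 1) % M' + 1) ≤ x
          rw [hg x hx (h.Wpos S h1 x hx).1]
          exact h3 x hx y hy hyx
        · rintro ⟨h1, h2⟩
          refine ⟨h.W_of hX (fun e he => (h1 e he).1), fun e he => (h1 e he).2,
            fun x hx y hy hyx => ?_⟩
          have h3 := h2 x hx y hy hyx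
          simp only at h3
          rw [hg x hx (h1 x hx).1] at h3
          exact h3
      omega
  have hbox : InBox M' (fun e => gb ((e - 1) % M' + 1)) lo (List.replicate M' 60000) := by
    refine ⟨hlo, by simp, hpos, fun e he => ⟨?_, Or.inr ?_⟩⟩
    · exact hbd _ (Nat.mod_lt _ hT0)
    · unfold gapOf
      rw [List.getD_eq_getElem _ _ (by rw [List.length_replicate]; exact Nat.mod_lt _ hT0)]
      simp
  rw [hst] at hrun
  obtain ⟨g, hg, _⟩ := hrun _ List.mem_cons_self _ _ hgood hbox
  simp at hg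

/-- the lower ends of the root boxes -/
def rootLo (M' i v j w : ℕ) : List ℕ := ((List.replicate M' 1).set i v).set j w

lemma rootLo_len (M' i v j w : ℕ) : (rootLo M' i v j w).length = M' := by
  unfold rootLo
  simp

lemma rootLo_pos {M' i v j w : ℕ} (hv : 0 < v) (hw : 0 < w) :
    ∀ x ∈ rootLo M' i v j w, 0 < x := by
  intro x hx
  unfold rootLo at hx
  rcases List.mem_or_eq_of_mem_set hx with hx | rfl
  · rcases List.mem_or_eq_of_mem_set hx with hx | rfl
    · rw [List.eq_of_mem_replicate hx]
      norm_num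
    · exact hv
  · exact hw

lemma rootLo_bd {M' i v j w : ℕ} {gb : ℕ → ℕ} (hg : ∀ x, 0 < gb x) (hv : v ≤ gb (i + 1))
    (hw : w ≤ gb (j + 1)) : ∀ r, r < M' → (rootLo M' i v j w).getD r 0 ≤ gb (r + 1) := by
  intro r hr
  unfold rootLo
  rw [getD_set, getD_set]
  split_ifs with h1 h2
  · rw [← h1.1]
    exact hw
  · rw [← h2.1]
    exact hv
  · rw [List.getD_eq_getElem _ _ (by rw [List.length_replicate]; exact hr)]
    rw [List.getElem_replicate]
    exact hg _

end Pool.Agent.H38.DO
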