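import Pool.Agent.H38.DP.Rules

/-! The search of the preceding folder with tokens of another length. -/

open Finset

namespace Pool.Agent.H38.DO

open Pool.Agent.H38.DP

noncomputable section

/-- run through the code of a tree; tokens below `Tm`:
`Td + n` dead box (followed by `n` bits), `Tb` box below a known vector,
`Tx` box in the list of external boxes, otherwise split -/
def runG (Tm Td Tx Tb : ℕ) (len : ℕ) (As Apks : List ℕ) (prs : List (List ℕ)) (ext : List (List ℕ × List ℕ))
    (fuel : ℕ) : ℕ → List (List ℕ × List ℕ) → Bool :=
  Nat.rec (motive := fun _ => ℕ → List (List ℕ × List ℕ) → Bool) (fun _ _ => false)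
    (fun _ ih code st => List.rec (motive := fun _ => Bool) true
      (fun p st' _ =>
        lit (Nat.mod code Tm) fun t =>
        Bool.rec (motive := fun _ => Bool)
          (lit (Nat.div code Tm) fun code' =>
            lit (Nat.div t 256) fun j => lit (Nat.mod t 256) fun d =>
            ih code' ((p.1, setL p.2 j d) :: (setL p.1 j (Nat.succ d), p.2) :: st'))
          (Bool.rec (motive := fun _ => Bool)
            (Bool.rec (motive := fun _ => Bool)
              (lit (Nat.sub t Td) fun n =>
                lit (Nat.div code Tm) fun code' =>
                lit (Nat.mod code' (Nat.pow 2 n)) fun mask =>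
                Bool.rec (motive := fun _ => Bool) false
                  (Bool.rec (motive := fun _ => Bool) false
                    (Bool.rec (motive := fun _ => Bool) false
                      (lit (Nat.div code' (Nat.pow 2 n)) fun code'' => ih code'' st')
                      (leafChk (nth As n) p.1 p.2 n mask (nth Apks (Nat.div n 8))))
                    (Nat.ble (Nat.succ n) len))
                  (Nat.ble 1 n))
              (Bool.rec (motive := fun _ => Bool) false
                (lit (Nat.div code Tm) fun code' => ih code' st') (memB p.1 p.2 ext))
              (Nat.beq t Tx))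
            (Bool.rec (motive := fun _ => Bool) false
              (lit (Nat.div code Tm) fun code' => ih code' st') (below prs p.2))
            (Nat.beq t Tb))
          (Nat.ble Td t)) st) fuel

end

section
attribute [local irreducible] Nat.ble Nat.beq Nat.sub Nat.pow

lemma runG_step (Tm Td Tx Tb len : ℕ) (As Apks : List ℕ) (prs : List (List ℕ))
    (ext : List (List ℕ × List ℕ)) (fuel code : ℕ) (p : List ℕ × List ℕ)
    (st : List (List ℕ × List ℕ)) :
  runG Tm Td Tx Tb len As Apks prs ext (fuel + 1) code (p :: st) =
    Bool.rec (motive := fun _ => Bool)
      (runG Tm Td Tx Tb len As Apks prs ext fuel (Nat.div code Tm)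
        ((p.1, setL p.2 (Nat.div (Nat.mod code Tm) 256) (Nat.mod (Nat.mod code Tm) 256)) ::
          (setL p.1 (Nat.div (Nat.mod code Tm) 256)
            (Nat.succ (Nat.mod (Nat.mod code Tm) 256)), p.2) :: st))
      (Bool.rec (motive := fun _ => Bool)
        (Bool.rec (motive := fun _ => Bool)
          (Bool.rec (motive := fun _ => Bool) false
            (Bool.rec (motive := fun _ => Bool) false
              (Bool.rec (motive := fun _ => Bool) false
                (runG Tm Td Tx Tb len As Apks prs ext fuel
                  (Nat.div (Nat.div code Tm) (Nat.pow 2 (Nat.sub (Nat.mod code Tm) Td))) st)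
                (leafChk (nth As (Nat.sub (Nat.mod code Tm) Td)) p.1 p.2
                  (Nat.sub (Nat.mod code Tm) Td)
                  (Nat.mod (Nat.div code Tm) (Nat.pow 2 (Nat.sub (Nat.mod code Tm) Td)))
                  (nth Apks (Nat.div (Nat.sub (Nat.mod code Tm) Td) 8))))
              (Nat.ble (Nat.succ (Nat.sub (Nat.mod code Tm) Td)) len))
            (Nat.ble 1 (Nat.sub (Nat.mod code Tm) Td)))
          (Bool.rec (motive := fun _ => Bool) false
            (runG Tm Td Tx Tb len As Apks prs ext fuel (Nat.div code Tm) st) (memB p.1 p.2 ext))
          (Nat.beq (Nat.mod code Tm) Tx))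
        (Bool.rec (motive := fun _ => Bool) false
          (runG Tm Td Tx Tb len As Apks prs ext fuel (Nat.div code Tm) st) (below prs p.2))
        (Nat.beq (Nat.mod code Tm) Tb))
      (Nat.ble Td (Nat.mod code Tm)) := rfl

end

lemma runG_cases {Tm Td Tx Tb len : ℕ} {As Apks : List ℕ} {prs : List (List ℕ)}
    {ext : List (List ℕ × List ℕ)} {fuel code : ℕ} {p : List ℕ × List ℕ}
    {st : List (List ℕ × List ℕ)} (h : runG Tm Td Tx Tb len As Apks prs ext (fuel + 1) code (p :: st) = true) :
    (∃ code' j d, runG Tm Td Tx Tb len As Apks prs ext fuel code'
      ((p.1, setL p.2 j d) :: (setL p.1 j (d + 1), p.2) :: st) = true) ∨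
    (∃ code', below prs p.2 = true ∧ runG Tm Td Tx Tb len As Apks prs ext fuel code' st = true) ∨
    (∃ code', memB p.1 p.2 ext = true ∧ runG Tm Td Tx Tb len As Apks prs ext fuel code' st = true) ∨
    (∃ code' n mask, 1 ≤ n ∧ n + 1 ≤ len ∧
      leafChk (nth As n) p.1 p.2 n mask (nth Apks (n / 8)) = true ∧
      runG Tm Td Tx Tb len As Apks prs ext fuel code' st = true) := by
  rw [runG_step] at h
  generalize Nat.div code Tm = code1 at h
  generalize Nat.mod code Tm = t at h
  cases h1 : Nat.ble Td t with
  | false =>
    rw [h1] at h
    exact Or.inl ⟨_, _, _, h⟩
  | true =>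
    rw [h1] at h
    cases h2 : Nat.beq t Tb with
    | true =>
      rw [h2] at h
      cases h3 : below prs p.2 with
      | false => rw [h3] at h; exact absurd h (by simp)
      | true =>
        rw [h3] at h
        exact Or.inr (Or.inl ⟨_, rfl, h⟩)
    | false =>
      rw [h2] at h
      cases h3 : Nat.beq t Tx with
      | true =>
        rw [h3] at h
        cases h4 : memB p.1 p.2 ext with
        | false => rw [h4] at h; exact absurd h (by simp)
        | true =>
          rw [h4] at h
          exact Or.inr (Or.inr (Or.inl ⟨_, rfl, h⟩))
      | false =>
        rw [h3] at h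
        generalize Nat.sub t Td = n at h
        cases h4 : Nat.ble 1 n with
        | false => rw [h4] at h; exact absurd h (by simp)
        | true =>
          rw [h4] at h
          cases h5 : Nat.ble (Nat.succ n) len with
          | false => rw [h5] at h; exact absurd h (by simp)
          | true =>
            rw [h5] at h
            cases h6 : leafChk (nth As n) p.1 p.2 n (Nat.mod code1 (Nat.pow 2 n))
                  (nth Apks (Nat.div n 8)) with
            | false => rw [h6] at h; exact absurd h (by simp)
            | true =>
              rw [h6] at h
              exact Or.inr (Or.inr (Or.inr ⟨_, n, _, Nat.le_of_ble_eq_true h4,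
                Nat.le_of_ble_eq_true h5, h6, h⟩))

/-- soundness -/
theorem runG_sound (hq : QB) {Tm Td Tx Tb M : ℕ} (hM : 0 < M) {As : List ℕ} {len : ℕ}
    (hlen : As.length = len) (hlen' : len ≤ 160) {prs : List (List ℕ)}
    {ext : List (List ℕ × List ℕ)} (hext : ∀ p ∈ ext, Excl M As prs p) :
    ∀ (fuel code : ℕ) (st : List (List ℕ × List ℕ)),
      runG Tm Td Tx Tb len As (packs As) prs ext fuel code st = true → ∀ p ∈ st, Excl M As prs p := by
  intro fuel
  induction fuel with
  | zero =>
    intro code st h
    exact absurd h (by simp [runG])
  | succ fuel ih =>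
    intro code st h
    cases st with
    | nil => simp
    | cons p st =>
      rcases runG_cases h with ⟨code', j, d, h⟩ | ⟨code', h1, h⟩ | ⟨code', h1, h⟩ |
        ⟨code', n, mask, h1, h2, h3, h⟩
      · have hall := ih _ _ h
        have e1 : Excl M As prs (p.1, setL p.2 j d) := hall _ (by simp)
        have e2 : Excl M As prs (setL p.1 j (d + 1), p.2) := hall _ (by simp)
        intro p' hp'
        rcases List.mem_cons.1 hp' with rfl | hp'
        · intro gb EC hgood hbox
          obtain ⟨b1, b2, b3, b4⟩ := hbox
          by_cases hjd : gb (j + 1) ≤ d
          · apply e1 gb EC hgood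
            refine ⟨b1, ?_, b3, fun e he => ⟨(b4 e he).1, ?_⟩⟩
            · rw [setL_eq, List.length_set, b2]
            · unfold gapOf
              simp only
              rw [setL_eq, getD_set]
              split_ifs with hc
              · left
                rw [hgood.2.1 e he, ← hc.1]
                exact hjd
              · exact (b4 e he).2
          · apply e2 gb EC hgood
            refine ⟨?_, b2, ?_, fun e he => ⟨?_, (b4 e he).2⟩⟩
            · rw [setL_eq, List.length_set, b1]
            · intro x hx
              simp only at hx
              rw [setL_eq] at hx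
              rcases List.mem_or_eq_of_mem_set hx with hx | hx
              · exact b3 x hx
              · omega
            · unfold gapOf
              simp only
              rw [setL_eq, getD_set]
              split_ifs with hc
              · rw [hgood.2.1 e he, ← hc.1]
                omega
              · exact (b4 e he).1
        · exact hall _ (by simp [hp'])
      · intro p' hp'
        rcases List.mem_cons.1 hp' with rfl | hp'
        · intro gb EC hgood hbox
          obtain ⟨g, hg, hl, hle⟩ := below_true h1
          refine ⟨g, hg, fun e he => ?_⟩
          have h2 := (hbox.2.2.2 e he).2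
          have h3 : gapOf M p'.2 e ≤ gapOf M g e := hle _
          omega
        · exact ih _ _ h _ hp'
      · intro p' hp'
        rcases List.mem_cons.1 hp' with rfl | hp'
        · exact hext _ (memB_true h1)
        · exact ih _ _ h _ hp'
      · intro p' hp'
        rcases List.mem_cons.1 hp' with rfl | hp'
        · intro gb EC hgood hbox
          exfalso
          rw [packs_nth As (n / 8) (by omega)] at h3
          exact leafChk_sound hq hM hgood hbox h1 (by omega) (by omega) h3
        · exact ih _ _ h _ hp'


/-- one segment of a search -/
theorem segOf16 {M len fuel code : ℕ} {As : List ℕ} {prs : List (List ℕ)}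
    {ext : List (List ℕ × List ℕ)} {st : List (List ℕ × List ℕ)} (hM : 0 < M)
    (hlen : As.length = len) (hlen' : len ≤ 160)
    (h : runG 65536 32768 65534 65535 len As (packs As) prs ext fuel code st = true)
    (hext : ∀ q ∈ ext, Excl M As prs q) : ∀ q ∈ st, Excl M As prs q :=
  runG_sound QB_true hM hlen hlen' hext fuel code st h

end Pool.Agent.H38.DO
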