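import Pool.Agent.H38.DO.Ctx

/-! Steps of the argument. -/

open Finset

namespace Pool.Agent.H38.DO

open Pool.Agent.H38.DP

lemma item_sub {gb : ℕ → ℕ} {E : ℕ → Prop} {J J' : Finset ℕ} (h : Item gb E J)
    (h' : Item gb E J') (hs : J ⊆ J') : J = J' := by
  rcases h with ⟨e, he, rfl⟩ | ⟨x, y, hyx, hx, hy, hlt, rfl⟩ <;>
  rcases h' with ⟨e', he', rfl⟩ | ⟨x', y', hyx', hx', hy', hlt', rfl⟩
  · have := hs (mem_singleton_self e)
    rw [mem_singleton] at this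
    rw [this]
  · exfalso
    have := hs (mem_singleton_self e)
    rw [mem_insert, mem_singleton] at this
    rcases this with rfl | rfl
    · exact he hx'
    · exact he hy'
  · exfalso
    have h1 := hs (show x ∈ ({x, y} : Finset ℕ) by simp)
    have h2 := hs (show y ∈ ({x, y} : Finset ℕ) by simp)
    rw [mem_singleton] at h1 h2
    omega
  · have h1 := hs (show x ∈ ({x, y} : Finset ℕ) by simp)
    have h2 := hs (show y ∈ ({x, y} : Finset ℕ) by simp)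
    rw [mem_insert, mem_singleton] at h1 h2
    have h3 : x = x' ∧ y = y' := by omega
    rw [h3.1, h3.2]

/-- an item different from the first pair, in the ground family -/
def It (W : Finset ℕ → Prop) (gb : ℕ → ℕ) (E : ℕ → Prop) (x0 y0 : ℕ) (J : Finset ℕ) : Prop :=
  Item gb E J ∧ W J ∧ ¬ (x0 ∈ J ∧ y0 ∈ J)

lemma It.NB {W : Finset ℕ → Prop} {gb : ℕ → ℕ} {E : ℕ → Prop} {x0 y0 : ℕ} {J : Finset ℕ}
    (h : It W gb E x0 y0 J) : NB W gb E x0 y0 J :=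
  ⟨h.2.1, item_bad h.1 (subset_refl J), h.2.2⟩

namespace Ctx

variable {M N τ : ℕ} {gb : ℕ → ℕ} {E X : ℕ → Prop} {W : Finset ℕ → Prop}
  (h : Ctx M N τ gb E X W)
include h

lemma exists_It {x0 y0 : ℕ} {S : Finset ℕ} (hS : NB W gb E x0 y0 S) :
    ∃ J, J ⊆ S ∧ It W gb E x0 y0 J := by
  obtain ⟨J, h1, h2, h3⟩ := h.exists_item hS.1 hS.2.1
  exact ⟨J, h1, h2, h3, fun h4 => hS.2.2 ⟨h1 h4.1, h1 h4.2⟩⟩

/-- a new item must exist if the known sets do not suffice -/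
lemma new_item {x0 y0 n : ℕ} (L : List (Finset ℕ × ℕ))
    (hknown : ∀ J, It W gb E x0 y0 J → ∑ e ∈ J, e < n → ∃ p ∈ L, p.1 ⊆ J)
    (hsum : ∀ p ∈ L, ∑ e ∈ p.1, e + p.2 = n)
    (hlt : (L.map (fun p => cnt W p.2)).sum < cnt (NB W gb E x0 y0) n) :
    ∃ J, It W gb E x0 y0 J ∧ ∑ e ∈ J, e = n ∧ ∀ p ∈ L, ¬ p.1 ⊆ J := by
  by_contra hcon
  push Not at hcon
  have := UB (W := W) (P := NB W gb E x0 y0) n L h.Wsub (fun S hS => hS.1) hsum ?_
  · omega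
  · intro S hS hn
    obtain ⟨J, hJS, hJ⟩ := h.exists_It hS
    have h1 : ∑ e ∈ J, e ≤ n := by
      rw [← hn]
      exact sum_le_sum_of_subset hJS
    rcases Nat.lt_or_ge (∑ e ∈ J, e) n with h2 | h2
    · obtain ⟨p, hp, hpJ⟩ := hknown J hJ h2
      exact ⟨p, hp, hpJ.trans hJS⟩
    · obtain ⟨p, hp, hpJ⟩ := hcon J hJ (by omega)
      exact ⟨p, hp, hpJ.trans hJS⟩

/-- conversely, if the known sets suffice then there is no further bad set -/
lemma no_more {x0 y0 n t : ℕ} (L : List (Finset ℕ × ℕ))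
    (hd : L.Pairwise (fun p p' => p.2 ≠ p'.2))
    (hL : ∀ p ∈ L, ∑ e ∈ p.1, e + p.2 = n ∧ p.2 ≤ t ∧ (∀ j ∈ p.1, t < j) ∧
      ∀ Q, W Q → ∑ e ∈ Q, e = p.2 → NB W gb E x0 y0 (p.1 ∪ Q))
    (hle : cnt (NB W gb E x0 y0) n ≤ (L.map (fun p => cnt W p.2)).sum)
    {S : Finset ℕ} (hS : NB W gb E x0 y0 S) (hn : ∑ e ∈ S, e = n) : ∃ p ∈ L, p.1 ⊆ S := by
  by_contra hcon
  push Not at hcon
  have := LBx n t L hd hL S hS hn hcon
  omega

/-- membership in the bad sets -/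
lemma NB_of {x0 y0 : ℕ} {J Q : Finset ℕ} (hJ : ∀ j ∈ J, τ < j ∧ ¬ X j)
    (hna : ¬ Adm gb E J) (hQ : W Q) (hx : ¬ (x0 ∈ J ∧ y0 ∈ J)) (hyx : y0 < x0)
    (ht : ∑ e ∈ Q, e < y0) : NB W gb E x0 y0 (J ∪ Q) := by
  refine ⟨h.W_union hJ hQ, ?_, ?_⟩
  · obtain ⟨J', h1, h2⟩ := bad_item hna
    exact item_bad h2 (h1.trans subset_union_left)
  · rintro ⟨h1, h2⟩
    apply hx
    have key : ∀ z, z ∈ J ∪ Q → y0 ≤ z → z ∈ J := by
      intro z hz hzy
      rcases mem_union.1 hz with hz | hz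
      · exact hz
      · have := le_sum_of_mem hz
        omega
    exact ⟨key x0 h1 (by omega), key y0 h2 le_rfl⟩

lemma NB_of' {x0 y0 : ℕ} {J Q : Finset ℕ} (hJ : ∀ j ∈ J, τ < j ∧ ¬ X j)
    (hna : ¬ Adm gb E J) (hQ : W Q) (hx : x0 ∉ J)
    (ht : ∑ e ∈ Q, e < x0) : NB W gb E x0 y0 (J ∪ Q) := by
  refine ⟨h.W_union hJ hQ, ?_, ?_⟩
  · obtain ⟨J', h1, h2⟩ := bad_item hna
    exact item_bad h2 (h1.trans subset_union_left)
  · rintro ⟨h1, _⟩
    rcases mem_union.1 h1 with h1 | h1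
    · exact hx h1
    · have := le_sum_of_mem h1
      omega

/-- membership in the counterparts -/
lemma NR_of {x0 y0 : ℕ} {J Q : Finset ℕ} (hJ : ∀ j ∈ J, τ < j ∧ ¬ X j)
    (hK : ∃ e ∈ J, Kc M N e) (hQ : W Q) (hx : N ∈ J → x0 ∈ J ∨ y0 ∈ J)
    (ht : ∑ e ∈ Q, e < N) : NR W M N x0 y0 (J ∪ Q) := by
  refine ⟨h.W_union hJ hQ, ?_, ?_⟩
  · obtain ⟨e, he, hKe⟩ := hK
    exact ⟨e, mem_union_left _ he, hKe⟩
  · intro hN
    rcases mem_union.1 hN with h1 | h1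
    · rcases hx h1 with h2 | h2
      · exact Or.inl (mem_union_left _ h2)
      · exact Or.inr (mem_union_left _ h2)
    · have := le_sum_of_mem h1
      omega

omit h in
lemma Kc_one {e : ℕ} (hM : 0 < M) (hK : Kc M N e) (he : e < N + M) : e = N := by
  obtain ⟨h1, h2⟩ := hK
  have h3 : M ∣ e - N := (Nat.modEq_iff_dvd' h1).1 h2.symm
  obtain ⟨k, hk⟩ := h3
  rcases k with _ | k
  · rw [mul_zero] at hk; omega
  · have : M * 1 ≤ M * (k + 1) := Nat.mul_le_mul_left _ (by omega)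
    omega

omit h in
lemma Kc_two {e : ℕ} (hM : 0 < M) (hK : Kc M N e) (he : e < N + 2 * M) :
    e = N ∨ e = N + M := by
  obtain ⟨h1, h2⟩ := hK
  have h3 : M ∣ e - N := (Nat.modEq_iff_dvd' h1).1 h2.symm
  obtain ⟨k, hk⟩ := h3
  rcases k with _ | _ | k
  · rw [mul_zero] at hk; omega
  · rw [zero_add, mul_one] at hk; omega
  · have : M * 2 ≤ M * (k + 1 + 1) := Nat.mul_le_mul_left _ (by omega)
    omega

omit h in
lemma Kc_three {e : ℕ} (hM : 0 < M) (hK : Kc M N e) (he : e < N + 3 * M) :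
    e = N ∨ e = N + M ∨ e = N + 2 * M := by
  obtain ⟨h1, h2⟩ := hK
  have h3 : M ∣ e - N := (Nat.modEq_iff_dvd' h1).1 h2.symm
  obtain ⟨k, hk⟩ := h3
  rcases k with _ | _ | _ | k
  · rw [mul_zero] at hk; omega
  · rw [zero_add, mul_one] at hk; omega
  · have : M * (0 + 1 + 1) = 2 * M := by ring
    omega
  · have : M * 3 ≤ M * (k + 1 + 1 + 1) := Nat.mul_le_mul_left _ (by omega)
    omega

omit h in
lemma Kc_self : Kc M N N := ⟨le_rfl, rfl⟩

omit h in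
lemma Kc_M : Kc M N (N + M) := ⟨by omega, by simp⟩

omit h in
lemma Kc_2M : Kc M N (N + 2 * M) := ⟨by omega, by simp⟩

/-- the sets of sum `0` -/
lemma q_zero : cnt W 0 = 1 := by
  classical
  rw [cnt_eq, card_eq_one]
  refine ⟨∅, ?_⟩
  ext S
  rw [mem_fam, mem_singleton]
  constructor
  · rintro ⟨h1, h2⟩
    rw [eq_empty_iff_forall_notMem]
    intro x hx
    have := le_sum_of_mem hx
    have := (h.Wpos S h1 x hx).1
    omega
  · rintro rfl
    exact ⟨h.W0, by simp⟩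

end Ctx

end Pool.Agent.H38.DO
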