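import Pool.Agent.H38.DO.Large

/-! Families of bad sets. -/

open Finset

namespace Pool.Agent.H38.DO

open Pool.Agent.H38.DP

lemma single_bad {gb : ℕ → ℕ} {E : ℕ → Prop} {e : ℕ} (hE : ¬ E e) : ¬ Adm gb E {e} :=
  fun h => hE (h.1 e (mem_singleton_self e))

lemma mod_sub_of {M x : ℕ} (h1 : M ≤ x) (h2 : x < 2 * M) : x % M = x - M := by
  rw [Nat.mod_eq_sub_mod h1, Nat.mod_eq_of_lt (by omega)]

lemma mod_sub_of2 {M x : ℕ} (h1 : 2 * M ≤ x) (h2 : x < 3 * M) : x % M = x - 2 * M := by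
  rw [Nat.mod_eq_sub_mod (by omega), mod_sub_of (by omega) (by omega)]
  omega

/-- the form of an item -/
lemma item_form {gb : ℕ → ℕ} {E : ℕ → Prop} {J : Finset ℕ} (h : Item gb E J) :
    (J = {∑ e ∈ J, e} ∧ ¬ E (∑ e ∈ J, e)) ∨
      ∃ x z, z < x ∧ E x ∧ E z ∧ x < z + gb x ∧ J = {x, z} ∧ ∑ e ∈ J, e = x + z := by
  rcases h with ⟨e, he, rfl⟩ | ⟨x, z, hzx, hx, hz, hlt, rfl⟩
  · left
    rw [sum_singleton]
    exact ⟨rfl, he⟩
  · exact Or.inr ⟨x, z, hzx, hx, hz, hlt, rfl, sum_pair' hzx⟩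

namespace Ctx

variable {M N τ : ℕ} {gb : ℕ → ℕ} {E X : ℕ → Prop} {W : Finset ℕ → Prop}
  (h : Ctx M N τ gb E X W)
include h

lemma fam_pair {x0 y0 x z t : ℕ} (hzx : z < x) (hx : τ < x ∧ ¬ X x) (hz : τ < z ∧ ¬ X z)
    (hbad : x < z + gb x) (hyx : y0 < x0) (hnot : ¬ (x = x0 ∧ z = y0)) (ht : t < y0) :
    ∀ Q, W Q → ∑ e ∈ Q, e = t → NB W gb E x0 y0 ({x, z} ∪ Q) := by
  intro Q hQ hQt
  refine h.NB_of ?_ (pair_bad hzx hbad (by simp) (by simp)) hQ ?_ hyx (by omega)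
  · intro j hj
    rw [mem_insert, mem_singleton] at hj
    rcases hj with rfl | rfl
    · exact hx
    · exact hz
  · rintro ⟨m1, m2⟩
    rw [mem_insert, mem_singleton] at m1 m2
    omega

lemma fam_single {x0 y0 e t : ℕ} (he : τ < e ∧ ¬ X e) (hE : ¬ E e) (hyx : y0 < x0)
    (ht : t < y0) :
    ∀ Q, W Q → ∑ e ∈ Q, e = t → NB W gb E x0 y0 ({e} ∪ Q) := by
  intro Q hQ hQt
  refine h.NB_of ?_ (single_bad hE) hQ ?_ hyx (by omega)
  · intro j hj
    rw [mem_singleton] at hj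
    rw [hj]
    exact he
  · rintro ⟨m1, m2⟩
    rw [mem_singleton] at m1 m2
    omega

/-- sets of sum one -/
lemma q_one (h1 : ¬ X 1) : cnt W 1 = 1 := by
  classical
  rw [cnt_eq, card_eq_one]
  refine ⟨{1}, ?_⟩
  ext S
  rw [mem_fam, mem_singleton]
  constructor
  · rintro ⟨h2, h3⟩
    have h4 : ∀ x ∈ S, x = 1 := by
      intro x hx
      have := le_sum_of_mem hx
      have := (h.Wpos S h2 x hx).1
      omega
    rcases S.eq_empty_or_nonempty with rfl | ⟨x, hx⟩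
    · simp at h3
    · rw [h4 x hx] at hx
      symm
      apply eq_of_subset_sum (singleton_subset_iff.2 hx) (fun x hx => (h.Wpos S h2 x hx).1)
      rw [sum_singleton, h3]
  · rintro rfl
    exact ⟨h.W1 1 (by norm_num) h1, by simp⟩

/-- sets of sum two -/
lemma q_two (h2 : ¬ X 2) : cnt W 2 = 1 := by
  classical
  rw [cnt_eq, card_eq_one]
  refine ⟨{2}, ?_⟩
  ext S
  rw [mem_fam, mem_singleton]
  constructor
  · rintro ⟨h3, h4⟩
    have h5 : 2 ∈ S := by
      by_contra h6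
      have h7 : S ⊆ {1} := by
        intro x hx
        have h8 := le_sum_of_mem hx
        have h9 := (h.Wpos S h3 x hx).1
        rw [mem_singleton]
        have : x ≠ 2 := fun h10 => h6 (h10 ▸ hx)
        omega
      have h8 := sum_le_sum_of_subset (f := fun e => e) h7
      rw [sum_singleton] at h8
      omega
    symm
    apply eq_of_subset_sum (singleton_subset_iff.2 h5) (fun x hx => (h.Wpos S h3 x hx).1)
    rw [sum_singleton, h4]
  · rintro rfl
    exact ⟨h.W1 2 (by norm_num) h2, by simp⟩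

end Ctx

end Pool.Agent.H38.DO
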